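import Pool.Agent.PSX.Even

set_option autoImplicit false

/-!
# Blocks on which an alternating group induces all even patterns
-/

namespace Pool.Agent.PSX

open Pool.Agent.PSY

/-- Two even permutations which agree ... an element of a subgroup that moves the new point. -/
theorem exists_move {α : Type} [Fintype α] [DecidableEq α] (P : Finset α) (hP : 3 ≤ P.card)
    (d d' : α) (hd : d ∈ P) (hd' : d' ∈ P) :
    ∃ e : alternatingGroup α, (∀ z, z ∉ P → (e : Equiv.Perm α) z = z) ∧
      (e : Equiv.Perm α) d = d' := by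
  by_cases h : d = d'
  · exact ⟨1, fun z _ => rfl, h⟩
  · have h1 : ((P.erase d).erase d').Nonempty := by
      rw [← Finset.card_pos]
      have h2 : (P.erase d).card = P.card - 1 := Finset.card_erase_of_mem hd
      have h3 : ((P.erase d).erase d').card = (P.erase d).card - 1 :=
        Finset.card_erase_of_mem (Finset.mem_erase.mpr ⟨Ne.symm h, hd'⟩)
      omega
    obtain ⟨c, hc⟩ := h1
    rw [Finset.mem_erase, Finset.mem_erase] at hc
    obtain ⟨hc1, hc2, hc3⟩ := hc
    refine ⟨⟨Equiv.swap d d' * Equiv.swap d' c, ?_⟩, fun z hz => ?_, ?_⟩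
    · rw [Equiv.Perm.mem_alternatingGroup, Equiv.Perm.sign_mul, Equiv.Perm.sign_swap h,
        Equiv.Perm.sign_swap (Ne.symm hc1)]
      rfl
    · have z1 : z ≠ d := fun e => hz (e ▸ hd)
      have z2 : z ≠ d' := fun e => hz (e ▸ hd')
      have z3 : z ≠ c := fun e => hz (e ▸ hc3)
      change Equiv.swap d d' (Equiv.swap d' c z) = z
      rw [Equiv.swap_apply_of_ne_of_ne z2 z3, Equiv.swap_apply_of_ne_of_ne z1 z2]
    · change Equiv.swap d d' (Equiv.swap d' c d) = d'
      rw [Equiv.swap_apply_of_ne_of_ne h (Ne.symm hc2), Equiv.swap_apply_left]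

/-- **Extension.** If `K` contains all even permutations of `P` and an even permutation of
`P ∪ {x}` that moves `x`, then it contains all even permutations of `P ∪ {x}`. -/
theorem extend {α : Type} [Fintype α] [DecidableEq α] (K : Subgroup (alternatingGroup α))
    (P : Finset α) (hP : 3 ≤ P.card) (x : α)
    (hK : ∀ h : alternatingGroup α, (∀ z, z ∉ P → (h : Equiv.Perm α) z = z) → h ∈ K)
    (k : alternatingGroup α) (hk : k ∈ K)
    (hk1 : ∀ z, z ∉ insert x P → (k : Equiv.Perm α) z = z) (hk2 : (k : Equiv.Perm α) x ≠ x)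
    (h : alternatingGroup α) (hh : ∀ z, z ∉ insert x P → (h : Equiv.Perm α) z = z) : h ∈ K := by
  have hin : ∀ g : alternatingGroup α, (∀ z, z ∉ insert x P → (g : Equiv.Perm α) z = z) →
      (g : Equiv.Perm α) x ≠ x → (g : Equiv.Perm α) x ∈ P := by
    intro g hg hgx
    by_contra hn
    have h1 : (g : Equiv.Perm α) x ∉ insert x P := by
      rw [Finset.mem_insert, not_or]; exact ⟨hgx, hn⟩
    have h2 := hg _ h1
    exact hgx ((g : Equiv.Perm α).injective h2)
  by_cases hx : (h : Equiv.Perm α) x = x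
  · refine hK h fun z hz => ?_
    by_cases hzx : z = x
    · rw [hzx]; exact hx
    · exact hh z (by rw [Finset.mem_insert, not_or]; exact ⟨hzx, hz⟩)
  · obtain ⟨e, he1, he2⟩ := exists_move P hP _ _ (hin k hk1 hk2) (hin h hh hx)
    have heK : e ∈ K := hK e he1
    have h1 : (e * k)⁻¹ * h ∈ K := by
      refine hK _ fun z hz => ?_
      have key : ((e : Equiv.Perm α) * (k : Equiv.Perm α)) z = (h : Equiv.Perm α) z := by
        rw [Equiv.Perm.mul_apply]
        by_cases hzx : z = x
        · rw [hzx]; exact he2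
        · have h3 : z ∉ insert x P := by rw [Finset.mem_insert, not_or]; exact ⟨hzx, hz⟩
          rw [hk1 z h3, hh z h3, he1 z hz]
      change ((e : Equiv.Perm α) * (k : Equiv.Perm α))⁻¹ ((h : Equiv.Perm α) z) = z
      rw [Equiv.Perm.inv_eq_iff_eq]
      exact key.symm
    have h2 : h = (e * k) * ((e * k)⁻¹ * h) := by group
    rw [h2]
    exact K.mul_mem (K.mul_mem heK hk) h1

/-- The points `b (i, p)` of the blocks. -/
theorem blocks_of_set {m t : ℕ} {V : Type} (θ : alternatingGroup (Fin m) →* Equiv.Perm V) (v : V)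
    (R : Finset (Fin m)) (x₀ : Fin m) (hx₀ : x₀ ∈ R)
    (hR1 : ∀ h : alternatingGroup (Fin m), (∀ z ∈ R, (h : Equiv.Perm (Fin m)) z = z) → θ h v = v)
    (hR2 : ∀ (P : Finset (Fin m)), (∀ z ∈ P, z ∉ R) → P.card = 4 →
      ∀ k : alternatingGroup (Fin m), (∀ z, z ∉ insert x₀ P → (k : Equiv.Perm (Fin m)) z = z) →
        θ k v = v → (k : Equiv.Perm (Fin m)) x₀ = x₀)
    (hm : t * (R.card + 4) ≤ m) (hm2 : R.card + 2 ≤ m) :
    ∃ b : Fin t × Fin 5 ↪ V, ∀ a : Fin t → A5, ∃ h : alternatingGroup (Fin m),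
      ∀ i p, θ h (b (i, p)) = b (i, (a i : Equiv.Perm (Fin 5)) p) := by
  classical
  -- the places
  obtain ⟨c⟩ : Nonempty ((Fin t × (R ⊕ Fin 4)) ↪ Fin m) := by
    apply Function.Embedding.nonempty_of_card_le
    simp only [Fintype.card_prod, Fintype.card_sum, Fintype.card_fin, Fintype.card_coe]
    exact hm
  -- the even permutations which move `R` to its places
  have hg : ∀ i : Fin t, ∃ g : alternatingGroup (Fin m),
      ∀ z : R, (g : Equiv.Perm (Fin m)) z = c (i, Sum.inl z) := by
    intro i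
    have h1 : MulAction.IsMultiplyPretransitive (alternatingGroup (Fin m)) (Fin m) R.card := by
      have := alternatingGroup.isMultiplyPretransitive (Fin m)
      apply MulAction.isMultiplyPretransitive_of_le (n := Nat.card (Fin m) - 2)
      · rw [Nat.card_eq_fintype_card, Fintype.card_fin]; omega
      · exact Nat.sub_le _ _
    let ρ : Fin R.card ≃ R := (Fintype.equivFinOfCardEq (by simp)).symm
    let y₁ : Fin R.card ↪ Fin m := ρ.toEmbedding.trans (Function.Embedding.subtype _)
    let y₂ : Fin R.card ↪ Fin m := ⟨fun k => c (i, Sum.inl (ρ k)), fun k k' h => by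
      have h2 := c.injective h
      simpa using h2⟩
    obtain ⟨g, hg⟩ := h1.exists_smul_eq y₁ y₂
    refine ⟨g, fun z => ?_⟩
    have h3 := congrArg (fun f : Fin R.card ↪ Fin m => f (ρ.symm z)) hg
    simp only [y₁, y₂, Function.Embedding.smul_apply, Function.Embedding.trans_apply,
      Function.Embedding.subtype_apply, Equiv.apply_symm_apply,
      Function.Embedding.coeFn_mk] at h3
    exact h3
  choose g hg using hg
  -- the blocks of points
  set x₁ : R := ⟨x₀, hx₀⟩ with hx₁
  let u : Fin 5 → R ⊕ Fin 4 := fun p => Fin.cases (Sum.inl x₁) (fun k => Sum.inr k) p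
  have hu0 : u 0 = Sum.inl x₁ := rfl
  have huS : ∀ k : Fin 4, u k.succ = Sum.inr k := fun k => rfl
  have hu : Function.Injective u := by
    intro p q
    induction p using Fin.cases with
    | zero =>
      induction q using Fin.cases with
      | zero => exact fun _ => rfl
      | succ q => intro h; rw [hu0, huS] at h; exact absurd h (by simp)
    | succ p =>
      induction q using Fin.cases with
      | zero => intro h; rw [hu0, huS] at h; exact absurd h (by simp)
      | succ q => intro h; rw [huS, huS] at h; rw [Sum.inr.inj h]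
  let y : Fin t × Fin 5 ↪ Fin m := ⟨fun q => c (q.1, u q.2), fun q q' h => by
    have h2 := c.injective h
    rw [Prod.mk.injEq] at h2
    exact Prod.ext h2.1 (hu h2.2)⟩
  have hy : ∀ i p, y (i, p) = c (i, u p) := fun i p => rfl
  have hα : ∀ p : Fin 5, ∃ a : A5, (a : Equiv.Perm (Fin 5)) 0 = p := by
    intro p
    obtain ⟨e, -, he⟩ := exists_move (Finset.univ : Finset (Fin 5)) (by simp) 0 p
      (Finset.mem_univ _) (Finset.mem_univ _)
    exact ⟨e, he⟩
  choose α hα using hα
  -- the base points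
  let w : Fin t → V := fun i => θ (g i) v
  have hmul : ∀ (h h' : alternatingGroup (Fin m)) (x : V), θ h (θ h' x) = θ (h * h') x := by
    intro h h' x
    rw [map_mul]; rfl
  have hF1 : ∀ (i : Fin t) (h : alternatingGroup (Fin m)),
      (∀ z : R, (h : Equiv.Perm (Fin m)) (c (i, Sum.inl z)) = c (i, Sum.inl z)) →
      θ h (w i) = w i := by
    intro i h hh
    have h1 : θ ((g i)⁻¹ * h * g i) v = v := by
      refine hR1 _ fun z hz => ?_
      change ((g i : Equiv.Perm (Fin m)))⁻¹ ((h : Equiv.Perm (Fin m)) ((g i : Equiv.Perm (Fin m)) z)) = z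
      rw [Equiv.Perm.inv_eq_iff_eq]
      have h2 := hg i ⟨z, hz⟩
      have h3 := hh ⟨z, hz⟩
      rw [← h2] at h3
      exact h3
    change θ h (θ (g i) v) = θ (g i) v
    have h4 : θ (g i) (θ ((g i)⁻¹ * h * g i) v) = θ h (θ (g i) v) := by
      rw [hmul, hmul]
      congr 2
      group
    rw [← h4, h1]
  have hF2 : ∀ (i : Fin t) (a : Fin t → A5), (a i : Equiv.Perm (Fin 5)) 0 = 0 →
      θ (blkA y a) (w i) = w i := by
    intro i a ha
    refine hF1 i _ fun z => ?_
    rw [blkA_coe]
    by_cases hz : z = x₁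
    · have h1 : c (i, Sum.inl z) = y (i, 0) := by rw [hy, hu0, hz]
      rw [h1, blk_apply, ha]
    · refine blk_apply_of_not y a _ ?_
      rintro ⟨⟨j, p⟩, hjp⟩
      rw [hy] at hjp
      have h2 := c.injective hjp
      rw [Prod.mk.injEq] at h2
      have h3 := h2.2
      induction p using Fin.cases with
      | zero => rw [hu0] at h3; exact hz (Sum.inl.inj h3).symm
      | succ p => rw [huS] at h3; exact absurd h3 (by simp)
  let bf : Fin t × Fin 5 → V := fun q => θ (blkA y (Pi.mulSingle q.1 (α q.2))) (w q.1)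
  have hbf : ∀ i p, bf (i, p) = θ (blkA y (Pi.mulSingle i (α p))) (w i) := fun i p => rfl
  have hact : ∀ (a : Fin t → A5) (i : Fin t) (p : Fin 5),
      θ (blkA y a) (bf (i, p)) = bf (i, (a i : Equiv.Perm (Fin 5)) p) := by
    intro a i p
    rw [hbf, hbf, hmul, ← map_mul]
    set s : Fin t → A5 := Pi.mulSingle i (α ((a i : Equiv.Perm (Fin 5)) p)) with hs
    have h1 : a * Pi.mulSingle i (α p) = s * (s⁻¹ * (a * Pi.mulSingle i (α p))) := by group
    rw [h1, map_mul, ← hmul]
    congr 1
    apply hF2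
    have h2 : (s⁻¹ * (a * Pi.mulSingle i (α p)) : Fin t → A5) i =
        (α ((a i : Equiv.Perm (Fin 5)) p))⁻¹ * (a i * α p) := by
      rw [Pi.mul_apply, Pi.mul_apply, Pi.inv_apply, hs, Pi.mulSingle_eq_same,
        Pi.mulSingle_eq_same]
    rw [h2]
    change ((α ((a i : Equiv.Perm (Fin 5)) p) : A5) : Equiv.Perm (Fin 5))⁻¹
      ((a i : Equiv.Perm (Fin 5)) ((α p : Equiv.Perm (Fin 5)) 0)) = 0
    rw [Equiv.Perm.inv_eq_iff_eq, hα, hα]
  have hsame : ∀ (i : Fin t) (p q : Fin 5), bf (i, p) = bf (i, q) → p = q := by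
    intro i p q h
    set β : A5 := (α q)⁻¹ * α p with hβ
    have h1 : θ (blkA y (Pi.mulSingle i β)) (w i) = w i := by
      have h2 : blkA y (Pi.mulSingle i β) =
          (blkA y (Pi.mulSingle i (α q)))⁻¹ * blkA y (Pi.mulSingle i (α p)) := by
        rw [← map_inv, ← map_mul]
        congr 1
        rw [← Pi.mulSingle_inv, ← Pi.mulSingle_mul]
      rw [h2, ← hmul]
      rw [hbf, hbf] at h
      rw [h, hmul, inv_mul_cancel, map_one]
      rfl
    let P : Finset (Fin m) := Finset.univ.image fun k : Fin 4 =>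
      ((g i : Equiv.Perm (Fin m)))⁻¹ (c (i, Sum.inr k))
    have hP1 : ∀ z ∈ P, z ∉ R := by
      intro z hz hzR
      obtain ⟨k, -, hk⟩ := Finset.mem_image.mp hz
      rw [Equiv.Perm.inv_eq_iff_eq] at hk
      have h3 := hg i ⟨z, hzR⟩
      rw [← hk] at h3
      have h4 := c.injective h3
      rw [Prod.mk.injEq] at h4
      exact absurd h4.2 (by simp)
    have hP2 : P.card = 4 := by
      rw [Finset.card_image_of_injective, Finset.card_univ, Fintype.card_fin]
      intro k k' h5
      have h6 := c.injective ((((g i : Equiv.Perm (Fin m)))⁻¹).injective h5)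
      rw [Prod.mk.injEq] at h6
      exact Sum.inr.inj h6.2
    have h3 := hR2 P hP1 hP2 ((g i)⁻¹ * blkA y (Pi.mulSingle i β) * g i) ?_ ?_
    · change ((g i : Equiv.Perm (Fin m)))⁻¹ (blk y (Pi.mulSingle i β)
        ((g i : Equiv.Perm (Fin m)) x₀)) = x₀ at h3
      rw [Equiv.Perm.inv_eq_iff_eq] at h3
      have h4 : (g i : Equiv.Perm (Fin m)) x₀ = y (i, 0) := by
        rw [hy, hu0]; exact hg i x₁
      rw [h4, blk_apply, Pi.mulSingle_eq_same] at h3
      have h5 := y.injective h3
      rw [Prod.mk.injEq] at h5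
      have h6 := h5.2
      change ((α q : A5) : Equiv.Perm (Fin 5))⁻¹ ((α p : Equiv.Perm (Fin 5)) 0) = 0 at h6
      rw [Equiv.Perm.inv_eq_iff_eq, hα, hα] at h6
      exact h6
    · intro z hz
      rw [Finset.mem_insert, not_or] at hz
      change ((g i : Equiv.Perm (Fin m)))⁻¹ (blk y (Pi.mulSingle i β)
        ((g i : Equiv.Perm (Fin m)) z)) = z
      rw [Equiv.Perm.inv_eq_iff_eq]
      by_cases hr : (g i : Equiv.Perm (Fin m)) z ∈ Set.range y
      · obtain ⟨⟨j, p'⟩, hjp⟩ := hr
        rw [← hjp, blk_apply]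
        by_cases hji : j = i
        · exfalso
          rw [hji, hy] at hjp
          induction p' using Fin.cases with
          | zero =>
            rw [hu0] at hjp
            have h7 := hg i x₁
            rw [hjp] at h7
            exact hz.1 (((g i : Equiv.Perm (Fin m))).injective h7).symm
          | succ k =>
            rw [huS] at hjp
            refine hz.2 (Finset.mem_image.mpr ⟨k, Finset.mem_univ _, ?_⟩)
            rw [Equiv.Perm.inv_eq_iff_eq]
            exact hjp
        · rw [Pi.mulSingle_eq_of_ne hji]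
          rfl
      · exact blk_apply_of_not y _ _ hr
    · rw [map_mul, map_mul]
      change θ (g i)⁻¹ (θ (blkA y (Pi.mulSingle i β)) (w i)) = v
      rw [h1, hmul, inv_mul_cancel, map_one]
      rfl
  have hinj : Function.Injective bf := by
    rintro ⟨i, p⟩ ⟨j, q⟩ h
    by_cases hij : i = j
    · subst hij
      rw [hsame i p q h]
    · exfalso
      obtain ⟨a', -, ha'⟩ := exists_move (Finset.univ : Finset (Fin 5)) (by simp) p (p + 1)
        (Finset.mem_univ _) (Finset.mem_univ _)
      have h1 := hact (Pi.mulSingle i a') i p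
      have h2 := hact (Pi.mulSingle i a') j q
      rw [Pi.mulSingle_eq_same] at h1
      rw [Pi.mulSingle_eq_of_ne (Ne.symm hij)] at h2
      have h3 : bf (i, (a' : Equiv.Perm (Fin 5)) p) = bf (i, p) := by
        rw [← h1, h, h2]; rfl
      have h4 := hsame i _ _ h3
      rw [ha'] at h4
      have h5 : ∀ p : Fin 5, p + 1 ≠ p := by decide
      exact h5 p h4
  exact ⟨⟨bf, hinj⟩, fun a => ⟨blkA y a, fun i p => hact a i p⟩⟩

end Pool.Agent.PSX
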