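import Pool.Agent.PSX.AltD
import Pool.Agent.PSY.Grp5

set_option autoImplicit false

/-!
# Subgroups of small index of the alternating group contain a large alternating group
-/

namespace Pool.Agent.PSX.AltR

variable {m : ℕ}

theorem mem_altOn {D : Finset (Fin m)} {h : alternatingGroup (Fin m)} :
    h ∈ altOn D ↔ ∀ x, x ∉ D → (h : Equiv.Perm (Fin m)) x = x := Iff.rfl

theorem altOn_mono {D E : Finset (Fin m)} (hE : E ⊆ D) : altOn E ≤ altOn D :=
  fun _ hg x hx => hg x fun h' => hx (hE h')

/-- An even permutation that maps `a` to `p`, moving only points of `{a, p, r}`. -/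
theorem exists_cycle {a p r : Fin m} (har : r ≠ a) (hpr : r ≠ p) :
    ∃ h : alternatingGroup (Fin m), (h : Equiv.Perm (Fin m)) a = p ∧
      ∀ x, x ≠ a → x ≠ p → x ≠ r → (h : Equiv.Perm (Fin m)) x = x := by
  by_cases hap : a = p
  · exact ⟨1, by simpa using hap, fun x _ _ _ => rfl⟩
  · refine ⟨⟨Equiv.swap a r * Equiv.swap a p, ?_⟩, ?_, ?_⟩
    · rw [Equiv.Perm.mem_alternatingGroup, Equiv.Perm.sign_mul, Equiv.Perm.sign_swap (Ne.symm har),
        Equiv.Perm.sign_swap hap]
      norm_num
    · show Equiv.swap a r (Equiv.swap a p a) = p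
      rw [Equiv.swap_apply_left, Equiv.swap_apply_of_ne_of_ne (Ne.symm hap) (Ne.symm hpr)]
    · intro x h1 h2 h3
      show Equiv.swap a r (Equiv.swap a p x) = x
      rw [Equiv.swap_apply_of_ne_of_ne h1 h2, Equiv.swap_apply_of_ne_of_ne h1 h3]

/-- If `Alt(D)` and `Alt({x} ∪ P)` lie in `K`, `P ⊆ D` has three points, so does `Alt(D ∪ {x})`. -/
theorem altOn_insert {K : Subgroup (alternatingGroup (Fin m))} {D P : Finset (Fin m)} {x : Fin m}
    (hD : altOn D ≤ K) (hPD : P ⊆ D) (hP : 3 ≤ P.card) (hx : x ∉ D)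
    (h : altOn (insert x P) ≤ K) : altOn (insert x D) ≤ K := by
  intro g hg
  rw [mem_altOn] at hg
  by_cases hgx : (g : Equiv.Perm (Fin m)) x = x
  · refine hD (mem_altOn.2 fun y hy => ?_)
    by_cases hyx : y = x
    · rw [hyx, hgx]
    · exact hg y (by simp [hyx, hy])
  · have ha : (g : Equiv.Perm (Fin m)) x ∈ D := by
      by_contra h1
      have h2 : (g : Equiv.Perm (Fin m)) x ∉ insert x D := by
        simp only [Finset.mem_insert, not_or]
        exact ⟨hgx, h1⟩
      exact hgx ((g : Equiv.Perm (Fin m)).injective (hg _ h2))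
    obtain ⟨p, hp⟩ := Finset.card_pos.1 (by omega : 0 < P.card)
    obtain ⟨q, hq⟩ := Finset.card_pos.1
      (by rw [Finset.card_erase_of_mem hp]; omega : 0 < (P.erase p).card)
    have hqp : q ≠ p := Finset.ne_of_mem_erase hq
    have hqP : q ∈ P := Finset.mem_of_mem_erase hq
    have hcard : 3 ≤ D.card := hP.trans (Finset.card_le_card hPD)
    obtain ⟨r, hr⟩ : ∃ r, r ∈ (D.erase ((g : Equiv.Perm (Fin m)) x)).erase p := by
      refine Finset.card_pos.1 ?_
      have h1 := Finset.pred_card_le_card_erase (s := D.erase ((g : Equiv.Perm (Fin m)) x))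
        (a := p)
      rw [Finset.card_erase_of_mem ha] at h1
      omega
    have hrp : r ≠ p := Finset.ne_of_mem_erase hr
    have hra : r ≠ (g : Equiv.Perm (Fin m)) x :=
      Finset.ne_of_mem_erase (Finset.mem_of_mem_erase hr)
    have hrD : r ∈ D := Finset.mem_of_mem_erase (Finset.mem_of_mem_erase hr)
    have hpD := hPD hp
    have hqD := hPD hqP
    obtain ⟨u, hu1, hu2⟩ :=
      exists_cycle (a := (g : Equiv.Perm (Fin m)) x) (p := p) (r := r) hra hrp
    obtain ⟨c, hc1, hc2⟩ := exists_cycle (a := p) (p := x) (r := q) hqp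
      (fun h => hx (h ▸ hqD))
    have huK : u ∈ K := hD (mem_altOn.2 fun y hy => hu2 y (fun h => hy (h ▸ ha))
      (fun h => hy (h ▸ hpD)) (fun h => hy (h ▸ hrD)))
    have hcK : c ∈ K := h (mem_altOn.2 fun y hy => by
      simp only [Finset.mem_insert, not_or] at hy
      exact hc2 y (fun h => hy.2 (h ▸ hp)) hy.1 (fun h => hy.2 (h ▸ hqP)))
    have hw : c * (u * g) ∈ K := by
      refine hD (mem_altOn.2 fun y hy => ?_)
      show (c : Equiv.Perm (Fin m)) ((u : Equiv.Perm (Fin m)) ((g : Equiv.Perm (Fin m)) y)) = y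
      by_cases hyx : y = x
      · rw [hyx, hu1, hc1]
      · have h1 : (g : Equiv.Perm (Fin m)) y = y := hg y (by simp [hyx, hy])
        have h2 : (u : Equiv.Perm (Fin m)) y = y :=
          hu2 y (fun h => hy (h ▸ ha)) (fun h => hy (h ▸ hpD)) (fun h => hy (h ▸ hrD))
        have h3 : (c : Equiv.Perm (Fin m)) y = y :=
          hc2 y (fun h => hy (h ▸ hpD)) hyx (fun h => hy (h ▸ hqD))
        rw [h1, h2, h3]
    have h4 : g = u⁻¹ * (c⁻¹ * (c * (u * g))) := by group
    rw [h4]
    exact K.mul_mem (K.inv_mem huK) (K.mul_mem (K.inv_mem hcK) hw)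

/-- A maximal set `D ⊆ W` with `Alt(D) ≤ K`: adding a point of `W` to four points of `D` is bad. -/
theorem exists_max (K : Subgroup (alternatingGroup (Fin m))) (D0 W : Finset (Fin m))
    (h0 : altOn D0 ≤ K) (h0W : D0 ⊆ W) :
    ∃ D : Finset (Fin m), D0 ⊆ D ∧ D ⊆ W ∧ altOn D ≤ K ∧
      ∀ x ∈ W, x ∉ D → ∀ P : Finset (Fin m), P ⊆ D → P.card = 4 → ¬ altOn (insert x P) ≤ K := by
  classical
  obtain ⟨D, hD, hmax⟩ := Finset.exists_max_image
    ((Finset.univ : Finset (Finset (Fin m))).filter fun D => D0 ⊆ D ∧ D ⊆ W ∧ altOn D ≤ K)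
    Finset.card ⟨D0, by simp [h0, h0W]⟩
  rw [Finset.mem_filter] at hD
  refine ⟨D, hD.2.1, hD.2.2.1, hD.2.2.2, ?_⟩
  intro x hxW hx P hPD hP h
  have h1 := hmax (insert x D) (by
    rw [Finset.mem_filter]
    exact ⟨Finset.mem_univ _, hD.2.1.trans (Finset.subset_insert x D),
      Finset.insert_subset hxW hD.2.2.1, altOn_insert hD.2.2.2 hPD (by omega) hx h⟩)
  rw [Finset.card_insert_of_notMem hx] at h1
  omega

/-- If `Alt(Y) ≤ K` for all five-element subsets `Y` of `W`, then `Alt(W) ≤ K`. -/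
theorem altOn_of_five (K : Subgroup (alternatingGroup (Fin m))) (W : Finset (Fin m))
    (hW : 5 ≤ W.card) (h : ∀ Y : Finset (Fin m), Y ⊆ W → Y.card = 5 → altOn Y ≤ K) :
    altOn W ≤ K := by
  obtain ⟨Y, hY, hYc⟩ := Finset.exists_subset_card_eq hW
  obtain ⟨D, h1, h2, h3, h4⟩ := exists_max K Y W (h Y hY hYc) hY
  have hDW : D = W := by
    refine Finset.Subset.antisymm h2 fun x hx => ?_
    by_contra hxD
    have h5 : 4 ≤ D.card := by
      have := Finset.card_le_card h1
      omega
    obtain ⟨P, hP, hPc⟩ := Finset.exists_subset_card_eq h5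
    refine h4 x hx hxD P hP hPc (h _ (Finset.insert_subset hx (hP.trans h2)) ?_)
    rw [Finset.card_insert_of_notMem fun h => hxD (hP h), hPc]
  rw [← hDW]
  exact h3

open Classical in
/-- The even permutations of disjoint five-element sets. -/
noncomputable def eblk {s : ℕ} (b : Fin s × Fin 5 ↪ Fin m) :
    (Fin s → alternatingGroup (Fin 5)) →* alternatingGroup (Fin m) where
  toFun a := ⟨Equiv.Perm.extendDomain
    (Equiv.prodCongrRight fun i => ((a i : alternatingGroup (Fin 5)) : Equiv.Perm (Fin 5)))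
    (Equiv.ofInjective b b.injective), by
      rw [Equiv.Perm.mem_alternatingGroup, Equiv.Perm.sign_extendDomain,
        Equiv.Perm.sign_prodCongrRight]
      exact Finset.prod_eq_one fun i _ => (a i).2⟩
  map_one' := by
    refine Subtype.ext ?_
    exact Equiv.Perm.extendDomain_one _
  map_mul' a a' := by
    refine Subtype.ext ?_
    refine Eq.trans ?_ (Equiv.Perm.extendDomain_mul _ _ _).symm
    rfl

theorem eblk_apply {s : ℕ} (b : Fin s × Fin 5 ↪ Fin m) (a : Fin s → alternatingGroup (Fin 5))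
    (i : Fin s) (p : Fin 5) :
    (eblk b a : Equiv.Perm (Fin m)) (b (i, p)) = b (i, (a i : Equiv.Perm (Fin 5)) p) := by
  classical
  exact Equiv.Perm.extendDomain_apply_image _ (Equiv.ofInjective b b.injective) (i, p)

theorem eblk_apply_of_not {s : ℕ} (b : Fin s × Fin 5 ↪ Fin m)
    (a : Fin s → alternatingGroup (Fin 5)) (x : Fin m) (hx : x ∉ Set.range b) :
    (eblk b a : Equiv.Perm (Fin m)) x = x := by
  classical
  exact Equiv.Perm.extendDomain_apply_not_subtype _ (Equiv.ofInjective b b.injective) hx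

/-- The block `i`. -/
def blkSet {s : ℕ} (b : Fin s × Fin 5 ↪ Fin m) (i : Fin s) : Finset (Fin m) :=
  (Finset.univ : Finset (Fin 5)).image fun p => b (i, p)

theorem mem_blkSet {s : ℕ} {b : Fin s × Fin 5 ↪ Fin m} {i : Fin s} {x : Fin m} :
    x ∈ blkSet b i ↔ ∃ p, b (i, p) = x := by simp [blkSet]

/-- Every even permutation of a block comes from the alternating group of degree five. -/
theorem exists_single {s : ℕ} (b : Fin s × Fin 5 ↪ Fin m) (i : Fin s)
    (g : alternatingGroup (Fin m)) (hg : g ∈ altOn (blkSet b i)) :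
    ∃ x : alternatingGroup (Fin 5), eblk b (Pi.mulSingle i x) = g := by
  classical
  rw [mem_altOn] at hg
  have h1 : ∀ p : Fin 5, ∃ q : Fin 5, b (i, q) = (g : Equiv.Perm (Fin m)) (b (i, p)) := by
    intro p
    by_contra h
    have h2 : (g : Equiv.Perm (Fin m)) (b (i, p)) ∉ blkSet b i := fun h' => h (mem_blkSet.1 h')
    have h3 := (g : Equiv.Perm (Fin m)).injective (hg _ h2)
    exact h ⟨p, h3.symm⟩
  choose x0 hx0 using h1
  have hinj : Function.Injective x0 := by
    intro p q hpq
    have h2 : (g : Equiv.Perm (Fin m)) (b (i, p)) = (g : Equiv.Perm (Fin m)) (b (i, q)) := by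
      rw [← hx0, ← hx0, hpq]
    have h3 := b.injective ((g : Equiv.Perm (Fin m)).injective h2)
    simpa using h3
  let x : Equiv.Perm (Fin 5) := Equiv.ofBijective x0 (Finite.injective_iff_bijective.1 hinj)
  have hf : Function.Injective fun p : Fin 5 => b (i, p) := by
    intro p q hpq
    simpa using b.injective hpq
  have hgx : (g : Equiv.Perm (Fin m)) = Equiv.Perm.extendDomain x (Equiv.ofInjective _ hf) := by
    ext y : 1
    by_cases hy : ∃ p, b (i, p) = y
    · obtain ⟨p, rfl⟩ := hy
      have h4 : Equiv.Perm.extendDomain x (Equiv.ofInjective _ hf) (b (i, p)) = b (i, x p) :=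
        Equiv.Perm.extendDomain_apply_image x (Equiv.ofInjective _ hf) p
      rw [h4]
      exact (hx0 p).symm
    · rw [Equiv.Perm.extendDomain_apply_not_subtype x (Equiv.ofInjective _ hf) (by
        rintro ⟨p, hp⟩
        exact hy ⟨p, hp⟩)]
      exact hg y fun h' => hy (mem_blkSet.1 h')
  have hsign : Equiv.Perm.sign x = 1 := by
    have h5 : Equiv.Perm.sign (g : Equiv.Perm (Fin m)) = 1 := g.2
    rw [hgx, Equiv.Perm.sign_extendDomain] at h5
    exact h5
  refine ⟨⟨x, hsign⟩, Subtype.ext (Equiv.ext fun y => ?_)⟩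
  by_cases hy : y ∈ Set.range b
  · obtain ⟨⟨j, p⟩, rfl⟩ := hy
    rw [eblk_apply]
    by_cases hj : j = i
    · subst hj
      rw [Pi.mulSingle_eq_same]
      exact hx0 p
    · rw [Pi.mulSingle_eq_of_ne hj]
      refine (hg _ fun h' => ?_).symm
      obtain ⟨q, hq⟩ := mem_blkSet.1 h'
      have h6 := b.injective hq
      exact hj (congrArg Prod.fst h6).symm
  · rw [eblk_apply_of_not b _ y hy]
    refine (hg _ fun h' => hy ?_).symm
    obtain ⟨q, hq⟩ := mem_blkSet.1 h'
    exact ⟨(i, q), hq⟩

/-- The index of the inverse image of a subgroup is at most the index of the subgroup. -/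
theorem index_comap_le' {G G' : Type*} [Group G] [Group G'] [Finite G] (f : G' →* G)
    (H : Subgroup G) : (H.comap f).index ≤ H.index := by
  have hinj : Function.Injective
      (fun q : G' ⧸ H.comap f => (QuotientGroup.mk (f q.out) : G ⧸ H)) := by
    intro q r hqr
    have h1 : (QuotientGroup.mk (f q.out) : G ⧸ H) = QuotientGroup.mk (f r.out) := hqr
    rw [← Quotient.out_eq q, ← Quotient.out_eq r]
    change (QuotientGroup.mk q.out : G' ⧸ H.comap f) = QuotientGroup.mk r.out
    rw [QuotientGroup.eq] at h1 ⊢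
    rw [Subgroup.mem_comap, map_mul, map_inv]
    exact h1
  exact Nat.card_le_card_of_injective _ hinj

/-- Disjoint bad blocks make the index large. -/
theorem pow_le_index (K : Subgroup (alternatingGroup (Fin m))) {s : ℕ}
    (b : Fin s × Fin 5 ↪ Fin m) (hb : ∀ i, ¬ altOn (blkSet b i) ≤ K) : 5 ^ s ≤ K.index := by
  have h1 := Pool.Agent.PSY.support5_le (K.comap (eblk b)) Finset.univ (fun i _ => by
    by_contra h
    push Not at h
    refine hb i fun g hg => ?_
    obtain ⟨x, hx⟩ := exists_single b i g hg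
    have := h x
    rw [Subgroup.mem_comap, hx] at this
    exact this)
  rw [Finset.card_univ, Fintype.card_fin] at h1
  exact h1.trans (index_comap_le' _ K)

/-- A subgroup of index at most `N` of `A_m` contains the alternating group of all but
`5 log_5 N` points. -/
theorem exists_W {N : ℕ} (K : Subgroup (alternatingGroup (Fin m))) (hidx : K.index ≤ N)
    (hm : 5 * Nat.log 5 N + 5 ≤ m) :
    ∃ W : Finset (Fin m), Wᶜ.card ≤ 5 * Nat.log 5 N ∧ altOn W ≤ K := by
  classical
  have hN : N ≠ 0 := by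
    have h1 := Subgroup.index_ne_zero_of_finite (H := K)
    omega
  have hex : ∃ s, ∃ b : Fin s × Fin 5 ↪ Fin m, ∀ i, ¬ altOn (blkSet b i) ≤ K :=
    ⟨0, ⟨fun x => x.1.elim0, fun x => x.1.elim0⟩, fun i => i.elim0⟩
  have hbd : ∀ s, (∃ b : Fin s × Fin 5 ↪ Fin m, ∀ i, ¬ altOn (blkSet b i) ≤ K) →
      s ≤ Nat.log 5 N := by
    rintro s ⟨b, hb⟩
    have h1 := (pow_le_index K b hb).trans hidx
    exact Nat.le_log_of_pow_le (by norm_num) h1
  obtain ⟨s, ⟨b, hb⟩, hmax⟩ : ∃ s, (∃ b : Fin s × Fin 5 ↪ Fin m,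
      ∀ i, ¬ altOn (blkSet b i) ≤ K) ∧ ∀ s', (∃ b : Fin s' × Fin 5 ↪ Fin m,
      ∀ i, ¬ altOn (blkSet b i) ≤ K) → s' ≤ s := by
    refine ⟨Nat.findGreatest (fun s => ∃ b : Fin s × Fin 5 ↪ Fin m,
      ∀ i, ¬ altOn (blkSet b i) ≤ K) (Nat.log 5 N), ?_, ?_⟩
    · obtain ⟨s, hs⟩ := hex
      exact Nat.findGreatest_spec (P := fun s => ∃ b : Fin s × Fin 5 ↪ Fin m,
        ∀ i, ¬ altOn (blkSet b i) ≤ K) (hbd s hs) hs
    · intro s' hs'
      exact Nat.le_findGreatest (hbd s' hs') hs'
  have hs := hbd s ⟨b, hb⟩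
  let R : Finset (Fin m) := (Finset.univ : Finset (Fin s × Fin 5)).map b
  have hR : R.card = 5 * s := by
    rw [Finset.card_map, Finset.card_univ, Fintype.card_prod, Fintype.card_fin, Fintype.card_fin,
      mul_comm]
  refine ⟨Rᶜ, by rw [compl_compl, hR]; omega, ?_⟩
  refine altOn_of_five K _ ?_ ?_
  · rw [Finset.card_compl, hR, Fintype.card_fin]
    omega
  · intro Y hY hYc
    by_contra hbad
    have hYR : ∀ p, Y.orderEmbOfFin hYc p ∉ Set.range b := by
      rintro p ⟨x, hx⟩
      have h1 := hY (Finset.orderEmbOfFin_mem Y hYc p)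
      rw [Finset.mem_compl] at h1
      refine h1 ?_
      rw [← hx]
      exact Finset.mem_map_of_mem b (Finset.mem_univ x)
    let F : Fin (s + 1) → Fin 5 → Fin m :=
      Fin.snoc (α := fun _ => Fin 5 → Fin m) (fun i p => b (i, p)) (Y.orderEmbOfFin hYc)
    have hF1 : ∀ i : Fin s, ∀ p, F i.castSucc p = b (i, p) := by
      intro i p
      simp only [F, Fin.snoc_castSucc]
    have hF2 : ∀ p, F (Fin.last s) p = Y.orderEmbOfFin hYc p := by
      intro p
      simp only [F, Fin.snoc_last]
    have hinj : Function.Injective fun x : Fin (s + 1) × Fin 5 => F x.1 x.2 := by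
      rintro ⟨i, p⟩ ⟨j, q⟩ h
      change F i p = F j q at h
      induction i using Fin.lastCases with
      | last =>
        induction j using Fin.lastCases with
        | last =>
          rw [hF2, hF2] at h
          rw [(Y.orderEmbOfFin hYc).injective h]
        | cast j =>
          rw [hF2, hF1] at h
          exact absurd ⟨(j, q), h.symm⟩ (hYR p)
      | cast i =>
        induction j using Fin.lastCases with
        | last =>
          rw [hF2, hF1] at h
          exact absurd ⟨(i, p), h⟩ (hYR q)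
        | cast j =>
          rw [hF1, hF1] at h
          have h2 := b.injective h
          rw [Prod.mk.injEq] at h2
          rw [h2.1, h2.2]
    have h3 := hmax (s + 1) ⟨⟨_, hinj⟩, fun i => by
      induction i using Fin.lastCases with
      | last =>
        have h4 : blkSet ⟨fun x : Fin (s + 1) × Fin 5 => F x.1 x.2, hinj⟩ (Fin.last s) = Y := by
          ext x
          rw [mem_blkSet, ← Finset.mem_coe, ← Finset.range_orderEmbOfFin Y hYc]
          simp only [Function.Embedding.coeFn_mk, hF2, Set.mem_range]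
        rw [h4]
        exact hbad
      | cast i =>
        have h4 : blkSet ⟨fun x : Fin (s + 1) × Fin 5 => F x.1 x.2, hinj⟩ i.castSucc =
            blkSet b i := by
          ext x
          rw [mem_blkSet, mem_blkSet]
          simp only [Function.Embedding.coeFn_mk, hF1]
        rw [h4]
        exact hb i⟩
    omega

end Pool.Agent.PSX.AltR

namespace Pool.Agent.PSX

open AltR

/-- **Small index.** A proper subgroup `K` of index at most `N` of `A_m` contains the alternating
group of the complement of a nonempty set `R` of at most `5 log_5 N` points, and is maximal so. -/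
theorem exists_R {m N : ℕ} (K : Subgroup (alternatingGroup (Fin m))) (hK : K ≠ ⊤)
    (hidx : K.index ≤ N) (hm : 5 * Nat.log 5 N + 10 ≤ m) :
    ∃ R : Finset (Fin m), R.Nonempty ∧ R.card ≤ 5 * Nat.log 5 N ∧ altOn Rᶜ ≤ K ∧
      ∀ x ∈ R, ∀ P : Finset (Fin m), P ⊆ Rᶜ → P.card = 4 → ¬ altOn (insert x P) ≤ K := by
  classical
  obtain ⟨W, hW1, hW2⟩ := exists_W K hidx (by omega)
  obtain ⟨D, h1, -, h3, h4⟩ := exists_max K W Finset.univ hW2 (Finset.subset_univ W)
  refine ⟨Dᶜ, ?_, ?_, ?_, ?_⟩
  · rw [Finset.nonempty_iff_ne_empty]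
    intro h
    rw [Finset.compl_eq_empty_iff] at h
    refine hK (top_le_iff.1 fun g _ => h3 (mem_altOn.2 fun x hx => absurd ?_ hx))
    rw [h]
    exact Finset.mem_univ x
  · exact (Finset.card_le_card (Finset.compl_subset_compl.2 h1)).trans hW1
  · rw [compl_compl]
    exact h3
  · intro x hx P hP hPc
    rw [compl_compl] at hP
    exact h4 x (Finset.mem_univ x) (Finset.mem_compl.1 hx) P hP hPc

end Pool.Agent.PSX
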