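import Pool.Agent.PSX.Act
import Pool.Agent.PSX.AltR
import Pool.Agent.PSY.FracN

set_option autoImplicit false

/-!
# Blocks on which an alternating group induces all even patterns, with few points
-/

namespace Pool.Agent.PSX

open Pool.Agent.PSY

/-- As `blocks_of_set`, where the translates of `R` share all points except one. -/
theorem blocks_of_set1 {m t : ℕ} {V : Type} (θ : alternatingGroup (Fin m) →* Equiv.Perm V) (v : V)
    (R : Finset (Fin m)) (x₀ : Fin m) (hx₀ : x₀ ∈ R)
    (hR1 : ∀ h : alternatingGroup (Fin m), (∀ z ∈ R, (h : Equiv.Perm (Fin m)) z = z) → θ h v = v)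
    (hR2 : ∀ (P : Finset (Fin m)), (∀ z ∈ P, z ∉ R) → P.card = 4 →
      ∀ k : alternatingGroup (Fin m), (∀ z, z ∉ insert x₀ P → (k : Equiv.Perm (Fin m)) z = z) →
        θ k v = v → (k : Equiv.Perm (Fin m)) x₀ = x₀)
    (hm : R.card + 5 * t ≤ m) :
    ∃ b : Fin t × Fin 5 ↪ V, ∀ a : Fin t → A5, ∃ h : alternatingGroup (Fin m),
      ∀ i p, θ h (b (i, p)) = b (i, (a i : Equiv.Perm (Fin 5)) p) := by
  classical
  -- the places
  obtain ⟨c⟩ : Nonempty ((Fin t × Fin 5) ↪ (Rᶜ : Finset (Fin m))) := by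
    apply Function.Embedding.nonempty_of_card_le
    rw [Fintype.card_prod, Fintype.card_fin, Fintype.card_fin, Fintype.card_coe,
      Finset.card_compl, Fintype.card_fin]
    omega
  let y : Fin t × Fin 5 ↪ Fin m := c.trans (Function.Embedding.subtype _)
  have hyR : ∀ q, y q ∉ R := fun q => by
    have h := (c q).2
    rw [Finset.mem_compl] at h
    exact h
  have hxy : ∀ q, x₀ ≠ y q := fun q h => hyR q (h ▸ hx₀)
  have hy01 : ∀ i, y (i, 0) ≠ y (i, 1) := fun i h => by
    have h1 := y.injective h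
    rw [Prod.mk.injEq] at h1
    exact absurd h1.2 (by decide)
  have hy02 : ∀ i, y (i, 0) ≠ y (i, 2) := fun i h => by
    have h1 := y.injective h
    rw [Prod.mk.injEq] at h1
    exact absurd h1.2 (by decide)
  have hy12 : ∀ i, y (i, 1) ≠ y (i, 2) := fun i h => by
    have h1 := y.injective h
    rw [Prod.mk.injEq] at h1
    exact absurd h1.2 (by decide)
  -- the even permutations which move the point of `R`
  let g : Fin t → alternatingGroup (Fin m) := fun i =>
    ⟨Equiv.swap x₀ (y (i, 0)) * Equiv.swap (y (i, 1)) (y (i, 2)), by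
      rw [Equiv.Perm.mem_alternatingGroup, Equiv.Perm.sign_mul, Equiv.Perm.sign_swap (hxy _),
        Equiv.Perm.sign_swap (hy12 i)]
      rfl⟩
  have hgx : ∀ i, (g i : Equiv.Perm (Fin m)) x₀ = y (i, 0) := by
    intro i
    change Equiv.swap x₀ (y (i, 0)) (Equiv.swap (y (i, 1)) (y (i, 2)) x₀) = y (i, 0)
    rw [Equiv.swap_apply_of_ne_of_ne (hxy _) (hxy _), Equiv.swap_apply_left]
  have hgR : ∀ i, ∀ z ∈ R, z ≠ x₀ → (g i : Equiv.Perm (Fin m)) z = z := by
    intro i z hz hzx
    have hzy : ∀ q, z ≠ y q := fun q h => hyR q (h ▸ hz)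
    change Equiv.swap x₀ (y (i, 0)) (Equiv.swap (y (i, 1)) (y (i, 2)) z) = z
    rw [Equiv.swap_apply_of_ne_of_ne (hzy _) (hzy _), Equiv.swap_apply_of_ne_of_ne hzx (hzy _)]
  have hα : ∀ p : Fin 5, ∃ a : A5, (a : Equiv.Perm (Fin 5)) 0 = p := by
    intro p
    obtain ⟨e, -, he⟩ := exists_move (Finset.univ : Finset (Fin 5)) (by simp) 0 p
      (Finset.mem_univ _) (Finset.mem_univ _)
    exact ⟨e, he⟩
  choose α hα using hα
  -- the base points
  let w : Fin t → V := fun i => θ (g i) v
  have hmul : ∀ (h h' : alternatingGroup (Fin m)) (x : V), θ h (θ h' x) = θ (h * h') x := by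
    intro h h' x
    rw [map_mul]; rfl
  have hF1 : ∀ (i : Fin t) (h : alternatingGroup (Fin m)),
      (h : Equiv.Perm (Fin m)) (y (i, 0)) = y (i, 0) →
      (∀ z ∈ R, z ≠ x₀ → (h : Equiv.Perm (Fin m)) z = z) → θ h (w i) = w i := by
    intro i h hh0 hh
    have h1 : θ ((g i)⁻¹ * h * g i) v = v := by
      refine hR1 _ fun z hz => ?_
      change ((g i : Equiv.Perm (Fin m)))⁻¹ ((h : Equiv.Perm (Fin m)) ((g i : Equiv.Perm (Fin m)) z)) = z
      rw [Equiv.Perm.inv_eq_iff_eq]
      by_cases hzx : z = x₀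
      · rw [hzx, hgx, hh0]
      · rw [hgR i z hz hzx, hh z hz hzx]
    change θ h (θ (g i) v) = θ (g i) v
    have h4 : θ (g i) (θ ((g i)⁻¹ * h * g i) v) = θ h (θ (g i) v) := by
      rw [hmul, hmul]
      congr 2
      group
    rw [← h4, h1]
  have hF2 : ∀ (i : Fin t) (a : Fin t → A5), (a i : Equiv.Perm (Fin 5)) 0 = 0 →
      θ (blkA y a) (w i) = w i := by
    intro i a ha
    refine hF1 i _ ?_ fun z hz hzx => ?_
    · rw [blkA_coe, blk_apply, ha]
    · rw [blkA_coe]
      refine blk_apply_of_not y a _ ?_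
      rintro ⟨q, hq⟩
      exact hyR q (hq ▸ hz)
  let bf : Fin t × Fin 5 → V := fun q => θ (blkA y (Pi.mulSingle q.1 (α q.2))) (w q.1)
  have hbf : ∀ i p, bf (i, p) = θ (blkA y (Pi.mulSingle i (α p))) (w i) := fun i p => rfl
  have hact : ∀ (a : Fin t → A5) (i : Fin t) (p : Fin 5),
      θ (blkA y a) (bf (i, p)) = bf (i, (a i : Equiv.Perm (Fin 5)) p) := by
    intro a i p
    rw [hbf, hbf, hmul, ← map_mul]
    set s : Fin t → A5 := Pi.mulSingle i (α ((a i : Equiv.Perm (Fin 5)) p)) with hs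
    have h1 : a * Pi.mulSingle i (α p) = s * (s⁻¹ * (a * Pi.mulSingle i (α p))) := by group
    rw [h1, map_mul, ← hmul]
    congr 1
    apply hF2
    have h2 : (s⁻¹ * (a * Pi.mulSingle i (α p)) : Fin t → A5) i =
        (α ((a i : Equiv.Perm (Fin 5)) p))⁻¹ * (a i * α p) := by
      rw [Pi.mul_apply, Pi.mul_apply, Pi.inv_apply, hs, Pi.mulSingle_eq_same,
        Pi.mulSingle_eq_same]
    rw [h2]
    change ((α ((a i : Equiv.Perm (Fin 5)) p) : A5) : Equiv.Perm (Fin 5))⁻¹
      ((a i : Equiv.Perm (Fin 5)) ((α p : Equiv.Perm (Fin 5)) 0)) = 0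
    rw [Equiv.Perm.inv_eq_iff_eq, hα, hα]
  have hsame : ∀ (i : Fin t) (p q : Fin 5), bf (i, p) = bf (i, q) → p = q := by
    intro i p q h
    set β : A5 := (α q)⁻¹ * α p with hβ
    have h1 : θ (blkA y (Pi.mulSingle i β)) (w i) = w i := by
      have h2 : blkA y (Pi.mulSingle i β) =
          (blkA y (Pi.mulSingle i (α q)))⁻¹ * blkA y (Pi.mulSingle i (α p)) := by
        rw [← map_inv, ← map_mul]
        congr 1
        rw [← Pi.mulSingle_inv, ← Pi.mulSingle_mul]
      rw [h2, ← hmul]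
      rw [hbf, hbf] at h
      rw [h, hmul, inv_mul_cancel, map_one]
      rfl
    let P : Finset (Fin m) := Finset.univ.image fun k : Fin 4 =>
      ((g i : Equiv.Perm (Fin m)))⁻¹ (y (i, k.succ))
    have hP1 : ∀ z ∈ P, z ∉ R := by
      intro z hz hzR
      obtain ⟨k, -, hk⟩ := Finset.mem_image.mp hz
      rw [Equiv.Perm.inv_eq_iff_eq] at hk
      by_cases hzx : z = x₀
      · rw [hzx, hgx] at hk
        have h4 := y.injective hk
        rw [Prod.mk.injEq] at h4
        exact Fin.succ_ne_zero k h4.2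
      · rw [hgR i z hzR hzx] at hk
        exact hyR (i, k.succ) (hk ▸ hzR)
    have hP2 : P.card = 4 := by
      rw [Finset.card_image_of_injective, Finset.card_univ, Fintype.card_fin]
      intro k k' h5
      have h6 := y.injective ((((g i : Equiv.Perm (Fin m)))⁻¹).injective h5)
      rw [Prod.mk.injEq] at h6
      exact Fin.succ_injective _ h6.2
    have h3 := hR2 P hP1 hP2 ((g i)⁻¹ * blkA y (Pi.mulSingle i β) * g i) ?_ ?_
    · change ((g i : Equiv.Perm (Fin m)))⁻¹ (blk y (Pi.mulSingle i β)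
        ((g i : Equiv.Perm (Fin m)) x₀)) = x₀ at h3
      rw [Equiv.Perm.inv_eq_iff_eq] at h3
      have h4 : (g i : Equiv.Perm (Fin m)) x₀ = y (i, 0) := hgx i
      rw [h4, blk_apply, Pi.mulSingle_eq_same] at h3
      have h5 := y.injective h3
      rw [Prod.mk.injEq] at h5
      have h6 := h5.2
      change ((α q : A5) : Equiv.Perm (Fin 5))⁻¹ ((α p : Equiv.Perm (Fin 5)) 0) = 0 at h6
      rw [Equiv.Perm.inv_eq_iff_eq, hα, hα] at h6
      exact h6
    · intro z hz
      rw [Finset.mem_insert, not_or] at hz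
      change ((g i : Equiv.Perm (Fin m)))⁻¹ (blk y (Pi.mulSingle i β)
        ((g i : Equiv.Perm (Fin m)) z)) = z
      rw [Equiv.Perm.inv_eq_iff_eq]
      by_cases hr : (g i : Equiv.Perm (Fin m)) z ∈ Set.range y
      · obtain ⟨⟨j, p'⟩, hjp⟩ := hr
        rw [← hjp, blk_apply]
        by_cases hji : j = i
        · exfalso
          rw [hji] at hjp
          induction p' using Fin.cases with
          | zero =>
            have h7 := hgx i
            rw [hjp] at h7
            exact hz.1 (((g i : Equiv.Perm (Fin m))).injective h7).symm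
          | succ k =>
            refine hz.2 (Finset.mem_image.mpr ⟨k, Finset.mem_univ _, ?_⟩)
            rw [Equiv.Perm.inv_eq_iff_eq]
            exact hjp
        · rw [Pi.mulSingle_eq_of_ne hji]
          rfl
      · exact blk_apply_of_not y _ _ hr
    · rw [map_mul, map_mul]
      change θ (g i)⁻¹ (θ (blkA y (Pi.mulSingle i β)) (w i)) = v
      rw [h1, hmul, inv_mul_cancel, map_one]
      rfl
  have hinj : Function.Injective bf := by
    rintro ⟨i, p⟩ ⟨j, q⟩ h
    by_cases hij : i = j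
    · subst hij
      rw [hsame i p q h]
    · exfalso
      obtain ⟨a', -, ha'⟩ := exists_move (Finset.univ : Finset (Fin 5)) (by simp) p (p + 1)
        (Finset.mem_univ _) (Finset.mem_univ _)
      have h1 := hact (Pi.mulSingle i a') i p
      have h2 := hact (Pi.mulSingle i a') j q
      rw [Pi.mulSingle_eq_same] at h1
      rw [Pi.mulSingle_eq_of_ne (Ne.symm hij)] at h2
      have h3 : bf (i, (a' : Equiv.Perm (Fin 5)) p) = bf (i, p) := by
        rw [← h1, h, h2]; rfl
      have h4 := hsame i _ _ h3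
      rw [ha'] at h4
      have h5 : ∀ p : Fin 5, p + 1 ≠ p := by decide
      exact h5 p h4
  exact ⟨⟨bf, hinj⟩, fun a => ⟨blkA y a, fun i p => hact a i p⟩⟩

/-- **Blocks of an action.** If the alternating group of degree `m` acts nontrivially on at most
`N` points and `5 log_5 N + 5 t ≤ m`, there are `t` disjoint five-element sets of points on which
it induces all `60 ^ t` even patterns. -/
theorem blocks_of_action1 {m N t : ℕ} {V : Type} [Fintype V] (hV : Fintype.card V ≤ N)
    (θ : alternatingGroup (Fin m) →* Equiv.Perm V) (hnt : ∃ h v, θ h v ≠ v)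
    (hm : 5 * Nat.log 5 N + 5 * t ≤ m) (hm2 : 5 * Nat.log 5 N + 10 ≤ m) :
    ∃ b : Fin t × Fin 5 ↪ V, ∀ a : Fin t → A5, ∃ h : alternatingGroup (Fin m),
      ∀ i p, θ h (b (i, p)) = b (i, (a i : Equiv.Perm (Fin 5)) p) := by
  classical
  obtain ⟨h₀, v, hv⟩ := hnt
  obtain ⟨K, hKdef⟩ : ∃ K : Subgroup (alternatingGroup (Fin m)),
      K = (MulAction.stabilizer (Equiv.Perm V) v).comap θ := ⟨_, rfl⟩
  have hmem : ∀ h, h ∈ K ↔ θ h v = v := fun h => by
    rw [hKdef, Subgroup.mem_comap, MulAction.mem_stabilizer_iff]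
    rfl
  have hK : K ≠ ⊤ := by
    intro h
    have h1 : h₀ ∈ K := by rw [h]; exact Subgroup.mem_top _
    exact hv ((hmem h₀).1 h1)
  have hidx : K.index ≤ N := by
    refine le_trans ?_ hV
    have h1 : (MulAction.stabilizer (Equiv.Perm V) v).index ≤ Fintype.card V := by
      rw [MulAction.index_stabilizer, ← Nat.card_eq_fintype_card]
      exact Set.ncard_le_card _
    have h2 : K.index ≤ (MulAction.stabilizer (Equiv.Perm V) v).index := by
      rw [hKdef]
      exact index_comap_le θ _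
    exact h2.trans h1
  obtain ⟨R, ⟨x₀, hx₀⟩, hRc, hRK, hbad⟩ := exists_R K hK hidx hm2
  refine blocks_of_set1 θ v R x₀ hx₀ (fun h hh => ?_) (fun P hPR hPc k hk hkv => ?_) (by omega)
  · refine (hmem h).1 (hRK ?_)
    intro z hz
    exact hh z (by simpa using hz)
  · by_contra hkx
    refine hbad x₀ hx₀ P (fun z hz => Finset.mem_compl.2 (hPR z hz)) hPc ?_
    intro h hh
    exact extend K P (by omega) x₀ (fun e he => hRK fun z hz =>
      he z fun hzP => hz (Finset.mem_compl.2 (hPR z hzP))) k ((hmem k).2 hkv) hk hkx h hh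

end Pool.Agent.PSX
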