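import Pool.Agent.PSX.Act
import Pool.Agent.PSX.AltR
import Pool.Agent.PSY.FracN

set_option autoImplicit false

/-!
# Blocks on which an acting alternating group induces all even patterns
-/

namespace Pool.Agent.PSX

open Pool.Agent.PSY

/-- **Blocks.** If `A_m` acts nontrivially on a set of at most `N` points and `m` is at least
`t (5 log_5 N + 4) + 10`, then there are `t` disjoint five-element sets such that every family of
even permutations of them is induced by an element of `A_m`. -/
theorem blocks_of_action {m N t : ℕ} {V : Type} [Fintype V] (hV : Fintype.card V ≤ N)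
    (θ : alternatingGroup (Fin m) →* Equiv.Perm V) (hnt : ∃ h v, θ h v ≠ v)
    (hm : t * (5 * Nat.log 5 N + 4) + 10 ≤ m) :
    ∃ b : Fin t × Fin 5 ↪ V, ∀ a : Fin t → alternatingGroup (Fin 5),
      ∃ h, ∀ i p, θ h (b (i, p)) = b (i, (a i : Equiv.Perm (Fin 5)) p) := by
  classical
  rcases Nat.eq_zero_or_pos t with ht | ht
  · subst ht
    exact ⟨⟨fun q => q.1.elim0, fun q => q.1.elim0⟩, fun a => ⟨1, fun i => i.elim0⟩⟩
  obtain ⟨h₀, v, hv⟩ := hnt
  let K : Subgroup (alternatingGroup (Fin m)) := (MulAction.stabilizer (Equiv.Perm V) v).comap θ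
  have hmem : ∀ h, h ∈ K ↔ θ h v = v := fun h => Iff.rfl
  have hK : K ≠ ⊤ := by
    intro h
    exact hv ((hmem h₀).mp (h ▸ Subgroup.mem_top h₀))
  have hidx : K.index ≤ N := by
    refine (index_comap_le θ _).trans ?_
    rw [MulAction.index_stabilizer]
    refine (Set.ncard_le_ncard (Set.subset_univ _) Set.finite_univ).trans ?_
    rw [Set.ncard_univ, Nat.card_eq_fintype_card]
    exact hV
  have h1 : 5 * Nat.log 5 N + 4 ≤ t * (5 * Nat.log 5 N + 4) := Nat.le_mul_of_pos_left _ ht
  obtain ⟨R, ⟨x₀, hx₀⟩, hR, hR1, hR2⟩ := exists_R K hK hidx (by omega)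
  have hRc : ∀ h : alternatingGroup (Fin m), (∀ z ∈ R, (h : Equiv.Perm (Fin m)) z = z) →
      h ∈ K := by
    intro h hh
    refine hR1 ?_
    intro z hz
    rw [Finset.mem_compl, not_not] at hz
    exact hh z hz
  have h2 : t * (R.card + 4) ≤ t * (5 * Nat.log 5 N + 4) := Nat.mul_le_mul_left _ (by omega)
  refine blocks_of_set θ v R x₀ hx₀ (fun h hh => (hmem h).mp (hRc h hh)) ?_ (by omega) (by omega)
  intro P hP1 hP2 k hk1 hk2
  by_contra hk3
  refine hR2 x₀ hx₀ P ?_ hP2 ?_
  · intro z hz
    rw [Finset.mem_compl]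
    exact hP1 z hz
  · intro h hh
    refine extend K P (by omega) x₀ ?_ k ((hmem k).mpr hk2) hk1 hk3 h hh
    intro h' hh'
    exact hRc h' fun z hz => hh' z fun hzP => hP1 z hzP hz

end Pool.Agent.PSX
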