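import Pool.Agent.PSX.Act
import Pool.Agent.PSX.AltR
import Pool.Agent.PSY.FracN

set_option autoImplicit false

/-!
# Blocks on which an acting alternating group induces all even patterns: the tight form
-/

namespace Pool.Agent.PSX

open Pool.Agent.PSY

/-- The points `b (i, p)` of the blocks: the blocks of points share all of `R` but `x₀`. -/
theorem blocks_tight {m t : ℕ} {V : Type} (θ : alternatingGroup (Fin m) →* Equiv.Perm V) (v : V)
    (R : Finset (Fin m)) (x₀ : Fin m) (hx₀ : x₀ ∈ R)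
    (hR1 : ∀ h : alternatingGroup (Fin m), (∀ z ∈ R, (h : Equiv.Perm (Fin m)) z = z) → θ h v = v)
    (hR2 : ∀ (P : Finset (Fin m)), (∀ z ∈ P, z ∉ R) → P.card = 4 →
      ∀ k : alternatingGroup (Fin m), (∀ z, z ∉ insert x₀ P → (k : Equiv.Perm (Fin m)) z = z) →
        θ k v = v → (k : Equiv.Perm (Fin m)) x₀ = x₀)
    (hm : R.card + 5 * t ≤ m + 1) (hm2 : R.card + 2 ≤ m) :
    ∃ b : Fin t × Fin 5 ↪ V, ∀ a : Fin t → A5, ∃ h : alternatingGroup (Fin m),
      ∀ i p, θ h (b (i, p)) = b (i, (a i : Equiv.Perm (Fin 5)) p) := by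
  classical
  have hcard : ((R.erase x₀)ᶜ : Finset (Fin m)).card = m + 1 - R.card := by
    have h1 : 0 < R.card := Finset.card_pos.mpr ⟨x₀, hx₀⟩
    rw [Finset.card_compl, Finset.card_erase_of_mem hx₀, Fintype.card_fin]
    omega
  -- the places
  obtain ⟨y0⟩ : Nonempty (Fin t × Fin 5 ↪ {z : Fin m // z ∈ (R.erase x₀)ᶜ}) := by
    apply Function.Embedding.nonempty_of_card_le
    rw [Fintype.card_prod, Fintype.card_fin, Fintype.card_fin, Fintype.card_coe, hcard]
    omega
  let y : Fin t × Fin 5 ↪ Fin m := y0.trans (Function.Embedding.subtype _)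
  have hyR : ∀ q, y q ∉ R.erase x₀ := fun q => Finset.mem_compl.mp (y0 q).2
  -- the even permutations which move `x₀` to its places
  have hg : ∀ i : Fin t, ∃ g : alternatingGroup (Fin m),
      (∀ z ∈ R.erase x₀, (g : Equiv.Perm (Fin m)) z = z) ∧
      (g : Equiv.Perm (Fin m)) x₀ = y (i, 0) := by
    intro i
    obtain ⟨e, he1, he2⟩ := exists_move ((R.erase x₀)ᶜ : Finset (Fin m)) (by omega) x₀ (y (i, 0))
      (Finset.mem_compl.mpr (Finset.notMem_erase x₀ R)) (Finset.mem_compl.mpr (hyR _))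
    exact ⟨e, fun z hz => he1 z fun h => Finset.mem_compl.mp h hz, he2⟩
  choose g hgR hg0 using hg
  have hα : ∀ p : Fin 5, ∃ a : A5, (a : Equiv.Perm (Fin 5)) 0 = p := by
    intro p
    obtain ⟨e, -, he⟩ := exists_move (Finset.univ : Finset (Fin 5)) (by simp) 0 p
      (Finset.mem_univ _) (Finset.mem_univ _)
    exact ⟨e, he⟩
  choose α hα using hα
  -- the base points
  let w : Fin t → V := fun i => θ (g i) v
  have hmul : ∀ (h h' : alternatingGroup (Fin m)) (x : V), θ h (θ h' x) = θ (h * h') x := by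
    intro h h' x
    rw [map_mul]; rfl
  have hF1 : ∀ (i : Fin t) (h : alternatingGroup (Fin m)),
      (∀ z ∈ R.erase x₀, (h : Equiv.Perm (Fin m)) z = z) →
      (h : Equiv.Perm (Fin m)) (y (i, 0)) = y (i, 0) → θ h (w i) = w i := by
    intro i h hh hh0
    have h1 : θ ((g i)⁻¹ * h * g i) v = v := by
      refine hR1 _ fun z hz => ?_
      change ((g i : Equiv.Perm (Fin m)))⁻¹ ((h : Equiv.Perm (Fin m)) ((g i : Equiv.Perm (Fin m)) z)) = z
      rw [Equiv.Perm.inv_eq_iff_eq]
      by_cases hzx : z = x₀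
      · rw [hzx, hg0, hh0]
      · have h2 : z ∈ R.erase x₀ := Finset.mem_erase.mpr ⟨hzx, hz⟩
        rw [hgR i z h2, hh z h2]
    change θ h (θ (g i) v) = θ (g i) v
    have h4 : θ (g i) (θ ((g i)⁻¹ * h * g i) v) = θ h (θ (g i) v) := by
      rw [hmul, hmul]
      congr 2
      group
    rw [← h4, h1]
  have hF2 : ∀ (i : Fin t) (a : Fin t → A5), (a i : Equiv.Perm (Fin 5)) 0 = 0 →
      θ (blkA y a) (w i) = w i := by
    intro i a ha
    refine hF1 i _ (fun z hz => ?_) ?_
    · rw [blkA_coe]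
      refine blk_apply_of_not y a _ ?_
      rintro ⟨r, hr⟩
      exact hyR r (hr ▸ hz)
    · rw [blkA_coe, blk_apply, ha]
  let bf : Fin t × Fin 5 → V := fun q => θ (blkA y (Pi.mulSingle q.1 (α q.2))) (w q.1)
  have hbf : ∀ i p, bf (i, p) = θ (blkA y (Pi.mulSingle i (α p))) (w i) := fun i p => rfl
  have hact : ∀ (a : Fin t → A5) (i : Fin t) (p : Fin 5),
      θ (blkA y a) (bf (i, p)) = bf (i, (a i : Equiv.Perm (Fin 5)) p) := by
    intro a i p
    rw [hbf, hbf, hmul, ← map_mul]
    set s : Fin t → A5 := Pi.mulSingle i (α ((a i : Equiv.Perm (Fin 5)) p)) with hs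
    have h1 : a * Pi.mulSingle i (α p) = s * (s⁻¹ * (a * Pi.mulSingle i (α p))) := by group
    rw [h1, map_mul, ← hmul]
    congr 1
    apply hF2
    have h2 : (s⁻¹ * (a * Pi.mulSingle i (α p)) : Fin t → A5) i =
        (α ((a i : Equiv.Perm (Fin 5)) p))⁻¹ * (a i * α p) := by
      rw [Pi.mul_apply, Pi.mul_apply, Pi.inv_apply, hs, Pi.mulSingle_eq_same,
        Pi.mulSingle_eq_same]
    rw [h2]
    change ((α ((a i : Equiv.Perm (Fin 5)) p) : A5) : Equiv.Perm (Fin 5))⁻¹
      ((a i : Equiv.Perm (Fin 5)) ((α p : Equiv.Perm (Fin 5)) 0)) = 0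
    rw [Equiv.Perm.inv_eq_iff_eq, hα, hα]
  have hsame : ∀ (i : Fin t) (p q : Fin 5), bf (i, p) = bf (i, q) → p = q := by
    intro i p q h
    set β : A5 := (α q)⁻¹ * α p with hβ
    have h1 : θ (blkA y (Pi.mulSingle i β)) (w i) = w i := by
      have h2 : blkA y (Pi.mulSingle i β) =
          (blkA y (Pi.mulSingle i (α q)))⁻¹ * blkA y (Pi.mulSingle i (α p)) := by
        rw [← map_inv, ← map_mul]
        congr 1
        rw [← Pi.mulSingle_inv, ← Pi.mulSingle_mul]
      rw [h2, ← hmul]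
      rw [hbf, hbf] at h
      rw [h, hmul, inv_mul_cancel, map_one]
      rfl
    let P : Finset (Fin m) := Finset.univ.image fun k : Fin 4 =>
      ((g i : Equiv.Perm (Fin m)))⁻¹ (y (i, k.succ))
    have hP1 : ∀ z ∈ P, z ∉ R := by
      intro z hz hzR
      obtain ⟨k, -, hk⟩ := Finset.mem_image.mp hz
      rw [Equiv.Perm.inv_eq_iff_eq] at hk
      by_cases hzx : z = x₀
      · rw [hzx, hg0] at hk
        have h4 := y.injective hk
        rw [Prod.mk.injEq] at h4
        exact Fin.succ_ne_zero k h4.2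
      · have h2 : z ∈ R.erase x₀ := Finset.mem_erase.mpr ⟨hzx, hzR⟩
        rw [hgR i z h2] at hk
        exact hyR _ (hk ▸ h2)
    have hP2 : P.card = 4 := by
      rw [Finset.card_image_of_injective, Finset.card_univ, Fintype.card_fin]
      intro k k' h5
      have h6 := y.injective ((((g i : Equiv.Perm (Fin m)))⁻¹).injective h5)
      rw [Prod.mk.injEq] at h6
      exact Fin.succ_injective _ h6.2
    have h3 := hR2 P hP1 hP2 ((g i)⁻¹ * blkA y (Pi.mulSingle i β) * g i) ?_ ?_
    · change ((g i : Equiv.Perm (Fin m)))⁻¹ (blk y (Pi.mulSingle i β)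
        ((g i : Equiv.Perm (Fin m)) x₀)) = x₀ at h3
      rw [Equiv.Perm.inv_eq_iff_eq] at h3
      rw [hg0, blk_apply, Pi.mulSingle_eq_same] at h3
      have h5 := y.injective h3
      rw [Prod.mk.injEq] at h5
      have h6 := h5.2
      change ((α q : A5) : Equiv.Perm (Fin 5))⁻¹ ((α p : Equiv.Perm (Fin 5)) 0) = 0 at h6
      rw [Equiv.Perm.inv_eq_iff_eq, hα, hα] at h6
      exact h6
    · intro z hz
      rw [Finset.mem_insert, not_or] at hz
      change ((g i : Equiv.Perm (Fin m)))⁻¹ (blk y (Pi.mulSingle i β)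
        ((g i : Equiv.Perm (Fin m)) z)) = z
      rw [Equiv.Perm.inv_eq_iff_eq]
      by_cases hr : (g i : Equiv.Perm (Fin m)) z ∈ Set.range y
      · obtain ⟨⟨j, p'⟩, hjp⟩ := hr
        rw [← hjp, blk_apply]
        by_cases hji : j = i
        · exfalso
          rw [hji] at hjp
          induction p' using Fin.cases with
          | zero =>
            rw [← hg0] at hjp
            exact hz.1 (((g i : Equiv.Perm (Fin m))).injective hjp).symm
          | succ k =>
            refine hz.2 (Finset.mem_image.mpr ⟨k, Finset.mem_univ _, ?_⟩)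
            rw [Equiv.Perm.inv_eq_iff_eq]
            exact hjp
        · rw [Pi.mulSingle_eq_of_ne hji]
          rfl
      · exact blk_apply_of_not y _ _ hr
    · rw [map_mul, map_mul]
      change θ (g i)⁻¹ (θ (blkA y (Pi.mulSingle i β)) (w i)) = v
      rw [h1, hmul, inv_mul_cancel, map_one]
      rfl
  have hinj : Function.Injective bf := by
    rintro ⟨i, p⟩ ⟨j, q⟩ h
    by_cases hij : i = j
    · subst hij
      rw [hsame i p q h]
    · exfalso
      obtain ⟨a', -, ha'⟩ := exists_move (Finset.univ : Finset (Fin 5)) (by simp) p (p + 1)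
        (Finset.mem_univ _) (Finset.mem_univ _)
      have h1 := hact (Pi.mulSingle i a') i p
      have h2 := hact (Pi.mulSingle i a') j q
      rw [Pi.mulSingle_eq_same] at h1
      rw [Pi.mulSingle_eq_of_ne (Ne.symm hij)] at h2
      have h3 : bf (i, (a' : Equiv.Perm (Fin 5)) p) = bf (i, p) := by
        rw [← h1, h, h2]; rfl
      have h4 := hsame i _ _ h3
      rw [ha'] at h4
      have h5 : ∀ p : Fin 5, p + 1 ≠ p := by decide
      exact h5 p h4
  exact ⟨⟨bf, hinj⟩, fun a => ⟨blkA y a, fun i p => hact a i p⟩⟩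

open AltR in
/-- **Small index.** A proper subgroup `K` of index at most `N` of `A_m` contains the alternating
group of the complement of a nonempty set `R` of at most `5 log_5 N` points, and is maximal so. -/
theorem exists_R5 {m N : ℕ} (K : Subgroup (alternatingGroup (Fin m))) (hK : K ≠ ⊤)
    (hidx : K.index ≤ N) (hm : 5 * Nat.log 5 N + 5 ≤ m) :
    ∃ R : Finset (Fin m), R.Nonempty ∧ R.card ≤ 5 * Nat.log 5 N ∧ altOn Rᶜ ≤ K ∧
      ∀ x ∈ R, ∀ P : Finset (Fin m), P ⊆ Rᶜ → P.card = 4 → ¬ altOn (insert x P) ≤ K := by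
  classical
  obtain ⟨W, hW1, hW2⟩ := exists_W K hidx hm
  obtain ⟨D, h1, -, h3, h4⟩ := exists_max K W Finset.univ hW2 (Finset.subset_univ W)
  refine ⟨Dᶜ, ?_, ?_, ?_, ?_⟩
  · rw [Finset.nonempty_iff_ne_empty]
    intro h
    rw [Finset.compl_eq_empty_iff] at h
    refine hK (top_le_iff.1 fun g _ => h3 (mem_altOn.2 fun x hx => absurd ?_ hx))
    rw [h]
    exact Finset.mem_univ x
  · exact (Finset.card_le_card (Finset.compl_subset_compl.2 h1)).trans hW1
  · rw [compl_compl]
    exact h3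
  · intro x hx P hP hPc
    rw [compl_compl] at hP
    exact h4 x (Finset.mem_univ x) (Finset.mem_compl.1 hx) P hP hPc

/-- **Blocks, tight form.** If `A_m` acts nontrivially on a set of at most `N` points and
`m ≥ 5 log_5 N + 5 t`, then there are `t` disjoint five-element sets such that every family of
even permutations of them is induced by an element of `A_m`. -/
theorem blocks_of_action' {m N t : ℕ} {V : Type} [Fintype V] (hV : Fintype.card V ≤ N)
    (θ : alternatingGroup (Fin m) →* Equiv.Perm V) (hnt : ∃ h v, θ h v ≠ v)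
    (ht : 1 ≤ t) (hm : 5 * Nat.log 5 N + 5 * t ≤ m) :
    ∃ b : Fin t × Fin 5 ↪ V, ∀ a : Fin t → alternatingGroup (Fin 5),
      ∃ h, ∀ i p, θ h (b (i, p)) = b (i, (a i : Equiv.Perm (Fin 5)) p) := by
  classical
  obtain ⟨h₀, v, hv⟩ := hnt
  let K : Subgroup (alternatingGroup (Fin m)) := (MulAction.stabilizer (Equiv.Perm V) v).comap θ
  have hmem : ∀ h, h ∈ K ↔ θ h v = v := fun h => Iff.rfl
  have hK : K ≠ ⊤ := by
    intro h
    exact hv ((hmem h₀).mp (h ▸ Subgroup.mem_top h₀))
  have hidx : K.index ≤ N := by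
    refine (index_comap_le θ _).trans ?_
    rw [MulAction.index_stabilizer]
    refine (Set.ncard_le_ncard (Set.subset_univ _) Set.finite_univ).trans ?_
    rw [Set.ncard_univ, Nat.card_eq_fintype_card]
    exact hV
  obtain ⟨R, ⟨x₀, hx₀⟩, hR, hR1, hR2⟩ := exists_R5 K hK hidx (by omega)
  have hRc : ∀ h : alternatingGroup (Fin m), (∀ z ∈ R, (h : Equiv.Perm (Fin m)) z = z) →
      h ∈ K := by
    intro h hh
    refine hR1 ?_
    intro z hz
    rw [Finset.mem_compl, not_not] at hz
    exact hh z hz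
  refine blocks_tight θ v R x₀ hx₀ (fun h hh => (hmem h).mp (hRc h hh)) ?_ (by omega) (by omega)
  intro P hP1 hP2 k hk1 hk2
  by_contra hk3
  refine hR2 x₀ hx₀ P ?_ hP2 ?_
  · intro z hz
    rw [Finset.mem_compl]
    exact hP1 z hz
  · intro h hh
    refine extend K P (by omega) x₀ ?_ k ((hmem k).mpr hk2) hk1 hk3 h hh
    intro h' hh'
    exact hRc h' fun z hz => hh' z fun hzP => hP1 z hzP hz

end Pool.Agent.PSX
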