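import Mathlib

set_option autoImplicit false

namespace Pool.Agent.PSX

/-- The even permutations moving only points of `D`. -/
def altOn {m : ℕ} (D : Finset (Fin m)) : Subgroup (alternatingGroup (Fin m)) where
  carrier := {h | ∀ x, x ∉ D → (h : Equiv.Perm (Fin m)) x = x}
  one_mem' := fun _ _ => rfl
  mul_mem' := by
    intro g h hg hh x hx
    show (g : Equiv.Perm (Fin m)) ((h : Equiv.Perm (Fin m)) x) = x
    rw [hh x hx, hg x hx]
  inv_mem' := by
    intro g hg x hx
    show (g : Equiv.Perm (Fin m)).symm x = x
    rw [Equiv.symm_apply_eq, hg x hx]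

end Pool.Agent.PSX
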