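import Pool.Agent.PSX.Tri

set_option autoImplicit false

/-!
# Bochert's bound for a permutation group without 3-cycles
-/

namespace Pool.Agent.PSX

variable {α : Type} [Fintype α] [DecidableEq α]

/-- The group `G` contains no 3-cycle of points of `X`. -/
def No3 (G : Subgroup (Equiv.Perm α)) (X : Finset α) : Prop :=
  ∀ x ∈ X, ∀ y ∈ X, ∀ z ∈ X, x ≠ y → y ≠ z → x ≠ z → tri x y z ∉ G

/-- **Bochert.** If the group `G` contains no 3-cycle of points of `X`, then its index is at least
the factorial of half of the number of points of `X`. -/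
theorem bochert (G : Subgroup (Equiv.Perm α)) (X : Finset α) (hX : No3 G X) :
    (X.card - X.card / 2).factorial ≤ G.index := by
  classical
  let Tr : Finset α → Prop := fun D =>
    ∀ g ∈ G, (∀ z, z ∉ X → g z = z) → (∀ z ∈ D, g z = z) → g = 1
  have hTX : Tr X := by
    intro g _ h1 h2
    ext z
    by_cases hz : z ∈ X
    · exact h2 z hz
    · exact h1 z hz
  obtain ⟨D, hD, hmin⟩ := Finset.exists_min_image (X.powerset.filter Tr) Finset.card
    ⟨X, Finset.mem_filter.mpr ⟨Finset.mem_powerset_self X, hTX⟩⟩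
  rw [Finset.mem_filter, Finset.mem_powerset] at hD
  obtain ⟨hDX, hTD⟩ := hD
  -- the complement of the minimal set
  have hTc : Tr (X \ D) := by
    intro g hg h1 h2
    by_contra hne
    obtain ⟨a, ha⟩ : ∃ a, g a ≠ a := by
      by_contra hn
      push Not at hn
      exact hne (Equiv.ext hn)
    have haX : a ∈ X := by
      by_contra hn
      exact ha (h1 a hn)
    have haD : a ∈ D := by
      by_contra hn
      exact ha (h2 a (Finset.mem_sdiff.mpr ⟨haX, hn⟩))
    have hlt : ¬ Tr (D.erase a) := by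
      intro hT
      have h3 := hmin (D.erase a) (Finset.mem_filter.mpr
        ⟨Finset.mem_powerset.mpr ((Finset.erase_subset a D).trans hDX), hT⟩)
      rw [Finset.card_erase_of_mem haD] at h3
      have h4 : 0 < D.card := Finset.card_pos.mpr ⟨a, haD⟩
      omega
    simp only [Tr] at hlt
    push Not at hlt
    obtain ⟨h, hh, h3, h4, h5⟩ := hlt
    have hha : h a ≠ a := by
      intro e
      refine h5 (hTD h hh h3 fun z hz => ?_)
      by_cases hza : z = a
      · rw [hza]; exact e
      · exact h4 z (Finset.mem_erase.mpr ⟨hza, hz⟩)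
    have hsup : ∀ z, g z ≠ z → h z ≠ z → z = a := by
      intro z hgz hhz
      by_contra hza
      have hzX : z ∈ X := by
        by_contra hn
        exact hgz (h1 z hn)
      have hzD : z ∈ D := by
        by_contra hn
        exact hgz (h2 z (Finset.mem_sdiff.mpr ⟨hzX, hn⟩))
      exact hhz (h4 z (Finset.mem_erase.mpr ⟨hza, hzD⟩))
    obtain ⟨hc, hgh⟩ := comm_tri g h a hsup ha hha
    have hmem : tri a (g a) (h a) ∈ G := by
      rw [← hc]
      exact G.mul_mem (G.mul_mem (G.mul_mem hg hh) (G.inv_mem hg)) (G.inv_mem hh)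
    have hgX : g a ∈ X := by
      by_contra hn
      exact ha (g.injective (h1 _ hn))
    have hhX : h a ∈ X := by
      by_contra hn
      exact hha (h.injective (h3 _ hn))
    exact hX a haX (g a) hgX (h a) hhX (Ne.symm ha) hgh (Ne.symm hha) hmem
  have hle := hmin (X \ D) (Finset.mem_filter.mpr
    ⟨Finset.mem_powerset.mpr Finset.sdiff_subset, hTc⟩)
  have hcard : (X \ D).card = X.card - D.card := Finset.card_sdiff_of_subset hDX
  have hle2 := Finset.card_le_card hDX
  have hge : X.card - X.card / 2 ≤ (X \ D).card := by omega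
  -- the permutations of the complement lie in different cosets
  have hinj : Function.Injective (fun e : Equiv.Perm {z : α // z ∈ X \ D} =>
      (QuotientGroup.mk (Equiv.Perm.ofSubtype e) : Equiv.Perm α ⧸ G)) := by
    intro e e' hee
    have h1 : (Equiv.Perm.ofSubtype e)⁻¹ * Equiv.Perm.ofSubtype e' ∈ G := QuotientGroup.eq.mp hee
    have h2 : Equiv.Perm.ofSubtype (e⁻¹ * e') ∈ G := by
      rw [map_mul, map_inv]
      exact h1
    have h3 : ∀ z, z ∉ X \ D → Equiv.Perm.ofSubtype (e⁻¹ * e') z = z := fun z hz =>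
      Equiv.Perm.ofSubtype_apply_of_not_mem _ hz
    have h4 : Equiv.Perm.ofSubtype (e⁻¹ * e') = 1 := by
      refine hTD _ h2 (fun z hz => h3 z fun h => hz (Finset.mem_sdiff.mp h).1)
        fun z hz => h3 z fun h => (Finset.mem_sdiff.mp h).2 hz
    have h5 : e⁻¹ * e' = 1 := Equiv.Perm.ofSubtype_injective (by rw [h4, map_one])
    exact inv_mul_eq_one.mp h5
  have h6 := Nat.card_le_card_of_injective _ hinj
  rw [Nat.card_perm, Nat.card_eq_fintype_card, Fintype.card_coe] at h6
  exact (Nat.factorial_le hge).trans h6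

/-- Two 3-cycles with exactly one common point generate the alternating group of five points. -/
theorem altIn_share (G : Subgroup (Equiv.Perm α)) (x y z y' z' : α)
    (hxy : x ≠ y) (hyz : y ≠ z) (hxz : x ≠ z) (hxy' : x ≠ y') (hyz' : y' ≠ z') (hxz' : x ≠ z')
    (hyy' : y ≠ y') (hyz'' : y ≠ z') (hzy' : z ≠ y') (hzz' : z ≠ z')
    (h1 : tri x y z ∈ G) (h2 : tri x y' z' ∈ G) : AltIn G {z', y', x, y, z} := by
  have hP : AltIn G {x, y, z} := altIn_of_tri G x y z hxy hyz hxz h1
  have hc : ({x, y, z} : Finset α).card = 3 := Finset.card_eq_three.mpr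
    ⟨x, y, z, hxy, hxz, hyz, rfl⟩
  have s1 := sign_tri hxy hyz
  have s2 := sign_tri (x := x) hxy' hyz'
  have i1 : ∀ w w', tri x y' z' w = w' → (tri x y' z')⁻¹ w' = w := fun w w' e =>
    Equiv.Perm.inv_eq_iff_eq.mpr e.symm
  have hP1 : AltIn G (insert y' {x, y, z}) := by
    refine hP.extend hc.ge y' (tri x y' z' * tri x y z * (tri x y' z')⁻¹)
      (G.mul_mem (G.mul_mem h2 h1) (G.inv_mem h2)) ?_ ?_ ?_
    · rw [Equiv.Perm.sign_mul, Equiv.Perm.sign_mul, Equiv.Perm.sign_inv, s1, s2]; rfl
    · intro w hw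
      simp only [Finset.mem_insert, Finset.mem_singleton, not_or] at hw
      obtain ⟨w1, w2, w3, w4⟩ := hw
      rw [Equiv.Perm.mul_apply, Equiv.Perm.mul_apply]
      by_cases w5 : w = z'
      · rw [w5, i1 y' z' (tri_y hxz' hyz'), tri_of (Ne.symm hxy') (Ne.symm hyy') (Ne.symm hzy'),
          tri_y hxz' hyz']
      · rw [i1 w w (tri_of w2 w1 w5), tri_of w2 w3 w4, tri_of w2 w1 w5]
    · rw [Equiv.Perm.mul_apply, Equiv.Perm.mul_apply, i1 x y' (tri_x hxy' hxz'), tri_x hxy hxz,
        tri_of (Ne.symm hxy) hyy' hyz'']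
      exact hyy'
  have hc1 : 3 ≤ (insert y' {x, y, z} : Finset α).card :=
    hc.ge.trans (Finset.card_le_card (Finset.subset_insert _ _))
  refine hP1.extend hc1 z' ((tri x y' z')⁻¹ * tri x y z * tri x y' z')
    (G.mul_mem (G.mul_mem (G.inv_mem h2) h1) h2) ?_ ?_ ?_
  · rw [Equiv.Perm.sign_mul, Equiv.Perm.sign_mul, Equiv.Perm.sign_inv, s1, s2]; rfl
  · intro w hw
    simp only [Finset.mem_insert, Finset.mem_singleton, not_or] at hw
    obtain ⟨w5, w1, w2, w3, w4⟩ := hw
    rw [Equiv.Perm.mul_apply, Equiv.Perm.mul_apply, tri_of w2 w1 w5, tri_of w2 w3 w4,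
      i1 w w (tri_of w2 w1 w5)]
  · rw [Equiv.Perm.mul_apply, Equiv.Perm.mul_apply, tri_z, tri_x hxy hxz,
      i1 y y (tri_of (Ne.symm hxy) hyy' hyz'')]
    exact hyz''

/-- Three 3-cycles with two common points generate the alternating group of five points. -/
theorem altIn_three (G : Subgroup (Equiv.Perm α)) (x y a b c : α)
    (hxy : x ≠ y) (hax : a ≠ x) (hay : a ≠ y) (hbx : b ≠ x) (hby : b ≠ y) (hcx : c ≠ x)
    (hcy : c ≠ y) (ha : tri a x y ∈ G) (hb : tri b x y ∈ G)
    (hc : tri c x y ∈ G) : AltIn G {c, b, a, x, y} := by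
  have hP : AltIn G {a, x, y} := altIn_of_tri G a x y hax hxy hay ha
  have hcard : ({a, x, y} : Finset α).card = 3 := Finset.card_eq_three.mpr
    ⟨a, x, y, hax, hay, hxy, rfl⟩
  have hP1 : AltIn G (insert b {a, x, y}) := by
    refine hP.extend hcard.ge b (tri b x y) hb (sign_tri hbx hxy) ?_ ?_
    · intro w hw
      simp only [Finset.mem_insert, Finset.mem_singleton, not_or] at hw
      exact tri_of hw.1 hw.2.2.1 hw.2.2.2
    · rw [tri_x hbx hby]
      exact Ne.symm hbx
  have hc1 : 3 ≤ (insert b {a, x, y} : Finset α).card :=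
    hcard.ge.trans (Finset.card_le_card (Finset.subset_insert _ _))
  refine hP1.extend hc1 c (tri c x y) hc (sign_tri hcx hxy) ?_ ?_
  · intro w hw
    simp only [Finset.mem_insert, Finset.mem_singleton, not_or] at hw
    exact tri_of hw.1 hw.2.2.2.1 hw.2.2.2.2
  · rw [tri_x hcx hcy]
    exact Ne.symm hcx

theorem card_five {x y z u v : α} (h1 : x ≠ y) (h2 : x ≠ z) (h3 : x ≠ u) (h4 : x ≠ v)
    (h5 : y ≠ z) (h6 : y ≠ u) (h7 : y ≠ v) (h8 : z ≠ u) (h9 : z ≠ v) (h10 : u ≠ v) :
    ({x, y, z, u, v} : Finset α).card = 5 := by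
  rw [Finset.card_insert_of_notMem, Finset.card_insert_of_notMem, Finset.card_insert_of_notMem,
    Finset.card_insert_of_notMem, Finset.card_singleton]
  · simp [h10]
  · simp [h8, h9]
  · simp [h5, h6, h7]
  · simp [h1, h2, h3, h4]

/-- If `G` contains the alternating group of no five points of `W`, then it contains no 3-cycle of
some half of `W`. -/
theorem exists_no3 (G : Subgroup (Equiv.Perm α)) (W : Finset α)
    (hW : ∀ Y : Finset α, Y ⊆ W → Y.card = 5 → ¬ AltIn G Y) :
    ∃ X ⊆ W, W.card ≤ 2 * X.card ∧ No3 G X := by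
  classical
  obtain ⟨X, hX, hmax⟩ := Finset.exists_max_image (W.powerset.filter (No3 G)) Finset.card
    ⟨∅, Finset.mem_filter.mpr ⟨Finset.mem_powerset.mpr (Finset.empty_subset W),
      fun x hx => absurd hx (Finset.notMem_empty x)⟩⟩
  rw [Finset.mem_filter, Finset.mem_powerset] at hX
  obtain ⟨hXW, hX3⟩ := hX
  refine ⟨X, hXW, ?_, hX3⟩
  -- every further point lies in a 3-cycle with two points of `X`
  have hex : ∀ w ∈ W \ X, ∃ p : α × α, p.1 ∈ X ∧ p.2 ∈ X ∧ p.1 ≠ p.2 ∧ tri w p.1 p.2 ∈ G := by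
    intro w hw
    obtain ⟨hwW, hwX⟩ := Finset.mem_sdiff.mp hw
    have h1 : ¬ No3 G (insert w X) := by
      intro h2
      have h3 := hmax (insert w X) (Finset.mem_filter.mpr
        ⟨Finset.mem_powerset.mpr (Finset.insert_subset hwW hXW), h2⟩)
      rw [Finset.card_insert_of_notMem hwX] at h3
      omega
    unfold No3 at h1
    push Not at h1
    obtain ⟨x, hx, y, hy, z, hz, hxy, hyz, hxz, ht⟩ := h1
    rw [Finset.mem_insert] at hx hy hz
    rcases hx with hx | hx
    · subst hx
      exact ⟨(y, z), hy.resolve_left (Ne.symm hxy), hz.resolve_left (Ne.symm hxz), hyz, ht⟩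
    · rcases hy with hy | hy
      · subst hy
        refine ⟨(z, x), hz.resolve_left (Ne.symm hyz), hx, Ne.symm hxz, ?_⟩
        rw [← tri_rot hxy hyz hxz]
        exact ht
      · rcases hz with hz | hz
        · subst hz
          refine ⟨(x, y), hx, hy, hxy, ?_⟩
          rw [tri_rot (Ne.symm hxz) hxy (Ne.symm hyz)]
          exact ht
        · exact absurd ht (hX3 x hx y hy z hz hxy hyz hxz)
  choose! p hp1 hp2 hp3 hp4 using hex
  -- the counting
  have hcount : (W \ X).card * 2 ≤ X.card * 2 := by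
    refine Finset.card_mul_le_card_mul (fun w x => x = (p w).1 ∨ x = (p w).2) ?_ ?_
    · intro w hw
      have h1 : ({(p w).1, (p w).2} : Finset α) ⊆
          Finset.bipartiteAbove (fun w x => x = (p w).1 ∨ x = (p w).2) X w := by
        intro x hx
        rw [Finset.mem_insert, Finset.mem_singleton] at hx
        rw [Finset.mem_bipartiteAbove]
        refine ⟨?_, hx⟩
        rcases hx with hx | hx
        · rw [hx]; exact hp1 w hw
        · rw [hx]; exact hp2 w hw
      have h2 := Finset.card_le_card h1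
      rw [Finset.card_pair (hp3 w hw)] at h2
      exact h2
    · intro x hx
      by_contra hn
      rw [not_le, Finset.two_lt_card] at hn
      obtain ⟨a, ha, b, hb, c, hc, hab, hac, hbc⟩ := hn
      -- normal form
      have hnorm : ∀ w ∈ Finset.bipartiteBelow (fun w x => x = (p w).1 ∨ x = (p w).2) (W \ X) x,
          w ∈ W ∧ w ∉ X ∧ ∃ y ∈ X, x ≠ y ∧ tri w x y ∈ G := by
        intro w hw
        rw [Finset.mem_bipartiteBelow] at hw
        obtain ⟨hw1, hw2⟩ := hw
        have hwX := (Finset.mem_sdiff.mp hw1).2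
        refine ⟨(Finset.mem_sdiff.mp hw1).1, hwX, ?_⟩
        have n1 : w ≠ (p w).1 := fun e => hwX (e ▸ hp1 w hw1)
        have n2 : w ≠ (p w).2 := fun e => hwX (e ▸ hp2 w hw1)
        rcases hw2 with hw2 | hw2
        · refine ⟨(p w).2, hp2 w hw1, ?_, ?_⟩
          · rw [hw2]; exact hp3 w hw1
          · rw [hw2]; exact hp4 w hw1
        · refine ⟨(p w).1, hp1 w hw1, ?_, ?_⟩
          · rw [hw2]; exact Ne.symm (hp3 w hw1)
          · rw [hw2, ← tri_inv n1 (hp3 w hw1) n2]
            exact G.inv_mem (hp4 w hw1)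
      obtain ⟨haW, haX, y, hy, hxy, hta⟩ := hnorm a ha
      obtain ⟨hbW, hbX, y', hy', hxy', htb⟩ := hnorm b hb
      obtain ⟨hcW, hcX, y'', hy'', hxy'', htc⟩ := hnorm c hc
      have ne : ∀ {w u : α}, w ∉ X → u ∈ X → w ≠ u := fun hw hu e => hw (e ▸ hu)
      have share : ∀ (w w' u u' : α), w ∈ W → w ∉ X → w' ∈ W → w' ∉ X → u ∈ X → u' ∈ X →
          w ≠ w' → x ≠ u → x ≠ u' → tri w x u ∈ G → tri w' x u' ∈ G → u = u' := by
        intro w w' u u' hwW hwX hwW' hwX' hu hu' hww hxu hxu' h1 h2
        by_contra huu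
        rw [tri_rot (ne hwX hx) hxu (ne hwX hu)] at h1
        rw [tri_rot (ne hwX' hx) hxu' (ne hwX' hu')] at h2
        have h3 := altIn_share G x u w u' w' hxu (Ne.symm (ne hwX hu)) (Ne.symm (ne hwX hx))
          hxu' (Ne.symm (ne hwX' hu')) (Ne.symm (ne hwX' hx)) huu (Ne.symm (ne hwX' hu))
          (ne hwX hu') hww h1 h2
        refine hW _ ?_ ?_ h3
        · intro v hv
          simp only [Finset.mem_insert, Finset.mem_singleton] at hv
          rcases hv with hv | hv | hv | hv | hv
          · rw [hv]; exact hwW'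
          · rw [hv]; exact hXW hu'
          · rw [hv]; exact hXW hx
          · rw [hv]; exact hXW hu
          · rw [hv]; exact hwW
        · exact card_five (ne hwX' hu') (ne hwX' hx) (ne hwX' hu) (Ne.symm hww)
            (Ne.symm hxu') (Ne.symm huu) (Ne.symm (ne hwX hu')) hxu (Ne.symm (ne hwX hx))
            (Ne.symm (ne hwX hu))
      have e1 : y = y' := share a b y y' haW haX hbW hbX hy hy' hab hxy hxy' hta htb
      have e2 : y = y'' := share a c y y'' haW haX hcW hcX hy hy'' hac hxy hxy'' hta htc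
      rw [← e1] at htb
      rw [← e2] at htc
      have h3 := altIn_three G x y a b c hxy (ne haX hx) (ne haX hy) (ne hbX hx) (ne hbX hy)
        (ne hcX hx) (ne hcX hy) hta htb htc
      refine hW _ ?_ ?_ h3
      · intro v hv
        simp only [Finset.mem_insert, Finset.mem_singleton] at hv
        rcases hv with hv | hv | hv | hv | hv
        · rw [hv]; exact hcW
        · rw [hv]; exact hbW
        · rw [hv]; exact haW
        · rw [hv]; exact hXW hx
        · rw [hv]; exact hXW hy
      · exact card_five (Ne.symm hbc) (Ne.symm hac) (ne hcX hx) (ne hcX hy)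
          (Ne.symm hab) (ne hbX hx) (ne hbX hy) (ne haX hx) (ne haX hy) hxy
  have h5 : (W \ X).card = W.card - X.card := Finset.card_sdiff_of_subset hXW
  omega

/-- **The index.** If `G` contains the alternating group of no five points of `W`, then its index
is at least `q!` for `4 q ≤ |W|`. -/
theorem index_of_no5 (G : Subgroup (Equiv.Perm α)) (W : Finset α)
    (hW : ∀ Y : Finset α, Y ⊆ W → Y.card = 5 → ¬ AltIn G Y) (q : ℕ) (hq : 4 * q ≤ W.card + 3) :
    q.factorial ≤ G.index := by
  obtain ⟨X, -, hX1, hX2⟩ := exists_no3 G W hW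
  exact (Nat.factorial_le (by omega)).trans (bochert G X hX2)

end Pool.Agent.PSX
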