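import Mathlib

set_option autoImplicit false

/-!
# Bochert's bound: a group without three-cycles has large index
-/

namespace Pool.Agent.PSX.Boch3

theorem apply_inv_self {α : Type*} (g : Equiv.Perm α) (x : α) : g (g⁻¹ x) = x :=
  Equiv.apply_symm_apply g x

theorem inv_apply_self {α : Type*} (g : Equiv.Perm α) (x : α) : g⁻¹ (g x) = x :=
  Equiv.symm_apply_apply g x

variable {α : Type*} [Fintype α] [DecidableEq α]

/-- Only the identity of `G`, among the permutations of `X`, fixes `D` pointwise. -/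
def IsBase (G : Subgroup (Equiv.Perm α)) (X D : Finset α) : Prop :=
  ∀ g ∈ G, (∀ x, x ∉ X → g x = x) → (∀ x ∈ D, g x = x) → g = 1

/-- The symmetric group of `Y` injects into the cosets. -/
theorem factorial_le_index (G : Subgroup (Equiv.Perm α)) (Y : Finset α)
    (h : ∀ g ∈ G, (∀ x, x ∉ Y → g x = x) → g = 1) : Y.card.factorial ≤ G.index := by
  have hinj : Function.Injective
      (fun s : Equiv.Perm {x // x ∈ Y} => (QuotientGroup.mk (Equiv.Perm.ofSubtype s) :
        Equiv.Perm α ⧸ G)) := by
    intro s s' hs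
    change (QuotientGroup.mk (Equiv.Perm.ofSubtype s) : Equiv.Perm α ⧸ G) =
      QuotientGroup.mk (Equiv.Perm.ofSubtype s') at hs
    rw [QuotientGroup.eq, ← map_inv, ← map_mul] at hs
    have h1 := h _ hs fun x hx => Equiv.Perm.ofSubtype_apply_of_not_mem _ hx
    have h2 : s⁻¹ * s' = 1 := Equiv.Perm.ofSubtype_injective (by rw [h1, map_one])
    exact inv_mul_eq_one.1 h2
  have h1 := Nat.card_le_card_of_injective _ hinj
  rw [Nat.card_eq_fintype_card, Fintype.card_perm, Fintype.card_coe] at h1
  exact h1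

omit [Fintype α] in
/-- The commutator of two permutations whose supports meet in one point is a three-cycle. -/
theorem comm_eq (g h : Equiv.Perm α) (D : Finset α) (a : α) (haD : a ∈ D)
    (hg : ∀ x, x ∉ D → g x = x) (hh : ∀ x ∈ D, x ≠ a → h x = x) (hga : g a ≠ a)
    (hha : h a ≠ a) :
    g a ∈ D ∧ h a ∉ D ∧
      g * h * g⁻¹ * h⁻¹ = Equiv.swap a (g a) * Equiv.swap (g a) (h a) := by
  have hgD : ∀ x ∈ D, g x ∈ D := by
    intro x hx
    by_contra h1
    have h2 := g.injective (hg _ h1)
    rw [h2] at h1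
    exact h1 hx
  have hgD' : ∀ x ∈ D, g⁻¹ x ∈ D := by
    intro x hx
    by_contra h1
    have h2 := hg _ h1
    rw [apply_inv_self] at h2
    exact h1 (h2 ▸ hx)
  have hb : g a ∈ D := hgD a haD
  have hc : h a ∉ D := by
    intro h1
    exact hha (h.injective (hh _ h1 hha))
  refine ⟨hb, hc, Equiv.ext fun x => ?_⟩
  have hgi : ∀ x, x ∉ D → g⁻¹ x = x := by
    intro x hx
    rw [Equiv.Perm.inv_eq_iff_eq, hg x hx]
  have hhi : ∀ x ∈ D, x ≠ a → h⁻¹ x = x := by
    intro x hx hxa
    rw [Equiv.Perm.inv_eq_iff_eq, hh x hx hxa]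
  have hbc : g a ≠ h a := fun e => hc (e ▸ hb)
  show g (h (g⁻¹ (h⁻¹ x))) = Equiv.swap a (g a) (Equiv.swap (g a) (h a) x)
  by_cases hxD : x ∈ D
  · by_cases hxa : x = a
    · subst hxa
      have h1 : h⁻¹ x ∉ D := by
        intro h1
        by_cases h2 : h⁻¹ x = x
        · apply hha
          rw [Equiv.Perm.inv_eq_iff_eq] at h2
          exact h2.symm
        · have h3 := hh _ h1 h2
          rw [apply_inv_self] at h3
          exact h2 h3.symm
      rw [hgi _ h1, apply_inv_self, Equiv.swap_apply_of_ne_of_ne hga.symm hha.symm,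
        Equiv.swap_apply_left]
    · rw [hhi x hxD hxa]
      by_cases hxb : x = g a
      · rw [hxb, inv_apply_self, hg _ hc, Equiv.swap_apply_left,
          Equiv.swap_apply_of_ne_of_ne hha hbc.symm]
      · have h1 : g⁻¹ x ≠ a := by
          intro h1
          rw [Equiv.Perm.inv_eq_iff_eq] at h1
          exact hxb h1
        rw [hh _ (hgD' x hxD) h1, apply_inv_self,
          Equiv.swap_apply_of_ne_of_ne hxb (fun e => by rw [e] at hxD; exact hc hxD),
          Equiv.swap_apply_of_ne_of_ne hxa hxb]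
  · by_cases hxc : x = h a
    · rw [hxc, inv_apply_self]
      have h1 : g⁻¹ a ≠ a := by
        intro h1
        rw [Equiv.Perm.inv_eq_iff_eq] at h1
        exact hga h1.symm
      rw [hh _ (hgD' a haD) h1, apply_inv_self, Equiv.swap_apply_right,
        Equiv.swap_apply_right]
    · have h1 : h⁻¹ x ∉ D := by
        intro h1
        by_cases h2 : h⁻¹ x = a
        · rw [Equiv.Perm.inv_eq_iff_eq] at h2
          exact hxc h2
        · have h3 := hh _ h1 h2
          rw [apply_inv_self] at h3
          exact hxD (h3 ▸ h1)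
      rw [hgi _ h1, apply_inv_self, hg x hxD,
        Equiv.swap_apply_of_ne_of_ne (fun e => by rw [e] at hxD; exact hxD hb) hxc,
        Equiv.swap_apply_of_ne_of_ne (fun e => by rw [e] at hxD; exact hxD haD)
          (fun e => by rw [e] at hxD; exact hxD hb)]

end Pool.Agent.PSX.Boch3

namespace Pool.Agent.PSX

open Boch3

/-- **Bochert.** A group of permutations without three-cycles on `X` has index at least
`⌈|X|/2⌉!`. -/
theorem bochert {α : Type*} [Fintype α] [DecidableEq α] (G : Subgroup (Equiv.Perm α))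
    (X : Finset α)
    (h3 : ∀ a ∈ X, ∀ b ∈ X, ∀ c ∈ X, a ≠ b → b ≠ c → a ≠ c →
      Equiv.swap a b * Equiv.swap b c ∉ G) :
    (X.card - X.card / 2).factorial ≤ G.index := by
  classical
  obtain ⟨D, hD, hmin⟩ := Finset.exists_min_image
    (X.powerset.filter fun D => IsBase G X D) Finset.card
    ⟨X, by
      rw [Finset.mem_filter, Finset.mem_powerset]
      refine ⟨Finset.Subset.refl X, fun g _ h1 h2 => Equiv.ext fun x => ?_⟩
      by_cases hx : x ∈ X
      · exact h2 x hx
      · exact h1 x hx⟩
  rw [Finset.mem_filter, Finset.mem_powerset] at hD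
  obtain ⟨hDX, hDb⟩ := hD
  have hbase : IsBase G X (X \ D) := by
    intro g hg hgX hgD
    by_contra hg1
    have hgD' : ∀ x, x ∉ D → g x = x := by
      intro x hx
      by_cases hxX : x ∈ X
      · exact hgD x (Finset.mem_sdiff.2 ⟨hxX, hx⟩)
      · exact hgX x hxX
    obtain ⟨a, ha⟩ : ∃ a, g a ≠ a := by
      by_contra h
      push Not at h
      exact hg1 (Equiv.ext h)
    have haD : a ∈ D := by
      by_contra h
      exact ha (hgD' a h)
    have hnb : ¬ IsBase G X (D.erase a) := by
      intro h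
      have h1 := hmin (D.erase a) (by
        rw [Finset.mem_filter, Finset.mem_powerset]
        exact ⟨(Finset.erase_subset a D).trans hDX, h⟩)
      rw [Finset.card_erase_of_mem haD] at h1
      have := Finset.card_pos.2 ⟨a, haD⟩
      omega
    unfold IsBase at hnb
    push Not at hnb
    obtain ⟨h, hhG, hhX, hhD, hh1⟩ := hnb
    have hha : h a ≠ a := by
      intro e
      refine hh1 (hDb h hhG hhX fun x hx => ?_)
      by_cases hxa : x = a
      · rw [hxa, e]
      · exact hhD x (Finset.mem_erase.2 ⟨hxa, hx⟩)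
    obtain ⟨h1, h2, h4⟩ := comm_eq g h D a haD hgD'
      (fun x hx hxa => hhD x (Finset.mem_erase.2 ⟨hxa, hx⟩)) ha hha
    have hhaX : h a ∈ X := by
      by_contra h5
      exact hha (h.injective (hhX _ h5))
    refine h3 a (hDX haD) (g a) (hDX h1) (h a) hhaX ha.symm (fun e => h2 (e ▸ h1)) hha.symm ?_
    rw [← h4]
    exact G.mul_mem (G.mul_mem (G.mul_mem hg hhG) (G.inv_mem hg)) (G.inv_mem hhG)
  have hcard := hmin (X \ D) (by
    rw [Finset.mem_filter, Finset.mem_powerset]
    exact ⟨Finset.sdiff_subset, hbase⟩)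
  have hsum : (X \ D).card + D.card = X.card := Finset.card_sdiff_add_card_eq_card hDX
  refine le_trans (Nat.factorial_le ?_) (factorial_le_index G (X \ D) ?_)
  · omega
  · intro g hg h1
    refine hDb g hg (fun x hx => h1 x fun h => hx (Finset.mem_sdiff.1 h).1) fun x hx => ?_
    exact h1 x fun h => (Finset.mem_sdiff.1 h).2 hx

end Pool.Agent.PSX
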