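import Mathlib

set_option autoImplicit false

/-!
# Bochert's argument: a permutation group without 3-cycles has small order
-/

namespace Pool.Agent.PSX

open Equiv

theorem app_inv {V : Type} (s : Perm V) (x : V) : s (s⁻¹ x) = x := s.apply_symm_apply x

theorem inv_app {V : Type} (s : Perm V) (x : V) : s⁻¹ (s x) = x := s.symm_apply_apply x

/-- Two permutations whose supports meet in exactly one point: the commutator is a 3-cycle. -/
theorem comm_three {V : Type} [DecidableEq V] (g h : Perm V) (D E : V → Prop) (a : V)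
    (hgD : ∀ x, ¬ D x → g x = x) (hhE : ∀ x, ¬ E x → x ≠ a → h x = x)
    (hDE : ∀ x, D x → ¬ E x) (haD : D a) (hga : g a ≠ a) (hha : h a ≠ a) :
    g * h * g⁻¹ * h⁻¹ = swap a (g a) * swap (g a) (h a) ∧ D (g a) ∧ E (h a) := by
  have hDg : ∀ x, D x → D (g x) := by
    intro x hx
    by_contra hn
    have h1 := hgD _ hn
    have h2 := g.injective h1
    exact hn (h2.symm ▸ hx)
  have hDgi : ∀ x, D x → D (g⁻¹ x) := by
    intro x hx
    by_contra hn
    have h1 := hgD _ hn
    rw [app_inv] at h1
    exact hn (h1 ▸ hx)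
  have hEh : E (h a) := by
    by_contra hn
    have h1 := hhE _ hn hha
    exact hha (h.injective h1)
  have hgi : ∀ x, ¬ D x → g⁻¹ x = x := by
    intro x hx
    rw [Perm.inv_eq_iff_eq]
    exact (hgD x hx).symm
  refine ⟨?_, hDg a haD, hEh⟩
  ext x
  simp only [Perm.mul_apply]
  by_cases hxa : x = a
  · -- `x = a`
    subst hxa
    have h1 : h⁻¹ x ≠ x := by
      intro h2
      rw [Perm.inv_eq_iff_eq] at h2
      exact hha h2.symm
    have h3 : ¬ D (h⁻¹ x) := by
      intro h4
      have h5 := hhE _ (hDE _ h4) h1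
      rw [app_inv] at h5
      exact h1 h5.symm
    rw [hgi _ h3, app_inv]
    have h6 : swap (g x) (h x) x = x := swap_apply_of_ne_of_ne (Ne.symm hga) (Ne.symm hha)
    rw [h6, swap_apply_left]
  · by_cases hxb : x = g a
    · have hDx : D x := hxb ▸ hDg a haD
      have h1 : h⁻¹ x = x := by
        rw [Perm.inv_eq_iff_eq]
        exact (hhE x (hDE x hDx) hxa).symm
      rw [h1]
      have h2 : g⁻¹ x = a := by rw [hxb, inv_app]
      rw [h2]
      have h3 : g (h a) = h a := hgD _ (fun h4 => hDE _ h4 hEh)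
      have h5 : h a ≠ g a := fun h6 => hDE _ (hDg a haD) (h6 ▸ hEh)
      rw [h3, hxb, swap_apply_left, swap_apply_of_ne_of_ne hha h5]
    · by_cases hxc : x = h a
      · have h1 : h⁻¹ x = a := by rw [hxc, inv_app]
        rw [h1]
        have h2 : D (g⁻¹ a) := hDgi a haD
        have h3 : g⁻¹ a ≠ a := by
          intro h4
          rw [Perm.inv_eq_iff_eq] at h4
          exact hga h4.symm
        rw [hhE _ (hDE _ h2) h3, app_inv, hxc, swap_apply_right, swap_apply_right]
      · have h0 : (swap (g a) (h a)) x = x := swap_apply_of_ne_of_ne hxb hxc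
        rw [h0, swap_apply_of_ne_of_ne hxa hxb]
        by_cases hDx : D x
        · have h1 : h⁻¹ x = x := by
            rw [Perm.inv_eq_iff_eq]
            exact (hhE x (hDE x hDx) hxa).symm
          rw [h1]
          have h2 : g⁻¹ x ≠ a := by
            intro h3
            rw [Perm.inv_eq_iff_eq] at h3
            exact hxb h3
          rw [hhE _ (hDE _ (hDgi x hDx)) h2, app_inv]
        · have h2 : h⁻¹ x ≠ a := by
            intro h3
            rw [Perm.inv_eq_iff_eq] at h3
            exact hxc h3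
          have h3 : ¬ D (h⁻¹ x) := by
            intro h4
            have h5 := hhE _ (hDE _ h4) h2
            rw [app_inv] at h5
            exact hDx (h5 ▸ h4)
          rw [hgi _ h3, app_inv, hgD x hDx]

/-- **Bochert.** If a permutation group has no 3-cycle inside `X`, then there is `D ⊆ X` with
`2 |D| ≤ |X|` such that only the identity of the group fixes everything outside `X \ D`. -/
theorem bochert {V : Type} [DecidableEq V] [Fintype V] (G : Subgroup (Perm V)) (X : Finset V)
    (h3 : ∀ g ∈ G, g.IsThreeCycle → ¬ ∀ x, x ∉ X → g x = x) :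
    ∃ D : Finset V, D ⊆ X ∧ 2 * D.card ≤ X.card ∧
      ∀ g ∈ G, (∀ x, x ∉ X \ D → g x = x) → g = 1 := by
  classical
  let Q : Finset V → Prop := fun D => D ⊆ X ∧ ∀ g ∈ G, (∀ x, x ∉ X \ D → g x = x) → g = 1
  have hQ : ∃ D, Q D := by
    refine ⟨X, Finset.Subset.refl _, fun g _ h => ?_⟩
    ext x
    have h1 := h x (by simp)
    simpa using h1
  obtain ⟨n, hn⟩ : ∃ n, n = sInf {n | ∃ D, Q D ∧ D.card = n} := ⟨_, rfl⟩
  have hne : {n | ∃ D, Q D ∧ D.card = n}.Nonempty := by
    obtain ⟨D, hD⟩ := hQ
    exact ⟨_, D, hD, rfl⟩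
  obtain ⟨D, hD, hDn⟩ := Nat.sInf_mem hne
  have hmin : ∀ D', Q D' → D.card ≤ D'.card := by
    intro D' hD'
    rw [hDn]
    exact Nat.sInf_le ⟨D', hD', rfl⟩
  have hc : Q (X \ D) := by
    refine ⟨Finset.sdiff_subset, fun g hg hgf => ?_⟩
    by_contra hg1
    have hXD : X \ (X \ D) = D := by
      ext x
      simp only [Finset.mem_sdiff, not_and, not_not]
      exact ⟨fun h => h.2 h.1, fun h => ⟨hD.1 h, fun _ => h⟩⟩
    rw [hXD] at hgf
    obtain ⟨a, ha⟩ : ∃ a, g a ≠ a := by
      by_contra hcon
      push Not at hcon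
      exact hg1 (by ext x; simpa using hcon x)
    have haD : a ∈ D := by
      by_contra hn
      exact ha (hgf a hn)
    have hnot : ¬ Q (D.erase a) := by
      intro h
      have h1 := hmin _ h
      rw [Finset.card_erase_of_mem haD] at h1
      have h2 : 0 < D.card := Finset.card_pos.2 ⟨a, haD⟩
      omega
    have hex : ∃ h ∈ G, (∀ x, x ∉ X \ D.erase a → h x = x) ∧ h ≠ 1 := by
      by_contra hcon
      push Not at hcon
      exact hnot ⟨(Finset.erase_subset _ _).trans hD.1, fun h hh hf => hcon h hh hf⟩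
    obtain ⟨h, hhG, hhf, hh1⟩ := hex
    have hha : h a ≠ a := by
      intro hcon
      refine hh1 (hD.2 h hhG fun x hx => ?_)
      by_cases hxa : x = a
      · rw [hxa]; exact hcon
      · refine hhf x ?_
        rw [Finset.mem_sdiff, Finset.mem_erase]
        rw [Finset.mem_sdiff] at hx
        rintro ⟨h1, h2⟩
        exact hx ⟨h1, fun h3 => h2 ⟨hxa, h3⟩⟩
    obtain ⟨hc1, hc2, hc3⟩ := comm_three g h (fun x => x ∈ D) (fun x => x ∈ X \ D) a
      (fun x hx => hgf x hx)
      (fun x hx hxa => hhf x (by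
        rw [Finset.mem_sdiff, Finset.mem_erase]
        rw [Finset.mem_sdiff] at hx
        rintro ⟨h1, h2⟩
        exact hx ⟨h1, fun h3 => h2 ⟨hxa, h3⟩⟩))
      (fun x hx hx2 => (Finset.mem_sdiff.1 hx2).2 hx) haD ha hha
    have hab : g a ≠ h a := by
      intro h1
      exact (Finset.mem_sdiff.1 hc3).2 (h1 ▸ hc2)
    have hmem : g * h * g⁻¹ * h⁻¹ ∈ G :=
      G.mul_mem (G.mul_mem (G.mul_mem hg hhG) (G.inv_mem hg)) (G.inv_mem hhG)
    refine h3 _ hmem ?_ fun x hx => ?_
    · rw [hc1, swap_comm a (g a)]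
      exact Perm.isThreeCycle_swap_mul_swap_same ha hab (Ne.symm hha)
    · rw [hc1]
      have h4 : x ≠ a := fun h5 => hx (h5 ▸ hD.1 haD)
      have h5 : x ≠ g a := fun h5 => hx (h5 ▸ hD.1 hc2)
      have h6 : x ≠ h a := fun h6 => hx (h6 ▸ (Finset.mem_sdiff.1 hc3).1)
      rw [Perm.mul_apply, swap_apply_of_ne_of_ne h5 h6, swap_apply_of_ne_of_ne h4 h5]
  have hle := hmin _ hc
  have hcard : (X \ D).card + D.card = X.card := Finset.card_sdiff_add_card_eq_card hD.1
  exact ⟨D, hD.1, by omega, hD.2⟩

/-- A group of permutations which contains only the identity of `Sym(Y)` has order at most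
`|V|! / |Y|!`. -/
theorem card_mul_factorial_le {V : Type} [DecidableEq V] [Fintype V] (G : Subgroup (Perm V))
    (Y : Finset V) (h : ∀ g ∈ G, (∀ x, x ∉ Y → g x = x) → g = 1) :
    Nat.card G * Y.card.factorial ≤ (Fintype.card V).factorial := by
  classical
  let K : Subgroup (Perm V) :=
    { carrier := {s | ∀ x, x ∉ Y → s x = x}
      mul_mem' := fun {s s'} hs hs' x hx => by
        rw [Perm.mul_apply, hs' x hx, hs x hx]
      one_mem' := fun x _ => rfl
      inv_mem' := fun {s} hs x hx => by
        rw [Perm.inv_eq_iff_eq]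
        exact (hs x hx).symm }
  have hK : Nat.card K = Y.card.factorial := by
    have h1 : Nat.card K = Nat.card {f : Perm V // ∀ a, ¬ (a ∈ Y) → f a = a} := rfl
    rw [h1, ← Nat.card_congr (Perm.subtypeEquivSubtypePerm (fun a => a ∈ Y)),
      Nat.card_eq_fintype_card, Fintype.card_perm]
    congr 1
    simp
  have hdis : Disjoint G K := by
    rw [Subgroup.disjoint_def]
    intro g hg hgK
    exact h g hg hgK
  have hinj := Subgroup.mul_injective_of_disjoint hdis
  have h2 := Nat.card_le_card_of_injective _ hinj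
  rw [Nat.card_prod, hK, Nat.card_eq_fintype_card (α := Perm V), Fintype.card_perm] at h2
  exact h2

end Pool.Agent.PSX
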