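import Pool.Agent.PSY.SymD
import Pool.Agent.PSY.ClqD

set_option autoImplicit false

/-!
# CLIQUE with the number `k` in the input
-/

namespace Pool.Agent.PSX

open Pool.Agent.PSY

/-- The inputs of CLIQUE: one bit for every pair of vertices, and `N` bits for the number `k`. -/
abbrev InK (N : ℕ) : Type := Sym2 (Fin N) ⊕ Fin N

/-- CLIQUE: does the graph given by the first bits have a clique with `k` vertices, where `k` is
the number of ones among the last `N` bits? -/
noncomputable def cliqueK {N : ℕ} (X : InK N → Bool) : Bool :=
  clique (Finset.univ.filter fun j : Fin N => X (Sum.inr j) = true).card fun e => X (Sum.inl e)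

/-- The permutation `σ` of the vertices is a symmetry of the circuit up to the gates in `U`: the
permutation of the inputs which moves the pairs of vertices as `σ` and fixes the bits for `k` is
one. -/
def SymK {N : ℕ} (C : SymCircuit (InK N)) (U : Finset C.Gate) (σ : Equiv.Perm (Fin N)) : Prop :=
  ∃ s : Equiv.Perm (InK N), (∀ i, s i = Sum.map (Sym2.map σ) id i) ∧ C.IsSymmetry U s

end Pool.Agent.PSX
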