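import Pool.Agent.PSX.Fact
import Pool.Agent.PSX.DefK

set_option autoImplicit false

/-!
# The symmetries of a circuit for CLIQUE form a group; the number of all symmetries
-/

namespace Pool.Agent.PSX

open Pool.Agent.PSY

/-- The action of the permutations of the vertices on the inputs of CLIQUE. -/
def pairsK (N : ℕ) : Equiv.Perm (Fin N) →* Equiv.Perm (InK N) where
  toFun σ := Equiv.sumCongr (pairs σ) (Equiv.refl (Fin N))
  map_one' := by
    ext x
    rcases x with x | x
    · exact congrArg Sum.inl (by rw [map_one]; rfl)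
    · rfl
  map_mul' σ σ' := by
    ext x
    rcases x with x | x
    · exact congrArg Sum.inl (by rw [map_mul]; rfl)
    · rfl

theorem pairsK_apply (N : ℕ) (σ : Equiv.Perm (Fin N)) (i : InK N) :
    pairsK N σ i = Sum.map (Sym2.map σ) id i := by
  rcases i with x | x <;> rfl

theorem symK_iff {N : ℕ} (C : SymCircuit (InK N)) (U : Finset C.Gate) (σ : Equiv.Perm (Fin N)) :
    SymK C U σ ↔ C.IsSymmetry U (pairsK N σ) := by
  constructor
  · rintro ⟨s, h1, h2⟩
    have h3 : s = pairsK N σ := Equiv.ext fun i => by rw [h1, pairsK_apply]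
    rw [← h3]
    exact h2
  · intro h
    exact ⟨pairsK N σ, pairsK_apply N σ, h⟩

theorem symK_mul {N : ℕ} (C : SymCircuit (InK N)) (U : Finset C.Gate)
    (σ σ' : Equiv.Perm (Fin N)) (h : SymK C U σ) (h' : SymK C U σ') : SymK C U (σ * σ') := by
  rw [symK_iff] at h h' ⊢
  rw [map_mul]
  exact SymCircuit.isSymmetry_mul C U _ _ h h'

/-- The number of all symmetries from the number of the patterns on the blocks. -/
theorem cardK_of {N t X : ℕ} (b : Fin t × Fin 5 ↪ Fin N) (C : SymCircuit (InK N))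
    (U : Finset C.Gate)
    (h : Nat.card {a : Fin t → A5 // ∃ σ : Equiv.Perm (Fin N),
      (∀ i p, σ (b (i, p)) = b (i, (a i : Equiv.Perm (Fin 5)) p)) ∧ SymK C U σ} ≤ 12 ^ t * X) :
    Nat.card {σ : Equiv.Perm (Fin N) // SymK C U σ} * 5 ^ t ≤ N.factorial * X := by
  have h1 : Nat.card {σ : Equiv.Perm (Fin N) // SymK C U σ} =
      Nat.card {σ : Equiv.Perm (Fin N) // C.IsSymmetry U (pairsK N σ)} :=
    Nat.card_congr (Equiv.subtypeEquivRight fun σ => symK_iff C U σ)
  rw [h1]
  refine card_symmetry_le N t X b (pairsK N) C U (le_trans (le_of_eq ?_) h)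
  refine Nat.card_congr (Equiv.subtypeEquivRight fun a => ?_)
  constructor
  · rintro ⟨σ, h2, h3⟩
    exact ⟨σ, h3, (symK_iff C U σ).2 h2⟩
  · rintro ⟨σ, h2, h3⟩
    exact ⟨σ, (symK_iff C U σ).1 h3, h2⟩

end Pool.Agent.PSX
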