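import Pool.Agent.PSX.TauC

set_option autoImplicit false

/-!
# Clones do not change the clique number
-/

namespace Pool.Agent.PSX

open Pool.Agent.PSY

theorem substC_some {N : ℕ} {V : Type} (c : Fin N → Option V) (k : ℕ) (Y : Sym2 V → Bool)
    (x y : Fin N) (u v : V) (hx : c x = some u) (hy : c y = some v) (huv : u ≠ v) :
    subst (tauC c) (kapK k) Y (Sum.inl s(x, y)) = Y s(u, v) := by
  unfold subst
  rw [tauC_some c x y u v hx hy huv]
  rfl

theorem substC_true {N : ℕ} {V : Type} (c : Fin N → Option V) (k : ℕ) (Y : Sym2 V → Bool)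
    (x y : Fin N) (h : subst (tauC c) (kapK k) Y (Sum.inl s(x, y)) = true) :
    ∃ u v : V, c x = some u ∧ c y = some v ∧ u ≠ v := by
  by_contra hcon
  unfold subst at h
  rw [tauC_none c x y hcon] at h
  exact Bool.false_ne_true h

theorem cliqueK_restrC {N : ℕ} {V : Type} (c : Fin N → Option V) (hc : ∀ v, ∃ x, c x = some v)
    (k : ℕ) (h2 : 2 ≤ k) (hk : k ≤ N) (Y : Sym2 V → Bool) :
    cliqueK (subst (tauC c) (kapK k) Y) = clique k Y := by
  classical
  have hcard : (Finset.univ.filter fun j : Fin N =>
      subst (tauC c) (kapK k) Y (Sum.inr j) = true).card = k := by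
    have h1 : (Finset.univ.filter fun j : Fin N =>
        subst (tauC c) (kapK k) Y (Sum.inr j) = true) =
        Finset.univ.filter fun j : Fin N => j.1 < k := by
      refine Finset.filter_congr (fun j _ => ?_)
      change decide (j.1 < k) = true ↔ _
      rw [decide_eq_true_eq]
    rw [h1]
    have h3 : (Finset.univ.filter fun j : Fin N => j.1 < k) =
        Finset.univ.map (Fin.castLEEmb hk) := by
      ext j
      simp only [Finset.mem_filter, Finset.mem_univ, true_and, Finset.mem_map, Fin.castLEEmb_apply]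
      constructor
      · intro h
        exact ⟨⟨j.1, h⟩, Fin.ext rfl⟩
      · rintro ⟨i, rfl⟩
        exact i.2
    rw [h3, Finset.card_map, Finset.card_univ, Fintype.card_fin]
  unfold cliqueK
  rw [hcard]
  unfold clique
  rw [decide_eq_decide]
  constructor
  · rintro ⟨s, hs, hcl⟩
    have hr : ∀ x ∈ s, ∃ u, c x = some u := by
      intro x hx
      obtain ⟨y, hy, hyx⟩ := Finset.exists_mem_ne (by omega : 1 < s.card) x
      obtain ⟨u, _, hu, _⟩ := substC_true c k Y x y (hcl x hx y hy (Ne.symm hyx))
      exact ⟨u, hu⟩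
    obtain ⟨x0, hx0⟩ : s.Nonempty := Finset.card_pos.1 (by omega)
    obtain ⟨u0, _⟩ := hr x0 hx0
    have : Nonempty V := ⟨u0⟩
    choose! f hf using hr
    have hadj : ∀ x ∈ s, ∀ y ∈ s, x ≠ y → f x ≠ f y ∧ Y s(f x, f y) = true := by
      intro x hx y hy hxy
      have h3 := hcl x hx y hy hxy
      obtain ⟨u, v, hu, hv, huv⟩ := substC_true c k Y x y h3
      have e1 : f x = u := Option.some.inj ((hf x hx).symm.trans hu)
      have e2 : f y = v := Option.some.inj ((hf y hy).symm.trans hv)
      rw [e1, e2]
      refine ⟨huv, ?_⟩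
      rw [← substC_some c k Y x y u v hu hv huv]
      exact h3
    refine ⟨s.image f, ?_, ?_⟩
    · rw [Finset.card_image_of_injOn, hs]
      intro x hx y hy hxy
      by_contra hne
      exact (hadj x hx y hy hne).1 hxy
    · intro u hu v hv huv
      obtain ⟨x, hx, rfl⟩ := Finset.mem_image.1 hu
      obtain ⟨y, hy, rfl⟩ := Finset.mem_image.1 hv
      exact (hadj x hx y hy (fun h => huv (by rw [h]))).2
  · rintro ⟨s, hs, hcl⟩
    choose r hr using hc
    have hinj : Function.Injective r := by
      intro u v h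
      have h1 := hr u
      rw [h, hr v] at h1
      exact (Option.some.inj h1).symm
    refine ⟨s.image r, by rw [Finset.card_image_of_injective s hinj]; exact hs, ?_⟩
    intro x hx y hy hxy
    obtain ⟨u, hu, rfl⟩ := Finset.mem_image.1 hx
    obtain ⟨v, hv, rfl⟩ := Finset.mem_image.1 hy
    have huv : u ≠ v := fun h => hxy (by rw [h])
    change subst (tauC c) (kapK k) Y (Sum.inl s(r u, r v)) = true
    rw [substC_some c k Y (r u) (r v) u v (hr u) (hr v) huv]
    exact hcl u hu v hv huv

end Pool.Agent.PSX
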