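import Pool.Agent.PSX.TauK

set_option autoImplicit false

/-!
# CLIQUE after the substitution
-/

namespace Pool.Agent.PSX

open Pool.Agent.PSY

theorem subst_inr {N : ℕ} {V : Type} (b : V ↪ Fin N) (k : ℕ) (Y : Sym2 V → Bool) (j : Fin N) :
    subst (tauK b) (kapK k) Y (Sum.inr j : InK N) = decide (j.1 < k) := by
  unfold subst
  rw [tauK_inr]
  rfl

theorem subst_map {N : ℕ} {V : Type} (b : V ↪ Fin N) (k : ℕ) (Y : Sym2 V → Bool) (e : Sym2 V) :
    subst (tauK b) (kapK k) Y (Sum.inl (Sym2.map b e) : InK N) = Y e := by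
  unfold subst
  rw [tauK_map]
  rfl

theorem subst_none {N : ℕ} {V : Type} (b : V ↪ Fin N) (k : ℕ) (Y : Sym2 V → Bool)
    (e : Sym2 (Fin N)) (h : ¬ ∃ e', Sym2.map b e' = e) :
    subst (tauK b) (kapK k) Y (Sum.inl e : InK N) = false := by
  unfold subst
  rw [tauK_none b e h]
  rfl

theorem card_lt_filter {N k : ℕ} (hk : k ≤ N) :
    (Finset.univ.filter fun j : Fin N => j.1 < k).card = k := by
  rw [← Fintype.card_subtype]
  have e : {j : Fin N // j.1 < k} ≃ Fin k :=
    { toFun := fun j => ⟨j.1.1, j.2⟩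
      invFun := fun i => ⟨⟨i.1, lt_of_lt_of_le i.2 hk⟩, i.2⟩
      left_inv := fun j => rfl
      right_inv := fun i => rfl }
  rw [Fintype.card_congr e, Fintype.card_fin]

theorem mem_range_of_edge {N : ℕ} {V : Type} (b : V ↪ Fin N) (k : ℕ) (Y : Sym2 V → Bool)
    {x y : Fin N} (h : subst (tauK b) (kapK k) Y (Sum.inl s(x, y) : InK N) = true) :
    x ∈ Set.range b := by
  by_contra hx
  have h1 : ¬ ∃ e', Sym2.map b e' = s(x, y) := by
    rintro ⟨e', he'⟩
    have h2 : x ∈ Sym2.map b e' := by
      rw [he']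
      exact Sym2.mem_mk_left x y
    obtain ⟨a, -, ha⟩ := Sym2.mem_map.mp h2
    exact hx ⟨a, ha⟩
  rw [subst_none b k Y _ h1] at h
  exact absurd h (by decide)

/-- After the substitution CLIQUE is the clique function of the small graph. -/
theorem cliqueK_restr {N : ℕ} {V : Type} (b : V ↪ Fin N) (k : ℕ) (h2 : 2 ≤ k) (hk : k ≤ N)
    (Y : Sym2 V → Bool) : cliqueK (subst (tauK b) (kapK k) Y) = clique k Y := by
  classical
  unfold cliqueK
  have hcard : (Finset.univ.filter fun j : Fin N =>
      subst (tauK b) (kapK k) Y (Sum.inr j : InK N) = true).card = k := by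
    have h1 : (Finset.univ.filter fun j : Fin N =>
        subst (tauK b) (kapK k) Y (Sum.inr j : InK N) = true) =
        Finset.univ.filter fun j : Fin N => j.1 < k := by
      refine Finset.filter_congr fun j _ => ?_
      rw [subst_inr, decide_eq_true_eq]
    rw [h1, card_lt_filter hk]
  rw [hcard]
  unfold clique
  refine decide_eq_decide.mpr ⟨?_, ?_⟩
  · rintro ⟨s, hs, h⟩
    have hr : ∀ x ∈ s, x ∈ Set.range b := by
      intro x hx
      have h3 : 1 < s.card := by omega
      obtain ⟨y, hy, hxy⟩ := Finset.exists_mem_ne h3 x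
      exact mem_range_of_edge b k Y (h x hx y hy hxy.symm)
    refine ⟨s.preimage b b.injective.injOn, ?_, ?_⟩
    · rw [← hs]
      refine Finset.card_bij (fun v _ => b v) (fun v hv => Finset.mem_preimage.mp hv)
        (fun v _ w _ hvw => b.injective hvw) ?_
      intro x hx
      obtain ⟨v, rfl⟩ := hr x hx
      exact ⟨v, Finset.mem_preimage.mpr hx, rfl⟩
    · intro x hx y hy hxy
      have h4 := h (b x) (Finset.mem_preimage.mp hx) (b y) (Finset.mem_preimage.mp hy)
        (fun hb => hxy (b.injective hb))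
      have h5 : (s(b x, b y) : Sym2 (Fin N)) = Sym2.map b s(x, y) := rfl
      change subst (tauK b) (kapK k) Y (Sum.inl s(b x, b y) : InK N) = true at h4
      rw [h5, subst_map] at h4
      exact h4
  · rintro ⟨s, hs, h⟩
    refine ⟨s.map b, by rw [Finset.card_map, hs], ?_⟩
    intro x hx y hy hxy
    obtain ⟨v, hv, rfl⟩ := Finset.mem_map.mp hx
    obtain ⟨w, hw, rfl⟩ := Finset.mem_map.mp hy
    have h5 : (s(b v, b w) : Sym2 (Fin N)) = Sym2.map b s(v, w) := rfl
    have h6 : v ≠ w := fun hvw => hxy (by rw [hvw])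
    change subst (tauK b) (kapK k) Y (Sum.inl s(b v, b w) : InK N) = true
    rw [h5, subst_map]
    exact h v hv w hw h6

end Pool.Agent.PSX
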