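import Pool.Agent.PSY.FracN
import Pool.Agent.PSY.SymC

set_option autoImplicit false

/-!
# From the patterns on the blocks to all permutations of the vertices
-/

namespace Pool.Agent.PSY

/-- If a group of permutations of the vertices induces at most `12 ^ t * X` of the `60 ^ t` even
permutations of `t` disjoint five-element sets, then it has at most `N! X / 5 ^ t` elements. -/
theorem card_group_le (N t X : ℕ) (b : Fin t × Fin 5 ↪ Fin N)
    (H : Subgroup (Equiv.Perm (Fin N)))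
    (h : Nat.card {a : Fin t → A5 // ∃ σ ∈ H,
      ∀ i p, σ (b (i, p)) = b (i, (a i : Equiv.Perm (Fin 5)) p)} ≤ 12 ^ t * X) :
    Nat.card H * 5 ^ t ≤ N.factorial * X := by
  have h1 : Nat.card H * H.index = N.factorial := by
    rw [Subgroup.card_mul_index, Nat.card_eq_fintype_card, Fintype.card_perm, Fintype.card_fin]
  have h2 : Nat.card (H.comap (blk b)) * (H.comap (blk b)).index = 60 ^ t := by
    have h60 : Fintype.card A5 = 60 := by
      rw [← Nat.card_eq_fintype_card, nat_card_alternatingGroup, Nat.card_eq_fintype_card,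
        Fintype.card_fin]
      rfl
    rw [Subgroup.card_mul_index, Nat.card_eq_fintype_card, Fintype.card_fun, Fintype.card_fin,
      h60]
  have h3 : Nat.card (H.comap (blk b)) ≤ 12 ^ t * X := by
    refine le_trans (Nat.card_le_card_of_injective
      (fun x : H.comap (blk b) => (⟨x.1, blk b x.1, x.2, fun i p => blk_apply b x.1 i p⟩ :
        {a : Fin t → A5 // ∃ σ ∈ H,
          ∀ i p, σ (b (i, p)) = b (i, (a i : Equiv.Perm (Fin 5)) p)})) ?_) h
    intro x y hxy
    exact Subtype.ext (congrArg (fun z => z.1) hxy)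
  have h4 := index_comap_le (blk b) H
  have h5 : 60 ^ t ≤ 12 ^ t * X * H.index := by
    rw [← h2]
    exact Nat.mul_le_mul h3 h4
  have h6 : 12 ^ t * 5 ^ t ≤ 12 ^ t * (X * H.index) := by
    rw [← mul_pow, ← mul_assoc]
    exact h5
  have h7 : 5 ^ t ≤ X * H.index := Nat.le_of_mul_le_mul_left h6 (by positivity)
  calc Nat.card H * 5 ^ t ≤ Nat.card H * (X * H.index) := Nat.mul_le_mul_left _ h7
    _ = N.factorial * X := by rw [← h1]; ring

namespace SymCircuit

variable {I : Type}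

theorem isSymmetry_one (C : SymCircuit I) (U : Finset C.Gate) : C.IsSymmetry U 1 := by
  refine ⟨1, rfl, fun _ _ => rfl, fun g _ => ⟨rfl, fun x => ?_⟩⟩
  rcases x with x | x <;> rfl

theorem isSymmetry_mul (C : SymCircuit I) (U : Finset C.Gate) (s s' : Equiv.Perm I)
    (h : C.IsSymmetry U s) (h' : C.IsSymmetry U s') : C.IsSymmetry U (s * s') := by
  obtain ⟨π, h1, h2, h3⟩ := h
  obtain ⟨π', h1', h2', h3'⟩ := h'
  have hmem : ∀ g, g ∉ U → π' g ∉ U := by
    intro g hg hcon
    exact hg (π'.injective (h2' _ hcon) ▸ hcon)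
  refine ⟨π * π', ?_, fun g hg => ?_, fun g hg => ⟨?_, fun x => ?_⟩⟩
  · rw [Equiv.Perm.mul_apply, h1', h1]
  · rw [Equiv.Perm.mul_apply, h2' g hg, h2 g hg]
  · rw [Equiv.Perm.mul_apply, (h3 _ (hmem g hg)).1, (h3' g hg).1]
  · have h4 : Sum.map (π * π') (s * s') x = Sum.map π s (Sum.map π' s' x) := by
      rcases x with x | x <;> rfl
    rw [h4, Equiv.Perm.mul_apply, (h3 _ (hmem g hg)).2, (h3' g hg).2]

theorem isSymmetry_inv (C : SymCircuit I) (U : Finset C.Gate) (s : Equiv.Perm I)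
    (h : C.IsSymmetry U s) : C.IsSymmetry U s⁻¹ := by
  obtain ⟨π, h1, h2, h3⟩ := h
  have hr : ∀ g, π (π⁻¹ g) = g := fun g => perm_inv_right π g
  have hmem : ∀ g, g ∉ U → π⁻¹ g ∉ U := by
    intro g hg hcon
    have h4 := h2 _ hcon
    rw [hr] at h4
    exact hg (h4 ▸ hcon)
  refine ⟨π⁻¹, ?_, fun g hg => ?_, fun g hg => ⟨?_, fun x => ?_⟩⟩
  · rw [Equiv.Perm.inv_eq_iff_eq]; exact h1.symm
  · rw [Equiv.Perm.inv_eq_iff_eq]; exact (h2 g hg).symm
  · have h4 := (h3 (π⁻¹ g) (hmem g hg)).1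
    rw [hr] at h4
    exact h4.symm
  · have h4 := (h3 (π⁻¹ g) (hmem g hg)).2 (Sum.map (π⁻¹ : Equiv.Perm C.Gate) (s⁻¹ : Equiv.Perm I) x)
    have h5 : Sum.map π s (Sum.map (π⁻¹ : Equiv.Perm C.Gate) (s⁻¹ : Equiv.Perm I) x) = x := by
      rcases x with x | x
      · exact congrArg Sum.inl (perm_inv_right π x)
      · exact congrArg Sum.inr (perm_inv_right s x)
    rw [hr, h5] at h4
    exact h4.symm

/-- The permutations of the vertices which are symmetries of the circuit up to `U`. -/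
def symGroupS {V : Type} (f : Equiv.Perm V →* Equiv.Perm I) (C : SymCircuit I)
    (U : Finset C.Gate) : Subgroup (Equiv.Perm V) where
  carrier := {σ | C.IsSymmetry U (f σ)}
  one_mem' := by
    change C.IsSymmetry U (f 1)
    rw [map_one]
    exact isSymmetry_one C U
  mul_mem' := by
    intro σ σ' h h'
    change C.IsSymmetry U (f (σ * σ'))
    rw [map_mul]
    exact isSymmetry_mul C U _ _ h h'
  inv_mem' := by
    intro σ h
    change C.IsSymmetry U (f σ⁻¹)
    rw [map_inv]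
    exact isSymmetry_inv C U _ h

end SymCircuit

/-- The number of all symmetries from the number of the patterns which they induce. -/
theorem card_symmetry_le {I : Type} (N t X : ℕ) (b : Fin t × Fin 5 ↪ Fin N)
    (f : Equiv.Perm (Fin N) →* Equiv.Perm I) (C : SymCircuit I) (U : Finset C.Gate)
    (h : Nat.card {a : Fin t → A5 // ∃ σ : Equiv.Perm (Fin N), C.IsSymmetry U (f σ) ∧
      ∀ i p, σ (b (i, p)) = b (i, (a i : Equiv.Perm (Fin 5)) p)} ≤ 12 ^ t * X) :
    Nat.card {σ : Equiv.Perm (Fin N) // C.IsSymmetry U (f σ)} * 5 ^ t ≤ N.factorial * X :=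
  card_group_le N t X b (SymCircuit.symGroupS f C U) h

/-- The numbers for the theorem about arbitrary actions of alternating groups: if `t` blocks
exist whenever `m` is large, and `5 ^ t` is at most `(S + 1) ^ (24000 (F + 1))` for them, then `m`
is at most `170000 (F + 1) log N log (S + 1)`. -/
theorem num_act (N S F m : ℕ) (hN : 2 ≤ N) (hS : 1 ≤ S)
    (h : ∀ t : ℕ, t * (5 * Nat.log 5 N + 4) + 20 ≤ m → 5 ^ t ≤ (S + 1) ^ (24000 * (F + 1))) :
    m ≤ 170000 * (F + 1) * Nat.log 2 N * Nat.log 2 (S + 1) := by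
  obtain ⟨l, hl⟩ : ∃ l, l = Nat.log 2 (S + 1) := ⟨_, rfl⟩
  obtain ⟨n, hn⟩ : ∃ n, n = Nat.log 2 N := ⟨_, rfl⟩
  obtain ⟨q, hq⟩ : ∃ q, q = Nat.log 5 N := ⟨_, rfl⟩
  rw [← hl, ← hn]
  rw [← hq] at h
  have hl1 : 1 ≤ l := by rw [hl]; exact Nat.log_pos (by norm_num) (by omega)
  have hn1 : 1 ≤ n := by rw [hn]; exact Nat.log_pos (by norm_num) hN
  have hqn : 2 * q ≤ n := by
    rw [hn, hq]
    refine Nat.le_log_of_pow_le (by norm_num) ?_
    calc 2 ^ (2 * Nat.log 5 N) = 4 ^ Nat.log 5 N := by rw [pow_mul]; norm_num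
      _ ≤ 5 ^ Nat.log 5 N := Nat.pow_le_pow_left (by norm_num) _
      _ ≤ N := Nat.pow_log_le_self 5 (by omega)
  by_contra hcon
  push Not at hcon
  have ht := h (24000 * (F + 1) * l) ?_
  · have h1 : S + 1 < 2 ^ (l + 1) := by rw [hl]; exact Nat.lt_pow_succ_log_self (by norm_num) _
    have h2 : (S + 1) ^ (24000 * (F + 1)) < (2 ^ (l + 1)) ^ (24000 * (F + 1)) :=
      Nat.pow_lt_pow_left h1 (by omega)
    have h3 : (2 ^ (l + 1)) ^ (24000 * (F + 1)) ≤ 4 ^ (24000 * (F + 1) * l) := by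
      have h4 : (4 : ℕ) = 2 ^ 2 := by norm_num
      rw [h4, ← pow_mul, ← pow_mul]
      refine Nat.pow_le_pow_right (by norm_num) ?_
      nlinarith
    have h5 : 4 ^ (24000 * (F + 1) * l) ≤ 5 ^ (24000 * (F + 1) * l) :=
      Nat.pow_le_pow_left (by norm_num) _
    omega
  · have h1 : 5 * q + 4 ≤ 7 * n := by omega
    have h2 : 24000 * (F + 1) * l * (5 * q + 4) ≤ 24000 * (F + 1) * l * (7 * n) :=
      Nat.mul_le_mul_left _ h1
    have h3 : 1 ≤ (F + 1) * n * l := Nat.mul_pos (Nat.mul_pos (by omega) hn1) hl1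
    have h4 : 24000 * (F + 1) * l * (7 * n) = 168000 * ((F + 1) * n * l) := by ring
    have h5 : 170000 * (F + 1) * n * l = 170000 * ((F + 1) * n * l) := by ring
    omega

end Pool.Agent.PSY
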