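import Pool.Agent.PSX.DefK
import Pool.Agent.PSX.Fact

set_option autoImplicit false

/-!
# The degree of an alternating group of symmetries
-/

namespace Pool.Agent.PSX

open Pool.Agent.PSY

/-- **Assembly of the theorem on actions of alternating groups** from the two lemmas `blocks`
(group theory) and `part` (circuits). -/
theorem deg_of {N m : ℕ} (C : SymCircuit (InK N)) (U : Finset C.Gate)
    (θ : alternatingGroup (Fin m) →* Equiv.Perm (Fin N)) (hθ : ∃ g v, θ g v ≠ v)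
    (hsym : ∀ g, SymK C U (θ g))
    (blocks : ∀ t : ℕ, 1 ≤ t → t * (5 * Nat.log 5 N + 4) + 20 ≤ m →
      ∃ b : Fin t × Fin 5 ↪ Fin N, ∀ a : Fin t → A5, ∃ g : alternatingGroup (Fin m),
        ∀ i p, θ g (b (i, p)) = b (i, (a i : Equiv.Perm (Fin 5)) p))
    (part : ∀ (t : ℕ) (b : Fin t × Fin 5 ↪ Fin N),
      Nat.card {a : Fin t → A5 // ∃ σ : Equiv.Perm (Fin N),
        (∀ i p, σ (b (i, p)) = b (i, (a i : Equiv.Perm (Fin 5)) p)) ∧ SymK C U σ} ≤
        12 ^ t * (C.size + 1) ^ (24000 * (C.wires U + 1))) :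
    m ≤ 170000 * (C.wires U + 1) * Nat.log 2 N * Nat.log 2 (C.size + 1) := by
  have hN : 2 ≤ N := by
    obtain ⟨g, v, hv⟩ := hθ
    have h1 : Nontrivial (Fin N) := ⟨⟨_, _, hv⟩⟩
    exact Fin.nontrivial_iff_two_le.1 h1
  have hS : 1 ≤ C.size := by
    have : Nonempty C.Gate := ⟨C.out⟩
    exact Fintype.card_pos
  refine num_act N C.size (C.wires U) m hN hS fun t ht => ?_
  rcases Nat.eq_zero_or_pos t with rfl | htpos
  · rw [pow_zero]
    exact Nat.one_le_pow _ _ (Nat.succ_pos _)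
  obtain ⟨b, hb⟩ := blocks t htpos ht
  have h1 := part t b
  have h2 : Nat.card {a : Fin t → A5 // ∃ σ : Equiv.Perm (Fin N),
      (∀ i p, σ (b (i, p)) = b (i, (a i : Equiv.Perm (Fin 5)) p)) ∧ SymK C U σ} = 60 ^ t := by
    have h60 : Fintype.card A5 = 60 := by
      rw [← Nat.card_eq_fintype_card, nat_card_alternatingGroup, Nat.card_eq_fintype_card,
        Fintype.card_fin]
      rfl
    have h3 : Nat.card (Fin t → A5) = 60 ^ t := by
      rw [Nat.card_eq_fintype_card, Fintype.card_fun, Fintype.card_fin, h60]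
    rw [← h3]
    refine Nat.card_congr (Equiv.subtypeUnivEquiv fun a => ?_)
    obtain ⟨g, hg⟩ := hb a
    exact ⟨θ g, hg, hsym g⟩
  rw [h2] at h1
  have h4 : (60 : ℕ) ^ t = 12 ^ t * 5 ^ t := by
    rw [← mul_pow]
    norm_num
  rw [h4] at h1
  exact Nat.le_of_mul_le_mul_left h1 (pow_pos (by norm_num) _)

end Pool.Agent.PSX
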