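import Pool.Agent.PSX.DefK
import Pool.Agent.PSX.Fact

set_option autoImplicit false

/-!
# The degree of an alternating group of symmetries: the sharp form
-/

namespace Pool.Agent.PSX

open Pool.Agent.PSY

/-- The numbers: `m ≤ 5 log N + 5 log L + 4` (logarithms to base `5`), without logarithms. -/
theorem num_tight (N m L : ℕ) (hN : 1 ≤ N) (hL : 1 ≤ L)
    (h : ∀ t : ℕ, 1 ≤ t → 5 * Nat.log 5 N + 5 * t ≤ m → 5 ^ t ≤ L) :
    5 ^ m ≤ 625 * N ^ 5 * L ^ 5 := by
  obtain ⟨l, hl⟩ : ∃ l, l = Nat.log 5 N := ⟨_, rfl⟩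
  rw [← hl] at h
  have hlN : 5 ^ l ≤ N := by
    rw [hl]
    exact Nat.pow_log_le_self 5 (by omega)
  have h1 : ∃ t, m ≤ 5 * l + 5 * t + 4 ∧ 5 ^ t ≤ L := by
    rcases lt_or_ge m (5 * l + 5) with h2 | h2
    · exact ⟨0, by omega, by simpa using hL⟩
    · exact ⟨(m - 5 * l) / 5, by omega, h _ (by omega) (by omega)⟩
  obtain ⟨t, ht, htL⟩ := h1
  calc 5 ^ m ≤ 5 ^ (5 * l + 5 * t + 4) := Nat.pow_le_pow_right (by norm_num) ht
    _ = 625 * (5 ^ l) ^ 5 * (5 ^ t) ^ 5 := by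
        rw [pow_add, pow_add, ← pow_mul, ← pow_mul, mul_comm l 5, mul_comm t 5]
        ring
    _ ≤ 625 * N ^ 5 * L ^ 5 :=
        Nat.mul_le_mul (Nat.mul_le_mul_left _ (Nat.pow_le_pow_left hlN 5))
          (Nat.pow_le_pow_left htL 5)

/-- **Assembly of the theorem on actions of alternating groups** from the two lemmas `blocks`
(group theory) and `part` (circuits). -/
theorem deg1_of {N m : ℕ} (C : SymCircuit (InK N)) (U : Finset C.Gate)
    (θ : alternatingGroup (Fin m) →* Equiv.Perm (Fin N)) (hθ : ∃ g v, θ g v ≠ v)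
    (hsym : ∀ g, SymK C U (θ g))
    (blocks : ∀ t : ℕ, 1 ≤ t → 5 * Nat.log 5 N + 5 * t ≤ m →
      ∃ b : Fin t × Fin 5 ↪ Fin N, ∀ a : Fin t → A5, ∃ g : alternatingGroup (Fin m),
        ∀ i p, θ g (b (i, p)) = b (i, (a i : Equiv.Perm (Fin 5)) p))
    (part : ∀ (t : ℕ) (b : Fin t × Fin 5 ↪ Fin N),
      Nat.card {a : Fin t → A5 // ∃ σ : Equiv.Perm (Fin N),
        (∀ i p, σ (b (i, p)) = b (i, (a i : Equiv.Perm (Fin 5)) p)) ∧ SymK C U σ} ≤
        12 ^ t * (C.size + 1) ^ (24000 * (C.wires U + 1))) :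
    5 ^ m ≤ 625 * N ^ 5 * (C.size + 1) ^ (120000 * (C.wires U + 1)) := by
  have hN : 1 ≤ N := by
    obtain ⟨g, v, hv⟩ := hθ
    exact Fin.pos v
  have h0 := num_tight N m ((C.size + 1) ^ (24000 * (C.wires U + 1))) hN
    (Nat.one_le_pow _ _ (Nat.succ_pos _)) fun t htpos ht => by
      obtain ⟨b, hb⟩ := blocks t htpos ht
      have h1 := part t b
      have h2 : Nat.card {a : Fin t → A5 // ∃ σ : Equiv.Perm (Fin N),
          (∀ i p, σ (b (i, p)) = b (i, (a i : Equiv.Perm (Fin 5)) p)) ∧ SymK C U σ} =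
          60 ^ t := by
        have h60 : Fintype.card A5 = 60 := by
          rw [← Nat.card_eq_fintype_card, nat_card_alternatingGroup, Nat.card_eq_fintype_card,
            Fintype.card_fin]
          rfl
        have h3 : Nat.card (Fin t → A5) = 60 ^ t := by
          rw [Nat.card_eq_fintype_card, Fintype.card_fun, Fintype.card_fin, h60]
        rw [← h3]
        refine Nat.card_congr (Equiv.subtypeUnivEquiv fun a => ?_)
        obtain ⟨g, hg⟩ := hb a
        exact ⟨θ g, hg, hsym g⟩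
      rw [h2] at h1
      have h4 : (60 : ℕ) ^ t = 12 ^ t * 5 ^ t := by
        rw [← mul_pow]
        norm_num
      rw [h4] at h1
      exact Nat.le_of_mul_le_mul_left h1 (pow_pos (by norm_num) _)
  have h5 : ((C.size + 1) ^ (24000 * (C.wires U + 1))) ^ 5 =
      (C.size + 1) ^ (120000 * (C.wires U + 1)) := by
    obtain ⟨w, hw⟩ : ∃ w, w = C.wires U + 1 := ⟨_, rfl⟩
    rw [← hw, ← pow_mul]
    congr 1
    ring
  rw [h5] at h0
  exact h0

end Pool.Agent.PSX
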