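import Pool.Agent.PSX.Deg1

set_option autoImplicit false

/-!
# The degree of an alternating group of symmetries: the sharp form, from two blocks on
-/

namespace Pool.Agent.PSX

open Pool.Agent.PSY

/-- The numbers again, with the hypothesis for `2 ≤ t` only. -/
theorem num_tight2 (N m L : ℕ) (hN : 1 ≤ N) (hL : 5 ≤ L)
    (h : ∀ t : ℕ, 2 ≤ t → 5 * Nat.log 5 N + 5 * t ≤ m → 5 ^ t ≤ L) :
    5 ^ m ≤ 625 * N ^ 5 * L ^ 5 := by
  refine num_tight N m L hN (by omega) fun t ht1 ht => ?_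
  rcases Nat.lt_or_ge t 2 with h2 | h2
  · have h3 : t = 1 := by omega
    rw [h3, pow_one]
    exact hL
  · exact h t h2 ht

/-- **Assembly of the theorem on actions of alternating groups** from the two lemmas `blocks`
(group theory) and `part` (circuits). -/
theorem deg2_of {N m : ℕ} (C : SymCircuit (InK N)) (U : Finset C.Gate)
    (θ : alternatingGroup (Fin m) →* Equiv.Perm (Fin N)) (hθ : ∃ g v, θ g v ≠ v)
    (hsym : ∀ g, SymK C U (θ g))
    (blocks : ∀ t : ℕ, 2 ≤ t → 5 * Nat.log 5 N + 5 * t ≤ m →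
      ∃ b : Fin t × Fin 5 ↪ Fin N, ∀ a : Fin t → A5, ∃ g : alternatingGroup (Fin m),
        ∀ i p, θ g (b (i, p)) = b (i, (a i : Equiv.Perm (Fin 5)) p))
    (part : ∀ (t : ℕ) (b : Fin t × Fin 5 ↪ Fin N),
      Nat.card {a : Fin t → A5 // ∃ σ : Equiv.Perm (Fin N),
        (∀ i p, σ (b (i, p)) = b (i, (a i : Equiv.Perm (Fin 5)) p)) ∧ SymK C U σ} ≤
        12 ^ t * (C.size + 1) ^ (24000 * (C.wires U + 1))) :
    5 ^ m ≤ 625 * N ^ 5 * (C.size + 1) ^ (120000 * (C.wires U + 1)) := by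
  have hN : 1 ≤ N := by
    obtain ⟨g, v, hv⟩ := hθ
    exact Fin.pos v
  have hS : 1 ≤ C.size := by
    have : Nonempty C.Gate := ⟨C.out⟩
    exact Fintype.card_pos
  obtain ⟨S, hSe⟩ : ∃ S, S = C.size := ⟨_, rfl⟩
  obtain ⟨w, hw⟩ : ∃ w, w = C.wires U + 1 := ⟨_, rfl⟩
  have hw1 : 1 ≤ w := by omega
  rw [← hSe, ← hw]
  have hL : 5 ≤ (S + 1) ^ (24000 * w) := by
    calc 5 ≤ 2 ^ 3 := by norm_num
      _ ≤ 2 ^ (24000 * w) := Nat.pow_le_pow_right (by norm_num) (by omega)
      _ ≤ (S + 1) ^ (24000 * w) := Nat.pow_le_pow_left (by omega) _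
  have h0 := num_tight2 N m ((S + 1) ^ (24000 * w)) hN hL fun t ht2 ht => by
      obtain ⟨b, hb⟩ := blocks t ht2 ht
      have h1 := part t b
      rw [← hSe, ← hw] at h1
      have h2 : Nat.card {a : Fin t → A5 // ∃ σ : Equiv.Perm (Fin N),
          (∀ i p, σ (b (i, p)) = b (i, (a i : Equiv.Perm (Fin 5)) p)) ∧ SymK C U σ} =
          60 ^ t := by
        have h60 : Fintype.card A5 = 60 := by
          rw [← Nat.card_eq_fintype_card, nat_card_alternatingGroup, Nat.card_eq_fintype_card,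
            Fintype.card_fin]
          rfl
        have h3 : Nat.card (Fin t → A5) = 60 ^ t := by
          rw [Nat.card_eq_fintype_card, Fintype.card_fun, Fintype.card_fin, h60]
        rw [← h3]
        refine Nat.card_congr (Equiv.subtypeUnivEquiv fun a => ?_)
        obtain ⟨g, hg⟩ := hb a
        exact ⟨θ g, hg, hsym g⟩
      rw [h2] at h1
      have h4 : (60 : ℕ) ^ t = 12 ^ t * 5 ^ t := by
        rw [← mul_pow]
        norm_num
      rw [h4] at h1
      exact Nat.le_of_mul_le_mul_left h1 (pow_pos (by norm_num) _)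
  have h5 : ((S + 1) ^ (24000 * w)) ^ 5 = (S + 1) ^ (120000 * w) := by
    rw [← pow_mul]
    congr 1
    ring
  rw [h5] at h0
  exact h0

end Pool.Agent.PSX
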