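import Pool.Agent.PSX.Deg2

set_option autoImplicit false

/-!
# Sections: the degree of an alternating section of the group of symmetries
-/

namespace Pool.Agent.PSX

open Pool.Agent.PSY

/-- **Assembly of the theorem on alternating sections** from the two lemmas `sets` (group theory)
and `part` (circuits). -/
theorem sec_of {N m : ℕ} (hN : 1 ≤ N) (C : SymCircuit (InK N)) (U : Finset C.Gate)
    (G : Subgroup (Equiv.Perm (Fin N))) (hG : ∀ s ∈ G, SymK C U s)
    (sets : ∀ t : ℕ, 2 ≤ t → 5 * Nat.log 5 N + 5 * t ≤ m →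
      ∃ c : Fin N → Option (Fin t × Fin 5), (∀ q, ∃ x, c x = some q) ∧
        ∀ a : Fin t → A5, ∃ s ∈ G, ∀ x,
          c (s x) = (c x).map fun q => (q.1, (a q.1 : Equiv.Perm (Fin 5)) q.2))
    (part : ∀ (t : ℕ) (c : Fin N → Option (Fin t × Fin 5)), (∀ q, ∃ x, c x = some q) →
      Nat.card {a : Fin t → A5 // ∃ σ : Equiv.Perm (Fin N),
        (∀ x, c (σ x) = (c x).map fun q => (q.1, (a q.1 : Equiv.Perm (Fin 5)) q.2)) ∧
          SymK C U σ} ≤
        12 ^ t * (C.size + 1) ^ (24000 * (C.wires U + 1))) :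
    5 ^ m ≤ 625 * N ^ 5 * (C.size + 1) ^ (120000 * (C.wires U + 1)) := by
  have hS : 1 ≤ C.size := by
    have : Nonempty C.Gate := ⟨C.out⟩
    exact Fintype.card_pos
  obtain ⟨S, hSe⟩ : ∃ S, S = C.size := ⟨_, rfl⟩
  obtain ⟨w, hw⟩ : ∃ w, w = C.wires U + 1 := ⟨_, rfl⟩
  have hw1 : 1 ≤ w := by omega
  rw [← hSe, ← hw]
  have hL : 5 ≤ (S + 1) ^ (24000 * w) := by
    calc 5 ≤ 2 ^ 3 := by norm_num
      _ ≤ 2 ^ (24000 * w) := Nat.pow_le_pow_right (by norm_num) (by omega)
      _ ≤ (S + 1) ^ (24000 * w) := Nat.pow_le_pow_left (by omega) _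
  have h0 := num_tight2 N m ((S + 1) ^ (24000 * w)) hN hL fun t ht2 ht => by
      obtain ⟨c, hc, hb⟩ := sets t ht2 ht
      have h1 := part t c hc
      rw [← hSe, ← hw] at h1
      have h2 : Nat.card {a : Fin t → A5 // ∃ σ : Equiv.Perm (Fin N),
          (∀ x, c (σ x) = (c x).map fun q => (q.1, (a q.1 : Equiv.Perm (Fin 5)) q.2)) ∧
            SymK C U σ} = 60 ^ t := by
        have h60 : Fintype.card A5 = 60 := by
          rw [← Nat.card_eq_fintype_card, nat_card_alternatingGroup, Nat.card_eq_fintype_card,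
            Fintype.card_fin]
          rfl
        have h3 : Nat.card (Fin t → A5) = 60 ^ t := by
          rw [Nat.card_eq_fintype_card, Fintype.card_fun, Fintype.card_fin, h60]
        rw [← h3]
        refine Nat.card_congr (Equiv.subtypeUnivEquiv fun a => ?_)
        obtain ⟨s, hs, h⟩ := hb a
        exact ⟨s, h, hG s hs⟩
      rw [h2] at h1
      have h4 : (60 : ℕ) ^ t = 12 ^ t * 5 ^ t := by
        rw [← mul_pow]
        norm_num
      rw [h4] at h1
      exact Nat.le_of_mul_le_mul_left h1 (pow_pos (by norm_num) _)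
  have h5 : ((S + 1) ^ (24000 * w)) ^ 5 = (S + 1) ^ (120000 * w) := by
    rw [← pow_mul]
    congr 1
    ring
  rw [h5] at h0
  exact h0

/-- A group of permutations of `Fin N` which maps onto `A_m`, `3 ≤ m`, is not trivial. -/
theorem two_le_of_surj {N m : ℕ} (hm : 3 ≤ m) (G : Subgroup (Equiv.Perm (Fin N)))
    (f : G →* alternatingGroup (Fin m)) (hf : Function.Surjective f) : 2 ≤ N := by
  by_contra hN
  have h1 : Subsingleton (Fin N) := Fin.subsingleton_iff_le_one.2 (by omega)
  have h2 : Subsingleton G := inferInstance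
  have h3 : Subsingleton (alternatingGroup (Fin m)) := hf.subsingleton
  have h6 : Nontrivial (Fin m) := Fin.nontrivial_iff_two_le.2 (by omega)
  have h4 : Nat.card (alternatingGroup (Fin m)) = 1 := Nat.card_unique
  rw [nat_card_alternatingGroup, Nat.card_eq_fintype_card, Fintype.card_fin] at h4
  have h5 : 6 ≤ m.factorial := by
    calc 6 = Nat.factorial 3 := rfl
      _ ≤ m.factorial := Nat.factorial_le hm
  omega

end Pool.Agent.PSX
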