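import Pool.Agent.PSY.BlkA

set_option autoImplicit false

/-!
# The block permutations are even
-/

namespace Pool.Agent.PSX

open Pool.Agent.PSY

/-- The block permutations are even. -/
theorem blk_mem_alt {V ι : Type} [Fintype V] [DecidableEq V] [Fintype ι] [DecidableEq ι]
    (b : ι × Fin 5 ↪ V) (a : ι → A5) : blk b a ∈ alternatingGroup V := by
  rw [Equiv.Perm.mem_alternatingGroup]
  have h1 : ∀ e : Equiv.Perm (ι × Fin 5), Equiv.Perm.sign (Equiv.Perm.viaEmbedding e b) =
      Equiv.Perm.sign e := fun e => by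
    unfold Equiv.Perm.viaEmbedding
    exact @Equiv.Perm.sign_extendDomain _ _ _ _ _ _ e _
      (fun x => Classical.propDecidable (x ∈ Set.range b.1)) (Equiv.ofInjective b.1 b.2)
  have h2 : Equiv.Perm.sign (Equiv.prodCongrRight fun i => (a i : Equiv.Perm (Fin 5))) =
      ∏ k, Equiv.Perm.sign (a k : Equiv.Perm (Fin 5)) := Equiv.Perm.sign_prodCongrRight _
  have h3 : ∏ k, Equiv.Perm.sign (a k : Equiv.Perm (Fin 5)) = 1 :=
    Finset.prod_eq_one fun k _ => Equiv.Perm.mem_alternatingGroup.mp (a k).2
  rw [h3] at h2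
  exact (h1 _).trans h2

/-- The block permutations as a homomorphism into the alternating group. -/
noncomputable def blkA {V ι : Type} [Fintype V] [DecidableEq V] [Fintype ι] [DecidableEq ι]
    (b : ι × Fin 5 ↪ V) : (ι → A5) →* alternatingGroup V :=
  (blk b).codRestrict (alternatingGroup V) fun a => blk_mem_alt b a

theorem blkA_coe {V ι : Type} [Fintype V] [DecidableEq V] [Fintype ι] [DecidableEq ι]
    (b : ι × Fin 5 ↪ V) (a : ι → A5) : ((blkA b a : alternatingGroup V) : Equiv.Perm V) = blk b a :=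
  rfl

end Pool.Agent.PSX
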