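import Pool.Agent.PSX.Part

set_option autoImplicit false

/-!
# All patterns induced: few blocks
-/

namespace Pool.Agent.PSX

open Pool.Agent.PSY

/-- If symmetries induce all even permutations of `t` blocks, then `5 ^ t` is small. -/
theorem pow_le_of_blocks {N t : ℕ} {G : Type} (θ : G → Equiv.Perm (Fin N))
    (b : Fin t × Fin 5 ↪ Fin N)
    (hb : ∀ a : Fin t → A5, ∃ g : G, ∀ i p,
      θ g (b (i, p)) = b (i, (a i : Equiv.Perm (Fin 5)) p))
    (C : SymCircuit (InK N)) (hC : C.Computes cliqueK) (U : Finset C.Gate)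
    (hsym : ∀ g, SymK C U (θ g)) :
    5 ^ t ≤ (C.size + 1) ^ (24000 * (C.wires U + 1)) := by
  have h1 := partK N t b C hC U
  have h2 : Nat.card {a : Fin t → alternatingGroup (Fin 5) // ∃ σ : Equiv.Perm (Fin N),
        (∀ i p, σ (b (i, p)) = b (i, (a i : Equiv.Perm (Fin 5)) p)) ∧ SymK C U σ} = 60 ^ t := by
    rw [← card_pow t]
    refine Nat.card_congr (Equiv.subtypeUnivEquiv (fun a => ?_))
    obtain ⟨g, hg⟩ := hb a
    exact ⟨θ g, hg, hsym g⟩
  rw [h2] at h1
  have h3 : 12 ^ t * 5 ^ t ≤ 12 ^ t * (C.size + 1) ^ (24000 * (C.wires U + 1)) := by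
    rw [← mul_pow]
    exact h1
  exact Nat.le_of_mul_le_mul_left h3 (by positivity)

end Pool.Agent.PSX
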