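import Pool.Agent.PSX.Boch
import Pool.Agent.PSX.AltR
import Pool.Agent.PSX.Fin
import Pool.Agent.PSX.CardK

set_option autoImplicit false

/-!
# The index of the symmetry group of a circuit for CLIQUE
-/

namespace Pool.Agent.PSX

open Pool.Agent.PSY AltR

/-- Outside a maximal family of disjoint five-element sets whose alternating groups lie in `G`
there is no such set. -/
theorem exists_no5 {N T : ℕ} (G : Subgroup (Equiv.Perm (Fin N)))
    (hT : ∀ (s : ℕ) (b : Fin s × Fin 5 ↪ Fin N), (∀ i, AltIn G (blkSet b i)) → s ≤ T) :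
    ∃ W : Finset (Fin N), N ≤ W.card + 5 * T ∧
      ∀ Y : Finset (Fin N), Y ⊆ W → Y.card = 5 → ¬ AltIn G Y := by
  classical
  have hex : ∃ s, ∃ b : Fin s × Fin 5 ↪ Fin N, ∀ i, AltIn G (blkSet b i) :=
    ⟨0, ⟨fun x => x.1.elim0, fun x => x.1.elim0⟩, fun i => i.elim0⟩
  have hbd : ∀ s, (∃ b : Fin s × Fin 5 ↪ Fin N, ∀ i, AltIn G (blkSet b i)) → s ≤ T := by
    rintro s ⟨b, hb⟩
    exact hT s b hb
  obtain ⟨s, ⟨b, hb⟩, hmax⟩ : ∃ s, (∃ b : Fin s × Fin 5 ↪ Fin N,
      ∀ i, AltIn G (blkSet b i)) ∧ ∀ s', (∃ b : Fin s' × Fin 5 ↪ Fin N,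
      ∀ i, AltIn G (blkSet b i)) → s' ≤ s := by
    refine ⟨Nat.findGreatest (fun s => ∃ b : Fin s × Fin 5 ↪ Fin N,
      ∀ i, AltIn G (blkSet b i)) T, ?_, ?_⟩
    · obtain ⟨s, hs⟩ := hex
      exact Nat.findGreatest_spec (P := fun s => ∃ b : Fin s × Fin 5 ↪ Fin N,
        ∀ i, AltIn G (blkSet b i)) (hbd s hs) hs
    · intro s' hs'
      exact Nat.le_findGreatest (hbd s' hs') hs'
  have hs := hbd s ⟨b, hb⟩
  let R : Finset (Fin N) := (Finset.univ : Finset (Fin s × Fin 5)).map b
  have hR : R.card = 5 * s := by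
    rw [Finset.card_map, Finset.card_univ, Fintype.card_prod, Fintype.card_fin, Fintype.card_fin,
      mul_comm]
  refine ⟨Rᶜ, by rw [Finset.card_compl, hR, Fintype.card_fin]; omega, ?_⟩
  intro Y hY hYc hgood
  have hYR : ∀ p, Y.orderEmbOfFin hYc p ∉ Set.range b := by
    rintro p ⟨x, hx⟩
    have h1 := hY (Finset.orderEmbOfFin_mem Y hYc p)
    rw [Finset.mem_compl] at h1
    refine h1 ?_
    rw [← hx]
    exact Finset.mem_map_of_mem b (Finset.mem_univ x)
  let F : Fin (s + 1) → Fin 5 → Fin N :=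
    Fin.snoc (α := fun _ => Fin 5 → Fin N) (fun i p => b (i, p)) (Y.orderEmbOfFin hYc)
  have hF1 : ∀ i : Fin s, ∀ p, F i.castSucc p = b (i, p) := by
    intro i p
    simp only [F, Fin.snoc_castSucc]
  have hF2 : ∀ p, F (Fin.last s) p = Y.orderEmbOfFin hYc p := by
    intro p
    simp only [F, Fin.snoc_last]
  have hinj : Function.Injective fun x : Fin (s + 1) × Fin 5 => F x.1 x.2 := by
    rintro ⟨i, p⟩ ⟨j, q⟩ h
    change F i p = F j q at h
    induction i using Fin.lastCases with
    | last =>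
      induction j using Fin.lastCases with
      | last =>
        rw [hF2, hF2] at h
        rw [(Y.orderEmbOfFin hYc).injective h]
      | cast j =>
        rw [hF2, hF1] at h
        exact absurd ⟨(j, q), h.symm⟩ (hYR p)
    | cast i =>
      induction j using Fin.lastCases with
      | last =>
        rw [hF2, hF1] at h
        exact absurd ⟨(i, p), h⟩ (hYR q)
      | cast j =>
        rw [hF1, hF1] at h
        have h2 := b.injective h
        rw [Prod.mk.injEq] at h2
        rw [h2.1, h2.2]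
  have h3 := hmax (s + 1) ⟨⟨_, hinj⟩, fun i => by
    induction i using Fin.lastCases with
    | last =>
      have h4 : blkSet ⟨fun x : Fin (s + 1) × Fin 5 => F x.1 x.2, hinj⟩ (Fin.last s) = Y := by
        ext x
        rw [mem_blkSet, ← Finset.mem_coe, ← Finset.range_orderEmbOfFin Y hYc]
        simp only [Function.Embedding.coeFn_mk, hF2, Set.mem_range]
      rw [h4]
      exact hgood
    | cast i =>
      have h4 : blkSet ⟨fun x : Fin (s + 1) × Fin 5 => F x.1 x.2, hinj⟩ i.castSucc =
          blkSet b i := by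
        ext x
        rw [mem_blkSet, mem_blkSet]
        simp only [Function.Embedding.coeFn_mk, hF1]
      rw [h4]
      exact hb i⟩
  omega

/-- If a group contains the alternating groups of the blocks, then it contains all even block
permutations. -/
theorem blk_mem_of_altIn {N s : ℕ} (G : Subgroup (Equiv.Perm (Fin N)))
    (b : Fin s × Fin 5 ↪ Fin N) (hb : ∀ i, AltIn G (blkSet b i)) (a : Fin s → A5) :
    blk b a ∈ G := by
  classical
  have h1 : a ∈ G.comap (blk b) := by
    refine Subgroup.pi_mem_of_mulSingle_mem a fun i => ?_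
    rw [Subgroup.mem_comap]
    refine hb i _ (Equiv.Perm.mem_alternatingGroup.mp (blk_mem_alt b _)) fun z hz => ?_
    by_cases hr : z ∈ Set.range b
    · obtain ⟨⟨j, p⟩, rfl⟩ := hr
      rw [blk_apply]
      by_cases hji : j = i
      · exact absurd (mem_blkSet.2 ⟨p, by rw [hji]⟩) hz
      · rw [Pi.mulSingle_eq_of_ne hji]
        rfl
    · exact blk_apply_of_not b _ z hr
  exact h1

/-- **The index of the symmetry group** of a circuit for CLIQUE is at least `q!`. -/
theorem index_symK {N : ℕ} (C : SymCircuit (InK N)) (hC : C.Computes cliqueK)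
    (U : Finset C.Gate) (q t : ℕ)
    (ht : (C.size + 1) ^ (24000 * (C.wires U + 1)) < 5 ^ t) (hq : 4 * q + 5 * t ≤ N + 8) :
    Nat.card {σ : Equiv.Perm (Fin N) // SymK C U σ} * q.factorial ≤ N.factorial := by
  classical
  set G : Subgroup (Equiv.Perm (Fin N)) := SymCircuit.symGroupS (pairsK N) C U with hG
  have hmem : ∀ σ, σ ∈ G ↔ SymK C U σ := fun σ => (symK_iff C U σ).symm
  have hT : ∀ (s : ℕ) (b : Fin s × Fin 5 ↪ Fin N), (∀ i, AltIn G (blkSet b i)) → s ≤ t - 1 := by
    intro s b hb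
    have h1 := pow_le_of_blocks (fun g : G => (g : Equiv.Perm (Fin N))) b
      (fun a => ⟨⟨blk b a, blk_mem_of_altIn G b hb a⟩, fun i p => blk_apply b a i p⟩) C hC U
      (fun g => (hmem g).1 g.2)
    have h2 : s < t := (Nat.pow_lt_pow_iff_right (by norm_num : 1 < 5)).mp (h1.trans_lt ht)
    omega
  have ht0 : t ≠ 0 := by
    rintro rfl
    have h1 : 1 ≤ (C.size + 1) ^ (24000 * (C.wires U + 1)) := Nat.one_le_pow _ _ (Nat.succ_pos _)
    rw [pow_zero] at ht
    exact absurd (h1.trans_lt ht) (lt_irrefl 1)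
  obtain ⟨W, hW1, hW2⟩ := exists_no5 G hT
  have h1 := index_of_no5 G W hW2 q (by omega)
  have h2 : Nat.card G * G.index = N.factorial := by
    rw [Subgroup.card_mul_index, Nat.card_perm, Nat.card_eq_fintype_card, Fintype.card_fin]
  have h3 : Nat.card {σ : Equiv.Perm (Fin N) // SymK C U σ} = Nat.card G :=
    Nat.card_congr (Equiv.subtypeEquivRight fun σ => (hmem σ).symm)
  rw [h3, ← h2]
  exact Nat.mul_le_mul_left _ h1

end Pool.Agent.PSX
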