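import Mathlib

set_option autoImplicit false

/-!
# The numbers for the theorem about actions of alternating groups
-/

namespace Pool.Agent.PSX

/-- If `5 ^ t ≤ (S + 1) ^ (24000 (F + 1))` for all `t ≥ 1` with `5 log_5 N + 5 t ≤ m`, then `m` is
at most `3 log N + 120000 (F + 1) log (S + 1)`. -/
theorem num_act1 (N S F m : ℕ) (hN : 2 ≤ N) (hS : 1 ≤ S)
    (h : ∀ t : ℕ, 1 ≤ t → 5 * Nat.log 5 N + 5 * t ≤ m →
      5 ^ t ≤ (S + 1) ^ (24000 * (F + 1))) :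
    m ≤ 3 * Nat.log 2 N + 120000 * (F + 1) * Nat.log 2 (S + 1) := by
  obtain ⟨l, hl⟩ : ∃ l, l = Nat.log 2 (S + 1) := ⟨_, rfl⟩
  obtain ⟨n, hn⟩ : ∃ n, n = Nat.log 2 N := ⟨_, rfl⟩
  obtain ⟨q, hq⟩ : ∃ q, q = Nat.log 5 N := ⟨_, rfl⟩
  rw [← hl, ← hn]
  rw [← hq] at h
  have hl1 : 1 ≤ l := by rw [hl]; exact Nat.log_pos (by norm_num) (by omega)
  have hqn : 2 * q ≤ n := by
    rw [hn, hq]
    refine Nat.le_log_of_pow_le (by norm_num) ?_
    calc 2 ^ (2 * Nat.log 5 N) = 4 ^ Nat.log 5 N := by rw [pow_mul]; norm_num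
      _ ≤ 5 ^ Nat.log 5 N := Nat.pow_le_pow_left (by norm_num) _
      _ ≤ N := Nat.pow_log_le_self 5 (by omega)
  have hE : 1 ≤ (F + 1) * l := Nat.mul_pos (by omega) hl1
  have hE2 : 24000 * (F + 1) * l = 24000 * ((F + 1) * l) := by ring
  have hE3 : 120000 * (F + 1) * l = 120000 * ((F + 1) * l) := by ring
  by_contra hcon
  push Not at hcon
  have ht := h (24000 * (F + 1) * l) (by omega) (by omega)
  have h1 : S + 1 < 2 ^ (l + 1) := by rw [hl]; exact Nat.lt_pow_succ_log_self (by norm_num) _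
  have h2 : (S + 1) ^ (24000 * (F + 1)) < (2 ^ (l + 1)) ^ (24000 * (F + 1)) :=
    Nat.pow_lt_pow_left h1 (by omega)
  have h3 : (2 ^ (l + 1)) ^ (24000 * (F + 1)) ≤ 4 ^ (24000 * (F + 1) * l) := by
    have h4 : (4 : ℕ) = 2 ^ 2 := by norm_num
    rw [h4, ← pow_mul, ← pow_mul]
    refine Nat.pow_le_pow_right (by norm_num) ?_
    nlinarith
  have h5 : 4 ^ (24000 * (F + 1) * l) ≤ 5 ^ (24000 * (F + 1) * l) :=
    Nat.pow_le_pow_left (by norm_num) _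
  omega

end Pool.Agent.PSX
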