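import Pool.Agent.PSX.ClqK
import Pool.Agent.PSY.Frac
import Pool.Agent.PSY.SymC

set_option autoImplicit false

/-!
# Symmetries which may move the vertices outside the blocks arbitrarily
-/

namespace Pool.Agent.PSX

open Pool.Agent.PSY Pool.Agent.NXL

/-- The action of the permutations of the vertices on the inputs. -/
def onK {N : ℕ} : Equiv.Perm (Fin N) →* Equiv.Perm (InK N) where
  toFun σ := Equiv.sumCongr (pairs σ) (Equiv.refl _)
  map_one' := by
    ext i
    rcases i with e | j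
    · simp
    · simp
  map_mul' σ σ' := by
    ext i
    rcases i with e | j
    · simp
    · simp

theorem onK_inl {N : ℕ} (σ : Equiv.Perm (Fin N)) (e : Sym2 (Fin N)) :
    onK σ (Sum.inl e) = Sum.inl (Sym2.map σ e) := rfl

theorem onK_inr {N : ℕ} (σ : Equiv.Perm (Fin N)) (j : Fin N) :
    onK σ (Sum.inr j) = Sum.inr j := rfl

/-- The element `a` of `A_5^ι` is induced on the blocks by a symmetry of the circuit up to `U`. -/
def IndK {N : ℕ} {ι : Type} (b : ι × Fin 5 ↪ Fin N) (C : Circuit (InK N)) (U : Finset C.Gate)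
    (a : ι → A5) : Prop :=
  ∃ σ : Equiv.Perm (Fin N), (∀ i p, σ (b (i, p)) = b (i, (a i : Equiv.Perm (Fin 5)) p)) ∧
    ∃ π, C.AutU U (onK σ) π

theorem tauK_onK {N : ℕ} {ι : Type} [DecidableEq ι] (b : ι × Fin 5 ↪ Fin N) (a : ι → A5)
    (σ : Equiv.Perm (Fin N)) (h : ∀ i p, σ (b (i, p)) = b (i, (a i : Equiv.Perm (Fin 5)) p))
    (i : InK N) : tauK b (onK σ i) =
      (tauK b i).map (pairs (blk (Function.Embedding.refl (ι × Fin 5)) a)) := by
  classical
  have hb : ∀ x : ι × Fin 5, blk (Function.Embedding.refl (ι × Fin 5)) a x =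
      (x.1, (a x.1 : Equiv.Perm (Fin 5)) x.2) := fun x =>
    blk_apply (Function.Embedding.refl (ι × Fin 5)) a x.1 x.2
  have hσ : ∀ x : ι × Fin 5, σ (b x) = b (blk (Function.Embedding.refl (ι × Fin 5)) a x) := by
    intro x
    rw [hb]
    exact h x.1 x.2
  have hσ' : ∀ x : ι × Fin 5, σ.symm (b x) =
      b ((blk (Function.Embedding.refl (ι × Fin 5)) a).symm x) := by
    intro x
    rw [Equiv.symm_apply_eq, hσ, Equiv.apply_symm_apply]
  have hmap : ∀ e : Sym2 (ι × Fin 5), Sym2.map σ (Sym2.map b e) =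
      Sym2.map b (Sym2.map (blk (Function.Embedding.refl (ι × Fin 5)) a) e) := by
    intro e
    rw [Sym2.map_map, Sym2.map_map]
    refine congrFun (congrArg Sym2.map ?_) e
    funext x
    exact hσ x
  have hmap' : ∀ e : Sym2 (ι × Fin 5), Sym2.map σ.symm (Sym2.map b e) =
      Sym2.map b (Sym2.map (blk (Function.Embedding.refl (ι × Fin 5)) a).symm e) := by
    intro e
    rw [Sym2.map_map, Sym2.map_map]
    refine congrFun (congrArg Sym2.map ?_) e
    funext x
    exact hσ' x
  rcases i with e | j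
  · rw [onK_inl]
    by_cases he : ∃ e', Sym2.map b e' = e
    · obtain ⟨e', rfl⟩ := he
      rw [hmap, tauK_map, tauK_map]
      rfl
    · rw [tauK_none b e he, tauK_none b _ ?_]
      · rfl
      · rintro ⟨e'', he''⟩
        refine he ⟨Sym2.map (blk (Function.Embedding.refl (ι × Fin 5)) a).symm e'', ?_⟩
        rw [← hmap', he'', Sym2.map_map]
        simp
  · rw [onK_inr, tauK_inr]
    rfl

theorem kapK_onK {N : ℕ} (k : ℕ) (σ : Equiv.Perm (Fin N)) (i : InK N) :
    kapK k (onK σ i) = kapK k i := by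
  rcases i with e | j
  · rfl
  · rfl

/-- The lower bound for the blocks of the instance. -/
theorem lowK {N M : ℕ} [NeZero M] (hM : Odd M) (b : Nd M × Fin 5 ↪ Fin N) (C : Circuit (InK N))
    (hC : C.Computes cliqueK) (U : Finset C.Gate) (m : ℕ) (hm2 : 2 ≤ m)
    (hm : 1280 * ((C.wiresInto U + 1) * m) < 7 * M ^ 2) (hinv : ∀ a : Nd M → A5, IndK b C U a) :
    2 ^ (m + 1) ≤ C.size := by
  classical
  have hM1 : 1 ≤ M ^ 2 := Nat.one_le_iff_ne_zero.2 (pow_ne_zero 2 (NeZero.ne M))
  have hcardN : 5 * (8 * M ^ 2) ≤ N := by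
    have h1 := Fintype.card_le_of_embedding b
    rw [Fintype.card_prod, card_Nd, Fintype.card_fin, Fintype.card_fin] at h1
    omega
  refine clique_lowerU hM (Function.Embedding.refl (Nd M × Fin 5)) ∅ (by simp) m hm2
    (C.restr (tauK b) (kapK (8 * M ^ 2))) U ?_ ?_ ?_
  · have h1 := restr_wires C (tauK b) (kapK (8 * M ^ 2)) U
    have h2 : ((C.restr (tauK b) (kapK (8 * M ^ 2))).wiresInto U + 1) * m ≤
        (C.wiresInto U + 1) * m := Nat.mul_le_mul_right m (by omega)
    omega
  · intro a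
    obtain ⟨σ, h1, π, h2⟩ := hinv a
    exact ⟨π, restr_autU C _ _ U (onK σ) _ (tauK_onK b a σ h1) (kapK_onK _ σ) π h2⟩
  · intro Y
    have h1 := restr_val C (tauK b) (kapK (8 * M ^ 2)) Y C.out
    have h2 := hC (subst (tauK b) (kapK (8 * M ^ 2)) Y)
    rw [cliqueK_restr b (8 * M ^ 2) (by omega) (by omega) Y] at h2
    rw [Finset.card_empty, zero_add, ← h2]
    exact h1

/-- The lower bound for any number of blocks. -/
theorem block_lowK {N : ℕ} (t : ℕ) (b : Fin t × Fin 5 ↪ Fin N) (C : Circuit (InK N))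
    (hC : C.Computes cliqueK) (U : Finset C.Gate) (hinv : ∀ a : Fin t → A5, IndK b C U a) :
    2 ^ (t / (4000 * (C.wiresInto U + 1))) ≤ C.size := by
  classical
  obtain ⟨F, hF⟩ : ∃ F, F = C.wiresInto U := ⟨_, rfl⟩
  rw [← hF]
  obtain ⟨e, he⟩ : ∃ e, e = t / (4000 * (F + 1)) := ⟨_, rfl⟩
  rw [← he]
  rcases Nat.eq_zero_or_pos e with h0 | he1
  · rw [h0, pow_zero]
    exact Fintype.card_pos_iff.2 ⟨C.out⟩
  · have hte : 4000 * (F + 1) * e ≤ t := by
      rw [he]
      exact Nat.mul_div_le t (4000 * (F + 1))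
    have ht : 4000 ≤ t := by
      have h1 : 4000 * (F + 1) * e = 4000 * ((F + 1) * e) := by ring
      have h2 : 1 ≤ (F + 1) * e := Nat.mul_pos (Nat.succ_pos F) he1
      omega
    obtain ⟨M, hM, h8, h5, h441⟩ := choose_M2 t (by omega)
    have : NeZero M := ⟨by rintro rfl; norm_num at h441⟩
    have hcard : Fintype.card (Nd M) ≤ Fintype.card (Fin t) := by
      rw [card_Nd, Fintype.card_fin]
      exact h8
    obtain ⟨j⟩ := Function.Embedding.nonempty_of_card_le hcard
    have hnum : 1280 * ((F + 1) * max (e - 1) 2) < 7 * M ^ 2 := by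
      have h1 : max (e - 1) 2 ≤ 2 * e := by omega
      have h2 : (F + 1) * max (e - 1) 2 ≤ (F + 1) * (2 * e) := Nat.mul_le_mul_left _ h1
      have h3 : (F + 1) * (2 * e) = 2 * ((F + 1) * e) := by ring
      have h4 : 4000 * (F + 1) * e = 4000 * ((F + 1) * e) := by ring
      omega
    rw [hF] at hnum
    refine (Nat.pow_le_pow_right (by norm_num) (by omega : e ≤ max (e - 1) 2 + 1)).trans ?_
    refine lowK hM ((j.prodMap (Function.Embedding.refl (Fin 5))).trans b) C hC U
      (max (e - 1) 2) (le_max_right _ _) hnum ?_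
    intro a
    obtain ⟨σ, h1, h2⟩ := hinv (Function.extend j a 1)
    refine ⟨σ, fun i p => ?_, h2⟩
    change σ (b (j i, p)) = b (j i, (a i : Equiv.Perm (Fin 5)) p)
    rw [h1, j.injective.extend_apply]

/-- From a lower bound for circuits with all symmetries in some blocks to the number of
symmetries. -/
theorem card_le_of_blocks (t D S : ℕ) (hD : 0 < D) (H : Subgroup (Fin t → A5))
    (hblock : ∀ (t' : ℕ) (j : Fin t' ↪ Fin t),
      (∀ a : Fin t → A5, (∀ i, i ∉ Set.range j → a i = 1) → a ∈ H) → 2 ^ (t' / D) ≤ S) :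
    Nat.card H ≤ 12 ^ t * (2 * S) ^ (3 * D) := by
  classical
  obtain ⟨B, hB⟩ : ∃ B : Finset (Fin t),
      B = Finset.univ.filter (fun i => ∃ x : A5, Pi.mulSingle i x ∉ H) := ⟨_, rfl⟩
  have hmemB : ∀ i, i ∈ B ↔ ∃ x : A5, Pi.mulSingle i x ∉ H := by
    intro i; rw [hB]; simp
  have h1 : 5 ^ B.card ≤ H.index := support5_le H B (fun i hi => (hmemB i).1 hi)
  have hoff : ∀ a : Fin t → A5, (∀ i ∈ B, a i = 1) → a ∈ H := by
    intro a ha
    refine Subgroup.pi_mem_of_mulSingle_mem a (fun i => ?_)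
    by_cases hi : i ∈ B
    · rw [ha i hi, Pi.mulSingle_one]
      exact one_mem _
    · by_contra hcon
      exact hi ((hmemB i).2 ⟨_, hcon⟩)
  have hBt : B.card ≤ t := by
    have := Finset.card_le_univ B
    rwa [Fintype.card_fin] at this
  have hcompl : (Bᶜ).card = t - B.card := by
    rw [Finset.card_compl, Fintype.card_fin]
  let j : Fin (t - B.card) ↪ Fin t :=
    ((Bᶜ).orderEmbOfFin hcompl).toEmbedding
  have hj : ∀ n, j n ∉ B := by
    intro n
    have : (Bᶜ).orderEmbOfFin hcompl n ∈ Bᶜ := Finset.orderEmbOfFin_mem _ _ _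
    exact Finset.mem_compl.1 this
  have h2 := hblock (t - B.card) j (fun a ha => hoff a (fun i hi => ha i (by
    rintro ⟨n, hn⟩
    exact hj n (hn ▸ hi))))
  have h3 : 2 ^ (t - B.card) ≤ (2 * S) ^ D := by
    calc 2 ^ (t - B.card) ≤ 2 ^ (((t - B.card) / D + 1) * D) := by
          refine Nat.pow_le_pow_right (by norm_num) ?_
          have := Nat.lt_div_mul_add (a := t - B.card) hD
          rw [Nat.add_mul]
          omega
      _ = (2 * 2 ^ ((t - B.card) / D)) ^ D := by
          rw [pow_mul, pow_succ]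
          ring
      _ ≤ (2 * S) ^ D := Nat.pow_le_pow_left (Nat.mul_le_mul_left 2 h2) D
  have h5 : 5 ^ (t - B.card) ≤ (2 * S) ^ (3 * D) := by
    calc 5 ^ (t - B.card) ≤ 8 ^ (t - B.card) := Nat.pow_le_pow_left (by norm_num) _
      _ = (2 ^ (t - B.card)) ^ 3 := by
          rw [← pow_mul, mul_comm, pow_mul]
          norm_num
      _ ≤ ((2 * S) ^ D) ^ 3 := Nat.pow_le_pow_left h3 3
      _ = (2 * S) ^ (3 * D) := by rw [← pow_mul, mul_comm D 3]
  have h4 : Nat.card H * H.index = 60 ^ t := by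
    rw [H.card_mul_index, card_pow]
  have h6 : 5 ^ t * Nat.card H ≤ 5 ^ t * (12 ^ t * (2 * S) ^ (3 * D)) := by
    calc 5 ^ t * Nat.card H = Nat.card H * (5 ^ B.card * 5 ^ (t - B.card)) := by
          rw [← pow_add, Nat.add_sub_of_le hBt]
          ring
      _ ≤ Nat.card H * (H.index * (2 * S) ^ (3 * D)) :=
          Nat.mul_le_mul_left _ (Nat.mul_le_mul h1 h5)
      _ = (Nat.card H * H.index) * (2 * S) ^ (3 * D) := by ring
      _ = (5 * 12) ^ t * (2 * S) ^ (3 * D) := by rw [h4]
      _ = 5 ^ t * (12 ^ t * (2 * S) ^ (3 * D)) := by rw [mul_pow]; ring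
  exact Nat.le_of_mul_le_mul_left h6 (by positivity)

/-- The elements of `A_5^t` which are induced by symmetries. -/
def HK {N t : ℕ} (b : Fin t × Fin 5 ↪ Fin N) (C : Circuit (InK N)) (U : Finset C.Gate) :
    Subgroup (Fin t → A5) where
  carrier := {a | IndK b C U a}
  one_mem' := ⟨1, fun i p => rfl, 1, by rw [map_one]; exact autU_one C U⟩
  mul_mem' := by
    rintro a a' ⟨σ, h1, π, h2⟩ ⟨σ', h1', π', h2'⟩
    refine ⟨σ * σ', fun i p => ?_, π * π', by rw [map_mul]; exact autU_mul C U _ _ _ _ h2 h2'⟩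
    rw [Equiv.Perm.mul_apply, h1', h1]
    rfl
  inv_mem' := by
    rintro a ⟨σ, h1, π, h2⟩
    refine ⟨σ⁻¹, fun i p => ?_, π⁻¹, by rw [map_inv]; exact autU_inv C U _ _ h2⟩
    rw [Equiv.Perm.inv_eq_iff_eq, h1]
    exact congrArg (fun x => b (i, x)) (Equiv.apply_symm_apply _ _).symm

theorem mem_HK {N t : ℕ} {b : Fin t × Fin 5 ↪ Fin N} {C : Circuit (InK N)}
    {U : Finset C.Gate} {a : Fin t → A5} : a ∈ HK b C U ↔ IndK b C U a := Iff.rfl

/-- The number of induced elements, for circuits with weights. -/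
theorem card_HK_le {N t : ℕ} (b : Fin t × Fin 5 ↪ Fin N) (C : Circuit (InK N))
    (hC : C.Computes cliqueK) (U : Finset C.Gate) :
    Nat.card (HK b C U) ≤ 12 ^ t * (2 * C.size) ^ (12000 * (C.wiresInto U + 1)) := by
  have h2 := card_le_of_blocks t (4000 * (C.wiresInto U + 1)) C.size (by positivity) (HK b C U)
    (fun t' j h => block_lowK t' ((j.prodMap (Function.Embedding.refl (Fin 5))).trans b) C hC U
      (fun a => by
        obtain ⟨σ, h1, h3⟩ := mem_HK.1 (h (Function.extend j a 1) (fun i hi => by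
          rw [Function.extend_apply' _ _ _ (fun h => hi h)]
          rfl))
        refine ⟨σ, fun i p => ?_, h3⟩
        change σ (b (j i, p)) = b (j i, (a i : Equiv.Perm (Fin 5)) p)
        rw [h1, j.injective.extend_apply]))
  have h3 : 3 * (4000 * (C.wiresInto U + 1)) = 12000 * (C.wiresInto U + 1) := by ring
  rwa [h3] at h2

/-- **The symmetries of a circuit for CLIQUE**, which may move the vertices outside the blocks
arbitrarily, induce few even permutations of the blocks. -/
theorem partK (N t : ℕ) (b : Fin t × Fin 5 ↪ Fin N) (C : SymCircuit (InK N))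
    (hC : C.Computes cliqueK) (U : Finset C.Gate) :
    Nat.card {a : Fin t → alternatingGroup (Fin 5) // ∃ σ : Equiv.Perm (Fin N),
        (∀ i p, σ (b (i, p)) = b (i, (a i : Equiv.Perm (Fin 5)) p)) ∧ SymK C U σ} ≤
      12 ^ t * (C.size + 1) ^ (24000 * (C.wires U + 1)) := by
  have h1 := card_HK_le b C.toCircuit (C.toCircuit_computes _ hC) U
  have h2 : Nat.card {a : Fin t → alternatingGroup (Fin 5) // ∃ σ : Equiv.Perm (Fin N),
        (∀ i p, σ (b (i, p)) = b (i, (a i : Equiv.Perm (Fin 5)) p)) ∧ SymK C U σ} ≤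
      Nat.card (HK b C.toCircuit U) := by
    refine Nat.card_le_card_of_injective
      (fun x : {a : Fin t → alternatingGroup (Fin 5) // ∃ σ : Equiv.Perm (Fin N),
        (∀ i p, σ (b (i, p)) = b (i, (a i : Equiv.Perm (Fin 5)) p)) ∧ SymK C U σ} =>
        (⟨x.1, by
          obtain ⟨σ, h3, s, h4, h5⟩ := x.2
          have h6 : s = onK σ := by
            ext i
            rw [h4 i]
            rfl
          rw [h6] at h5
          exact mem_HK.2 ⟨σ, h3, C.toCircuit_autU U _ h5⟩⟩ : HK b C.toCircuit U)) ?_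
    intro x y hxy
    exact Subtype.ext (congrArg (fun z : HK b C.toCircuit U => z.1) hxy)
  refine h2.trans (h1.trans (Nat.mul_le_mul_left _ ?_))
  have h3 : C.toCircuit.size = C.size := rfl
  rw [h3]
  have h4 := C.toCircuit_wires U
  calc (2 * C.size) ^ (12000 * (C.toCircuit.wiresInto U + 1))
      ≤ (C.size + 1) ^ (2 * (12000 * (C.toCircuit.wiresInto U + 1))) :=
        two_mul_pow_le _ _
    _ ≤ (C.size + 1) ^ (24000 * (C.wires U + 1)) := by
        refine Nat.pow_le_pow_right (Nat.succ_pos _) ?_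
        omega

end Pool.Agent.PSX
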