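import Pool.Agent.PSX.ClqC
import Pool.Agent.PSX.Part

set_option autoImplicit false

/-!
# Symmetries which permute the sets of clones of the points of the blocks
-/

namespace Pool.Agent.PSX

open Pool.Agent.PSY Pool.Agent.NXL

/-- The element `a` of `A_5^ι` is induced on the sets of clones by a symmetry of the circuit up to
`U`. -/
def IndC {N : ℕ} {ι : Type} (c : Fin N → Option (ι × Fin 5)) (C : Circuit (InK N))
    (U : Finset C.Gate) (a : ι → A5) : Prop :=
  ∃ σ : Equiv.Perm (Fin N),
    (∀ x, c (σ x) = (c x).map (fun q => (q.1, (a q.1 : Equiv.Perm (Fin 5)) q.2))) ∧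
    ∃ π, C.AutU U (onK σ) π

theorem tauC_onK {N : ℕ} {ι : Type} [DecidableEq ι] (c : Fin N → Option (ι × Fin 5))
    (a : ι → A5) (σ : Equiv.Perm (Fin N))
    (h : ∀ x, c (σ x) = (c x).map (fun q => (q.1, (a q.1 : Equiv.Perm (Fin 5)) q.2)))
    (i : InK N) : tauC c (onK σ i) =
      (tauC c i).map (pairs (blk (Function.Embedding.refl (ι × Fin 5)) a)) := by
  classical
  obtain ⟨g, hg⟩ : ∃ g : Equiv.Perm (ι × Fin 5),
      g = blk (Function.Embedding.refl (ι × Fin 5)) a := ⟨_, rfl⟩
  rw [← hg]
  have hb : ∀ x : ι × Fin 5, g x = (x.1, (a x.1 : Equiv.Perm (Fin 5)) x.2) := fun x => by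
    rw [hg]
    exact blk_apply (Function.Embedding.refl (ι × Fin 5)) a x.1 x.2
  have h' : ∀ x, c (σ x) = (c x).map g := by
    intro x
    rw [h x]
    cases c x with
    | none => rfl
    | some q =>
      change some _ = some (g q)
      rw [hb]
  rcases i with e | j
  · induction e using Sym2.ind with
    | _ x y =>
      rw [onK_inl, Sym2.map_mk]
      by_cases hxy : ∃ u v : ι × Fin 5, c x = some u ∧ c y = some v ∧ u ≠ v
      · obtain ⟨u, v, hx, hy, huv⟩ := hxy
        rw [tauC_some c x y u v hx hy huv,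
          tauC_some c (σ x) (σ y) (g u) (g v) (by rw [h', hx]; rfl) (by rw [h', hy]; rfl)
            (fun h1 => huv (g.injective h1))]
        rfl
      · rw [tauC_none c x y hxy, tauC_none c (σ x) (σ y) ?_]
        · rfl
        · rintro ⟨u, v, hx, hy, huv⟩
          rw [h'] at hx hy
          obtain ⟨u', hu', rfl⟩ := Option.map_eq_some_iff.1 hx
          obtain ⟨v', hv', rfl⟩ := Option.map_eq_some_iff.1 hy
          exact hxy ⟨u', v', hu', hv', fun h1 => huv (by rw [h1])⟩
  · rw [onK_inr, tauC_inr]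
    rfl

/-- The lower bound for the blocks of the instance. -/
theorem lowC {N M : ℕ} [NeZero M] (hM : Odd M) (c : Fin N → Option (Nd M × Fin 5))
    (hc : ∀ q, ∃ x, c x = some q) (C : Circuit (InK N))
    (hC : C.Computes cliqueK) (U : Finset C.Gate) (m : ℕ) (hm2 : 2 ≤ m)
    (hm : 1280 * ((C.wiresInto U + 1) * m) < 7 * M ^ 2) (hinv : ∀ a : Nd M → A5, IndC c C U a) :
    2 ^ (m + 1) ≤ C.size := by
  classical
  have hM1 : 1 ≤ M ^ 2 := Nat.one_le_iff_ne_zero.2 (pow_ne_zero 2 (NeZero.ne M))
  have hcardN : 5 * (8 * M ^ 2) ≤ N := by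
    choose f hf using hc
    have hinj : Function.Injective f := by
      intro q q' h
      have h1 := hf q
      rw [h, hf q'] at h1
      exact (Option.some.inj h1).symm
    have h1 := Fintype.card_le_of_injective f hinj
    rw [Fintype.card_prod, card_Nd, Fintype.card_fin, Fintype.card_fin] at h1
    omega
  refine clique_lowerU hM (Function.Embedding.refl (Nd M × Fin 5)) ∅ (by simp) m hm2
    (C.restr (tauC c) (kapK (8 * M ^ 2))) U ?_ ?_ ?_
  · have h1 := restr_wires C (tauC c) (kapK (8 * M ^ 2)) U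
    have h2 : ((C.restr (tauC c) (kapK (8 * M ^ 2))).wiresInto U + 1) * m ≤
        (C.wiresInto U + 1) * m := Nat.mul_le_mul_right m (by omega)
    omega
  · intro a
    obtain ⟨σ, h1, π, h2⟩ := hinv a
    exact ⟨π, restr_autU C _ _ U (onK σ) _ (tauC_onK c a σ h1) (kapK_onK _ σ) π h2⟩
  · intro Y
    have h1 := restr_val C (tauC c) (kapK (8 * M ^ 2)) Y C.out
    have h2 := hC (subst (tauC c) (kapK (8 * M ^ 2)) Y)
    rw [cliqueK_restrC c hc (8 * M ^ 2) (by omega) (by omega) Y] at h2
    rw [Finset.card_empty, zero_add, ← h2]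
    exact h1

open Classical in
/-- The clones of the points of some of the blocks. -/
noncomputable def subC {N : ℕ} {ι κ : Type} (j : κ ↪ ι) (c : Fin N → Option (ι × Fin 5)) :
    Fin N → Option (κ × Fin 5) :=
  fun x => (c x).bind (fun q => if h : ∃ n, j n = q.1 then some (h.choose, q.2) else none)

theorem subC_some {N : ℕ} {ι κ : Type} (j : κ ↪ ι) (c : Fin N → Option (ι × Fin 5)) (x : Fin N)
    (n : κ) (p : Fin 5) (h : c x = some (j n, p)) : subC j c x = some (n, p) := by
  classical
  have h1 : ∃ n', j n' = j n := ⟨n, rfl⟩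
  unfold subC
  rw [h]
  change (if h : ∃ n', j n' = j n then some (h.choose, p) else none) = _
  rw [dif_pos h1]
  rw [j.injective h1.choose_spec]

theorem subC_none {N : ℕ} {ι κ : Type} (j : κ ↪ ι) (c : Fin N → Option (ι × Fin 5)) (x : Fin N)
    (h : c x = none) : subC j c x = none := by
  unfold subC
  rw [h]
  rfl

theorem subC_none' {N : ℕ} {ι κ : Type} (j : κ ↪ ι) (c : Fin N → Option (ι × Fin 5)) (x : Fin N)
    (i : ι) (p : Fin 5) (hi : ¬ ∃ n, j n = i) (h : c x = some (i, p)) : subC j c x = none := by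
  classical
  unfold subC
  rw [h]
  change (if h : ∃ n', j n' = i then some (h.choose, p) else none) = _
  rw [dif_neg hi]

theorem subC_surj {N : ℕ} {ι κ : Type} (j : κ ↪ ι) (c : Fin N → Option (ι × Fin 5))
    (hc : ∀ q, ∃ x, c x = some q) (q : κ × Fin 5) : ∃ x, subC j c x = some q := by
  obtain ⟨x, hx⟩ := hc (j q.1, q.2)
  exact ⟨x, subC_some j c x q.1 q.2 hx⟩

theorem IndC.sub {N : ℕ} {ι κ : Type} (j : κ ↪ ι) (c : Fin N → Option (ι × Fin 5))
    (C : Circuit (InK N)) (U : Finset C.Gate) (a : κ → A5)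
    (h : IndC c C U (Function.extend j a 1)) : IndC (subC j c) C U a := by
  obtain ⟨σ, h1, h2⟩ := h
  refine ⟨σ, fun x => ?_, h2⟩
  cases hx : c x with
  | none =>
    rw [subC_none j c x hx, subC_none j c (σ x) (by rw [h1, hx]; rfl)]
    rfl
  | some q =>
    obtain ⟨i, p⟩ := q
    by_cases hi : ∃ n, j n = i
    · obtain ⟨n, rfl⟩ := hi
      have h3 : c (σ x) = some (j n, (a n : Equiv.Perm (Fin 5)) p) := by
        rw [h1, hx]
        change some (j n, ((Function.extend j a 1 (j n) : A5) : Equiv.Perm (Fin 5)) p) = _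
        rw [j.injective.extend_apply]
      rw [subC_some j c x n p hx, subC_some j c (σ x) n _ h3]
      rfl
    · have h3 : c (σ x) = some (i, ((Function.extend j a 1 i : A5) : Equiv.Perm (Fin 5)) p) := by
        rw [h1, hx]
        rfl
      rw [subC_none' j c x i p hi hx, subC_none' j c (σ x) i _ hi h3]
      rfl

/-- The lower bound for any number of blocks. -/
theorem block_lowC {N : ℕ} (t : ℕ) (c : Fin N → Option (Fin t × Fin 5))
    (hc : ∀ q, ∃ x, c x = some q) (C : Circuit (InK N))
    (hC : C.Computes cliqueK) (U : Finset C.Gate) (hinv : ∀ a : Fin t → A5, IndC c C U a) :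
    2 ^ (t / (4000 * (C.wiresInto U + 1))) ≤ C.size := by
  classical
  obtain ⟨F, hF⟩ : ∃ F, F = C.wiresInto U := ⟨_, rfl⟩
  rw [← hF]
  obtain ⟨e, he⟩ : ∃ e, e = t / (4000 * (F + 1)) := ⟨_, rfl⟩
  rw [← he]
  rcases Nat.eq_zero_or_pos e with h0 | he1
  · rw [h0, pow_zero]
    exact Fintype.card_pos_iff.2 ⟨C.out⟩
  · have hte : 4000 * (F + 1) * e ≤ t := by
      rw [he]
      exact Nat.mul_div_le t (4000 * (F + 1))
    have ht : 4000 ≤ t := by
      have h1 : 4000 * (F + 1) * e = 4000 * ((F + 1) * e) := by ring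
      have h2 : 1 ≤ (F + 1) * e := Nat.mul_pos (Nat.succ_pos F) he1
      omega
    obtain ⟨M, hM, h8, h5, h441⟩ := choose_M2 t (by omega)
    have : NeZero M := ⟨by rintro rfl; norm_num at h441⟩
    have hcard : Fintype.card (Nd M) ≤ Fintype.card (Fin t) := by
      rw [card_Nd, Fintype.card_fin]
      exact h8
    obtain ⟨j⟩ := Function.Embedding.nonempty_of_card_le hcard
    have hnum : 1280 * ((F + 1) * max (e - 1) 2) < 7 * M ^ 2 := by
      have h1 : max (e - 1) 2 ≤ 2 * e := by omega
      have h2 : (F + 1) * max (e - 1) 2 ≤ (F + 1) * (2 * e) := Nat.mul_le_mul_left _ h1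
      have h3 : (F + 1) * (2 * e) = 2 * ((F + 1) * e) := by ring
      have h4 : 4000 * (F + 1) * e = 4000 * ((F + 1) * e) := by ring
      omega
    rw [hF] at hnum
    refine (Nat.pow_le_pow_right (by norm_num) (by omega : e ≤ max (e - 1) 2 + 1)).trans ?_
    exact lowC hM (subC j c) (subC_surj j c hc) C hC U
      (max (e - 1) 2) (le_max_right _ _) hnum
      (fun a => IndC.sub j c C U a (hinv (Function.extend j a 1)))

/-- The elements of `A_5^t` which are induced by symmetries. -/
def HC {N t : ℕ} (c : Fin N → Option (Fin t × Fin 5)) (C : Circuit (InK N))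
    (U : Finset C.Gate) : Subgroup (Fin t → A5) where
  carrier := {a | IndC c C U a}
  one_mem' := ⟨1, fun x => by
    rw [Equiv.Perm.one_apply]
    cases c x with
    | none => rfl
    | some q => rfl, 1, by rw [map_one]; exact autU_one C U⟩
  mul_mem' := by
    rintro a a' ⟨σ, h1, π, h2⟩ ⟨σ', h1', π', h2'⟩
    refine ⟨σ * σ', fun x => ?_, π * π', by rw [map_mul]; exact autU_mul C U _ _ _ _ h2 h2'⟩
    rw [Equiv.Perm.mul_apply, h1, h1']
    cases c x with
    | none => rfl
    | some q => rfl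
  inv_mem' := by
    rintro a ⟨σ, h1, π, h2⟩
    refine ⟨σ⁻¹, fun x => ?_, π⁻¹, by rw [map_inv]; exact autU_inv C U _ _ h2⟩
    have h3 := h1 (σ⁻¹ x)
    rw [perm_inv_right] at h3
    rw [h3]
    cases c (σ⁻¹ x) with
    | none => rfl
    | some q =>
      change some q = some (q.1, ((a⁻¹) q.1 : Equiv.Perm (Fin 5))
        ((a q.1 : Equiv.Perm (Fin 5)) q.2))
      refine congrArg some (Prod.ext rfl ?_)
      exact (Equiv.symm_apply_apply _ _).symm

theorem mem_HC {N t : ℕ} {c : Fin N → Option (Fin t × Fin 5)} {C : Circuit (InK N)}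
    {U : Finset C.Gate} {a : Fin t → A5} : a ∈ HC c C U ↔ IndC c C U a := Iff.rfl

/-- The number of induced elements, for circuits with weights. -/
theorem card_HC_le {N t : ℕ} (c : Fin N → Option (Fin t × Fin 5))
    (hc : ∀ q, ∃ x, c x = some q) (C : Circuit (InK N))
    (hC : C.Computes cliqueK) (U : Finset C.Gate) :
    Nat.card (HC c C U) ≤ 12 ^ t * (2 * C.size) ^ (12000 * (C.wiresInto U + 1)) := by
  have h2 := card_le_of_blocks t (4000 * (C.wiresInto U + 1)) C.size (by positivity) (HC c C U)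
    (fun t' j h => block_lowC t' (subC j c) (subC_surj j c hc) C hC U
      (fun a => IndC.sub j c C U a (mem_HC.1 (h (Function.extend j a 1) (fun i hi => by
          rw [Function.extend_apply' _ _ _ (fun h => hi h)]
          rfl)))))
  have h3 : 3 * (4000 * (C.wiresInto U + 1)) = 12000 * (C.wiresInto U + 1) := by ring
  rwa [h3] at h2

/-- **The symmetries of a circuit for CLIQUE** induce few even permutations of `t` blocks of five
disjoint sets of vertices. -/
theorem partC (N t : ℕ) (c : Fin N → Option (Fin t × Fin 5)) (hc : ∀ q, ∃ x, c x = some q)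
    (C : SymCircuit (InK N)) (hC : C.Computes cliqueK) (U : Finset C.Gate) :
    Nat.card {a : Fin t → alternatingGroup (Fin 5) // ∃ σ : Equiv.Perm (Fin N),
        (∀ x, c (σ x) = (c x).map (fun q => (q.1, (a q.1 : Equiv.Perm (Fin 5)) q.2))) ∧
          SymK C U σ} ≤
      12 ^ t * (C.size + 1) ^ (24000 * (C.wires U + 1)) := by
  have h1 := card_HC_le c hc C.toCircuit (C.toCircuit_computes _ hC) U
  have h2 : Nat.card {a : Fin t → alternatingGroup (Fin 5) // ∃ σ : Equiv.Perm (Fin N),
        (∀ x, c (σ x) = (c x).map (fun q => (q.1, (a q.1 : Equiv.Perm (Fin 5)) q.2))) ∧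
          SymK C U σ} ≤ Nat.card (HC c C.toCircuit U) := by
    refine Nat.card_le_card_of_injective
      (fun x : {a : Fin t → alternatingGroup (Fin 5) // ∃ σ : Equiv.Perm (Fin N),
        (∀ x, c (σ x) = (c x).map (fun q => (q.1, (a q.1 : Equiv.Perm (Fin 5)) q.2))) ∧
          SymK C U σ} =>
        (⟨x.1, by
          obtain ⟨σ, h3, s, h4, h5⟩ := x.2
          have h6 : s = onK σ := by
            ext i
            rw [h4 i]
            rfl
          rw [h6] at h5
          exact mem_HC.2 ⟨σ, h3, C.toCircuit_autU U _ h5⟩⟩ : HC c C.toCircuit U)) ?_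
    intro x y hxy
    exact Subtype.ext (congrArg (fun z : HC c C.toCircuit U => z.1) hxy)
  refine h2.trans (h1.trans (Nat.mul_le_mul_left _ ?_))
  have h3 : C.toCircuit.size = C.size := rfl
  rw [h3]
  have h4 := C.toCircuit_wires U
  calc (2 * C.size) ^ (12000 * (C.toCircuit.wiresInto U + 1))
      ≤ (C.size + 1) ^ (2 * (12000 * (C.toCircuit.wiresInto U + 1))) :=
        two_mul_pow_le _ _
    _ ≤ (C.size + 1) ^ (24000 * (C.wires U + 1)) := by
        refine Nat.pow_le_pow_right (Nat.succ_pos _) ?_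
        omega

end Pool.Agent.PSX
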