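import Pool.Agent.PSY.AltAct1

set_option autoImplicit false

/-!
# Sections of permutation groups that are alternating groups

If a group `G` of permutations of `V` has the alternating group of degree `m` as a quotient, then,
for `5 log_5 |V| + 5 t ≤ m`, there are `t` blocks of five disjoint nonempty subsets of `V` on which
every element of `A_5 ^ t` is induced by an element of `G`.
-/

namespace Pool.Agent.PSX

open Equiv Pool.Agent.PSY

section orbits
variable {V A : Type} [Group A] {G : Subgroup (Perm V)} (f : G →* A)

/-- The orbits of the kernel of `f`. -/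
def orb : Setoid V where
  r x y := ∃ k : G, f k = 1 ∧ (k : Perm V) x = y
  iseqv := ⟨fun x => ⟨1, map_one f, rfl⟩,
    fun {x y} ⟨k, h1, h2⟩ => ⟨k⁻¹, by rw [map_inv, h1, inv_one], by
      rw [← h2]; exact (k : Perm V).symm_apply_apply x⟩,
    fun {x y z} ⟨k, h1, h2⟩ ⟨k', h1', h2'⟩ => ⟨k' * k, by rw [map_mul, h1, h1', one_mul], by
      rw [← h2', ← h2]; rfl⟩⟩

/-- The group acts on the orbits of the kernel. -/
def actE : G →* Function.End (Quotient (orb f)) where
  toFun h := Quotient.map (fun x => (h : Perm V) x) (fun x y ⟨k, h1, h2⟩ =>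
    ⟨h * k * h⁻¹, by rw [map_mul, map_mul, h1, map_inv, mul_one, mul_inv_cancel], by
      change (h : Perm V) ((k : Perm V) ((h : Perm V)⁻¹ ((h : Perm V) x))) = (h : Perm V) y
      rw [inv_app, h2]⟩)
  map_one' := by
    funext w
    induction w using Quotient.inductionOn
    rfl
  map_mul' h h' := by
    funext w
    induction w using Quotient.inductionOn
    rfl

/-- The action on the orbits of the kernel, by permutations. -/
def actP : G →* Perm (Quotient (orb f)) := (actE f).toHomPerm

theorem actP_mk (h : G) (x : V) :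
    actP f h (Quotient.mk (orb f) x) = Quotient.mk (orb f) ((h : Perm V) x) := rfl

theorem ker_le : f.ker ≤ (actP f).ker := by
  intro k hk
  rw [MonoidHom.mem_ker] at hk ⊢
  ext w
  induction w using Quotient.inductionOn with
  | _ x =>
    rw [actP_mk, Perm.one_apply]
    refine Quotient.sound ?_
    change ∃ k' : G, f k' = 1 ∧ (k' : Perm V) ((k : Perm V) x) = x
    exact ⟨k⁻¹, by rw [map_inv, hk, inv_one], (k : Perm V).symm_apply_apply x⟩

end orbits

theorem sect_aux {V : Type} [Fintype V] {m N t : ℕ} (hV : Fintype.card V ≤ N) (ht : 1 ≤ t)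
    (h : 5 * Nat.log 5 N + 5 * t ≤ m) (n : ℕ) :
    ∀ (G : Subgroup (Perm V)) (f : G →* alternatingGroup (Fin m)), Function.Surjective f →
      Nat.card G = n → ∃ c : V → Option (Fin t × Fin 5), (∀ q, ∃ x, c x = some q) ∧
        ∀ a : Fin t → A5, ∃ σ ∈ G, ∀ x,
          c (σ x) = (c x).map (fun q => (q.1, (a q.1 : Perm (Fin 5)) q.2)) := by
  classical
  induction n using Nat.strong_induction_on with
  | _ n ih =>
    intro G f hf hn
    set W : Type := Quotient (orb f) with hW
    have : Fintype W := Fintype.ofFinite W
    have hWc : Fintype.card W < 5 ^ (Nat.log 5 N + 1) := by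
      have h1 : Fintype.card W ≤ Fintype.card V :=
        Fintype.card_le_of_surjective (Quotient.mk (orb f)) Quotient.mk_surjective
      exact (h1.trans hV).trans_lt (Nat.lt_pow_succ_log_self (by norm_num) N)
    set θ : alternatingGroup (Fin m) →* Perm W :=
      f.liftOfSurjective hf ⟨actP f, ker_le f⟩ with hθ
    have hθf : ∀ g : G, θ (f g) = actP f g := fun g =>
      MonoidHom.liftOfRightInverse_comp_apply f _ _ ⟨actP f, ker_le f⟩ g
    by_cases hnt : ∃ g w, θ g w ≠ w
    · -- the action on the orbits of the kernel is not trivial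
      obtain ⟨b, hb⟩ := blocks_of_action1 (t := t) hWc h (by omega) θ hnt
      set c : V → Option (Fin t × Fin 5) := fun x =>
        if hx : ∃ q, b q = Quotient.mk (orb f) x then some hx.choose else none with hc
      have hcs : ∀ x q, c x = some q ↔ b q = Quotient.mk (orb f) x := by
        intro x q
        by_cases hx : ∃ q, b q = Quotient.mk (orb f) x
        · rw [hc]
          simp only [hx, dif_pos, Option.some.injEq]
          constructor
          · rintro rfl
            exact hx.choose_spec
          · intro h1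
            exact b.injective (hx.choose_spec.trans h1.symm)
        · rw [hc]
          simp only [hx, dif_neg, not_false_eq_true, reduceCtorEq, false_iff]
          exact fun h1 => hx ⟨q, h1⟩
      refine ⟨c, fun q => ?_, fun a => ?_⟩
      · obtain ⟨x, hx⟩ := Quotient.mk_surjective (b q)
        exact ⟨x, (hcs x q).2 hx.symm⟩
      · obtain ⟨g, hg⟩ := hb a
        obtain ⟨σ, rfl⟩ := hf g
        refine ⟨σ, σ.2, fun x => Option.ext fun q => ?_⟩
        rw [hcs, Option.map_eq_some_iff, ← actP_mk, ← hθf]
        constructor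
        · intro h1
          refine ⟨(q.1, (a q.1 : Perm (Fin 5))⁻¹ q.2), (hcs _ _).2 ?_, ?_⟩
          · have h2 := hg q.1 ((a q.1 : Perm (Fin 5))⁻¹ q.2)
            rw [app_inv] at h2
            exact (θ (f σ)).injective (h2.trans h1)
          · rw [app_inv]
        · rintro ⟨q', h1, rfl⟩
          rw [← (hcs _ _).1 h1]
          exact (hg q'.1 q'.2).symm
    · -- it is trivial
      push Not at hnt
      have hnt' : ∀ (g : G) (x : V), ∃ k : G, f k = 1 ∧ (k : Perm V) x = (g : Perm V) x := by
        intro g x
        have h1 := hnt (f g) (Quotient.mk (orb f) x)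
        rw [hθf, actP_mk] at h1
        exact Quotient.exact h1.symm
      have : Nontrivial (alternatingGroup (Fin m)) :=
        alternatingGroup.nontrivial_of_three_le_card (by
          rw [Nat.card_eq_fintype_card, Fintype.card_fin]; omega)
      obtain ⟨a0, ha0⟩ := exists_ne (1 : alternatingGroup (Fin m))
      obtain ⟨g0, rfl⟩ := hf a0
      obtain ⟨x, hx⟩ : ∃ x, (g0 : Perm V) x ≠ x := by
        by_contra hall
        push Not at hall
        refine ha0 ?_
        have h1 : g0 = 1 := Subtype.ext (Equiv.ext hall)
        rw [h1, map_one]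
      set H : Subgroup (Perm V) := G ⊓ MulAction.stabilizer (Perm V) x with hH
      have hHG : H ≤ G := inf_le_left
      have hlt : Nat.card H < Nat.card G := by
        have h1 : (H : Set (Perm V)) ⊂ (G : Set (Perm V)) := by
          refine (Set.ssubset_iff_of_subset hHG).2 ⟨g0, g0.2, fun h2 => hx ?_⟩
          exact h2.2
        have h2 := Set.ncard_lt_ncard h1 (Set.toFinite _)
        rwa [Set.ncard_def, Set.ncard_def] at h2
      obtain ⟨c, hc1, hc2⟩ := ih (Nat.card H) (hn ▸ hlt) H (f.comp (Subgroup.inclusion hHG)) (by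
        intro g
        obtain ⟨g1, rfl⟩ := hf g
        obtain ⟨k, hk1, hk2⟩ := hnt' g1 x
        refine ⟨⟨(k : Perm V)⁻¹ * (g1 : Perm V), ⟨G.mul_mem (G.inv_mem k.2) g1.2, ?_⟩⟩, ?_⟩
        · change (k : Perm V)⁻¹ ((g1 : Perm V) x) = x
          rw [← hk2, inv_app]
        · change f (k⁻¹ * g1) = f g1
          rw [map_mul, map_inv, hk1, inv_one, one_mul]) rfl
      refine ⟨c, hc1, fun a => ?_⟩
      obtain ⟨σ, hσ, h1⟩ := hc2 a
      exact ⟨σ, hHG hσ, h1⟩

/-- **Sections.** Let `G` be a group of permutations of at most `N` points with a surjective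
homomorphism to the alternating group of degree `m`, and `5 log_5 N + 5 t ≤ m`, `t ≥ 1`. Then there
are `t` blocks of five disjoint nonempty sets of points (the fibres of `c`) on which every element
of `A_5 ^ t` is induced by an element of `G`. -/
theorem sections {V : Type} [Fintype V] {m N t : ℕ} (hV : Fintype.card V ≤ N)
    (G : Subgroup (Perm V)) (f : G →* alternatingGroup (Fin m)) (hf : Function.Surjective f)
    (ht : 1 ≤ t) (h : 5 * Nat.log 5 N + 5 * t ≤ m) :
    ∃ c : V → Option (Fin t × Fin 5), (∀ q, ∃ x, c x = some q) ∧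
      ∀ a : Fin t → alternatingGroup (Fin 5), ∃ σ ∈ G, ∀ x,
        c (σ x) = (c x).map (fun q => (q.1, (a q.1 : Perm (Fin 5)) q.2)) :=
  sect_aux hV ht h _ G f hf rfl

end Pool.Agent.PSX
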