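import Pool.Agent.PSX.DegS
import Pool.Agent.PSX.Sect
import Pool.Agent.PSX.PartC

set_option autoImplicit false

/-!
# No large alternating section in the symmetry group of a small circuit for CLIQUE
-/

namespace Pool.Agent.PSX

open Pool.Agent.PSY

/-- **Sections.** If a group of symmetries of a circuit for CLIQUE maps onto `A_m`, then `m` is
small. -/
theorem secK {N m : ℕ} (hm : 3 ≤ m) (C : SymCircuit (InK N)) (hC : C.Computes cliqueK)
    (U : Finset C.Gate) (G : Subgroup (Equiv.Perm (Fin N))) (hG : ∀ s ∈ G, SymK C U s)
    (f : G →* alternatingGroup (Fin m)) (hf : Function.Surjective f) :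
    5 ^ m ≤ 625 * N ^ 5 * (C.size + 1) ^ (120000 * (C.wires U + 1)) := by
  have hN := two_le_of_surj hm G f hf
  exact sec_of (by omega) C U G hG
    (fun t ht2 ht => sections (by rw [Fintype.card_fin]) G f hf (by omega) ht)
    (fun t c hc => partC N t c hc C hC U)

end Pool.Agent.PSX
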