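import Pool.Agent.PSX.TauK

set_option autoImplicit false

/-!
# The substitution with clones
-/

namespace Pool.Agent.PSX

open Pool.Agent.PSY

open Classical in
/-- The pair `x, y` becomes the input `s(u, v)` if `x` is a clone of `u`, `y` is a clone of `v` and
`u ≠ v`; all other pairs become the constant `false`. -/
noncomputable def tauC {N : ℕ} {V : Type} (c : Fin N → Option V) : InK N → Option (Sym2 V)
  | Sum.inl e => if h : ∃ q : (Fin N × Fin N) × (V × V), e = s(q.1.1, q.1.2) ∧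
      c q.1.1 = some q.2.1 ∧ c q.1.2 = some q.2.2 ∧ q.2.1 ≠ q.2.2
    then some s(h.choose.2.1, h.choose.2.2) else none
  | Sum.inr _ => none

theorem tauC_some {N : ℕ} {V : Type} (c : Fin N → Option V) (x y : Fin N) (u v : V)
    (hx : c x = some u) (hy : c y = some v) (huv : u ≠ v) :
    tauC c (Sum.inl s(x, y)) = some s(u, v) := by
  have h : ∃ q : (Fin N × Fin N) × (V × V), s(x, y) = s(q.1.1, q.1.2) ∧
      c q.1.1 = some q.2.1 ∧ c q.1.2 = some q.2.2 ∧ q.2.1 ≠ q.2.2 :=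
    ⟨((x, y), (u, v)), rfl, hx, hy, huv⟩
  unfold tauC
  simp only
  rw [dif_pos h]
  obtain ⟨h1, h2, h3, _⟩ := h.choose_spec
  obtain ⟨q, hq⟩ : ∃ q, q = h.choose := ⟨_, rfl⟩
  rw [← hq] at h1 h2 h3 ⊢
  rw [Sym2.eq_iff] at h1
  rcases h1 with ⟨e1, e2⟩ | ⟨e1, e2⟩
  · rw [← e1, hx] at h2
    rw [← e2, hy] at h3
    rw [Option.some.inj h2, Option.some.inj h3]
  · rw [← e1, hx] at h3
    rw [← e2, hy] at h2
    rw [Option.some.inj h2, Option.some.inj h3, Sym2.eq_swap]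

theorem tauC_none {N : ℕ} {V : Type} (c : Fin N → Option V) (x y : Fin N)
    (h : ¬ ∃ u v : V, c x = some u ∧ c y = some v ∧ u ≠ v) :
    tauC c (Sum.inl s(x, y)) = none := by
  unfold tauC
  simp only
  rw [dif_neg]
  rintro ⟨⟨⟨x', y'⟩, ⟨u, v⟩⟩, h1, h2, h3, h4⟩
  rw [Sym2.eq_iff] at h1
  rcases h1 with ⟨e1, e2⟩ | ⟨e1, e2⟩
  · exact h ⟨u, v, by rw [e1]; exact h2, by rw [e2]; exact h3, h4⟩
  · exact h ⟨v, u, by rw [e1]; exact h3, by rw [e2]; exact h2, fun h5 => h4 h5.symm⟩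

theorem tauC_inr {N : ℕ} {V : Type} (c : Fin N → Option V) (j : Fin N) :
    tauC c (Sum.inr j : InK N) = none := rfl

end Pool.Agent.PSX
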