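import Pool.Agent.PSX.DefK
import Pool.Agent.PSY.Restr

set_option autoImplicit false

/-!
# The substitution: only the pairs inside the blocks stay inputs
-/

namespace Pool.Agent.PSX

open Pool.Agent.PSY

open Classical in
/-- The input `inl e` becomes the input `e'` if `e` is the image of `e'`; all other inputs become
constants. -/
noncomputable def tauK {N : ℕ} {V : Type} (b : V ↪ Fin N) : InK N → Option (Sym2 V)
  | Sum.inl e => if h : ∃ e', Sym2.map b e' = e then some h.choose else none
  | Sum.inr _ => none

/-- The constants: no edges, and `k` ones. -/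
def kapK {N : ℕ} (k : ℕ) : InK N → Bool
  | Sum.inl _ => false
  | Sum.inr j => decide (j.1 < k)

theorem tauK_map {N : ℕ} {V : Type} (b : V ↪ Fin N) (e : Sym2 V) :
    tauK b (Sum.inl (Sym2.map b e)) = some e := by
  have h : ∃ e', Sym2.map b e' = Sym2.map b e := ⟨e, rfl⟩
  unfold tauK
  simp only
  rw [dif_pos h]
  exact congrArg some (Sym2.map.injective b.injective h.choose_spec)

theorem tauK_none {N : ℕ} {V : Type} (b : V ↪ Fin N) (e : Sym2 (Fin N))
    (h : ¬ ∃ e', Sym2.map b e' = e) : tauK b (Sum.inl e) = none := by
  unfold tauK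
  simp only
  rw [dif_neg h]

theorem tauK_inr {N : ℕ} {V : Type} (b : V ↪ Fin N) (j : Fin N) :
    tauK b (Sum.inr j : InK N) = none := rfl

end Pool.Agent.PSX
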