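import Pool.Agent.PSX.Act1
import Pool.Agent.PSX.Fin
import Pool.Agent.PSX.Deg1
import Pool.Agent.PSX.CardK

set_option autoImplicit false

/-!
# The symmetries of a circuit for CLIQUE contain no large alternating group
-/

namespace Pool.Agent.PSX

open Pool.Agent.PSY

/-- **Alternating groups of symmetries.** If the alternating group of degree `m` acts nontrivially
on the `N` vertices by symmetries of the circuit, then `m` is at most
`5 log N + 120000 (F + 1) log (S + 1) + 4` (logarithms to base `5`). -/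
theorem altK {N m : ℕ} (C : SymCircuit (InK N)) (hC : C.Computes cliqueK) (U : Finset C.Gate)
    (θ : alternatingGroup (Fin m) →* Equiv.Perm (Fin N)) (hθ : ∃ g v, θ g v ≠ v)
    (hsym : ∀ g, SymK C U (θ g)) :
    5 ^ m ≤ 625 * N ^ 5 * (C.size + 1) ^ (120000 * (C.wires U + 1)) := by
  have hN : 1 ≤ N := by
    obtain ⟨g, v, hv⟩ := hθ
    exact Fin.pos v
  have hS : 1 ≤ C.size := by
    have : Nonempty C.Gate := ⟨C.out⟩
    exact Fintype.card_pos
  have h0 := num_tight N m ((C.size + 1) ^ (24000 * (C.wires U + 1))) hN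
    (Nat.one_le_pow _ _ (Nat.succ_pos _)) fun t ht1 ht => by
      rcases Nat.lt_or_ge 1 t with ht2 | ht2
      · obtain ⟨b, hb⟩ := blocks_of_action1 (N := N) (t := t) (le_of_eq (Fintype.card_fin N)) θ
          hθ ht (by omega)
        exact pow_le_of_blocks (fun g => θ g) b hb C hC U hsym
      · have ht3 : t = 1 := by omega
        rw [ht3, pow_one]
        calc 5 ≤ 2 ^ 3 := by norm_num
          _ ≤ (C.size + 1) ^ 3 := Nat.pow_le_pow_left (by omega) _
          _ ≤ (C.size + 1) ^ (24000 * (C.wires U + 1)) :=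
            Nat.pow_le_pow_right (Nat.succ_pos _) (by omega)
  have h5 : ((C.size + 1) ^ (24000 * (C.wires U + 1))) ^ 5 =
      (C.size + 1) ^ (120000 * (C.wires U + 1)) := by
    obtain ⟨w, hw⟩ : ∃ w, w = C.wires U + 1 := ⟨_, rfl⟩
    rw [← hw, ← pow_mul]
    congr 1
    ring
  rw [h5] at h0
  exact h0

/-- The number of all symmetries. -/
theorem cardK (N t : ℕ) (ht : 5 * t ≤ N) (C : SymCircuit (InK N)) (hC : C.Computes cliqueK)
    (U : Finset C.Gate) :
    Nat.card {σ : Equiv.Perm (Fin N) // SymK C U σ} * 5 ^ t ≤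
      N.factorial * (C.size + 1) ^ (24000 * (C.wires U + 1)) := by
  obtain ⟨b⟩ := exists_blocks N t ht
  exact cardK_of b C U (partK N t b C hC U)

end Pool.Agent.PSX
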