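import Pool.Agent.PSX.Act

set_option autoImplicit false

/-!
# Three-cycles and small alternating groups in a permutation group
-/

namespace Pool.Agent.PSX

/-- The 3-cycle `x → y → z → x`. -/
def tri {α : Type} [DecidableEq α] (x y z : α) : Equiv.Perm α :=
  Equiv.swap x y * Equiv.swap y z

section

variable {α : Type} [DecidableEq α] {x y z : α}

theorem tri_x (hxy : x ≠ y) (hxz : x ≠ z) : tri x y z x = y := by
  change Equiv.swap x y (Equiv.swap y z x) = y
  rw [Equiv.swap_apply_of_ne_of_ne hxy hxz, Equiv.swap_apply_left]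

theorem tri_y (hxz : x ≠ z) (hyz : y ≠ z) : tri x y z y = z := by
  change Equiv.swap x y (Equiv.swap y z y) = z
  rw [Equiv.swap_apply_left, Equiv.swap_apply_of_ne_of_ne (Ne.symm hxz) (Ne.symm hyz)]

theorem tri_z : tri x y z z = x := by
  change Equiv.swap x y (Equiv.swap y z z) = x
  rw [Equiv.swap_apply_right, Equiv.swap_apply_right]

theorem tri_of {w : α} (hx : w ≠ x) (hy : w ≠ y) (hz : w ≠ z) : tri x y z w = w := by
  change Equiv.swap x y (Equiv.swap y z w) = w
  rw [Equiv.swap_apply_of_ne_of_ne hy hz, Equiv.swap_apply_of_ne_of_ne hx hy]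

theorem tri_rot (hxy : x ≠ y) (hyz : y ≠ z) (hxz : x ≠ z) : tri x y z = tri y z x := by
  ext w
  by_cases h1 : w = x
  · rw [h1, tri_x hxy hxz, tri_z]
  · by_cases h2 : w = y
    · rw [h2, tri_y hxz hyz, tri_x hyz (Ne.symm hxy)]
    · by_cases h3 : w = z
      · rw [h3, tri_z, tri_y (Ne.symm hxy) (Ne.symm hxz)]
      · rw [tri_of h1 h2 h3, tri_of h2 h3 h1]

theorem tri_inv (hxy : x ≠ y) (hyz : y ≠ z) (hxz : x ≠ z) : (tri x y z)⁻¹ = tri x z y := by
  rw [inv_eq_iff_mul_eq_one]
  ext w
  rw [Equiv.Perm.mul_apply, Equiv.Perm.one_apply]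
  by_cases h1 : w = x
  · rw [h1, tri_x hxz hxy, tri_z]
  · by_cases h2 : w = y
    · rw [h2, tri_z, tri_x hxy hxz]
    · by_cases h3 : w = z
      · rw [h3, tri_y hxy (Ne.symm hyz), tri_y hxz hyz]
      · rw [tri_of h1 h3 h2, tri_of h1 h2 h3]

theorem sign_tri [Fintype α] (hxy : x ≠ y) (hyz : y ≠ z) : Equiv.Perm.sign (tri x y z) = 1 := by
  rw [tri, Equiv.Perm.sign_mul, Equiv.Perm.sign_swap hxy, Equiv.Perm.sign_swap hyz]
  rfl

/-- Two permutations which move only one common point: the commutator is a 3-cycle. -/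
theorem comm_tri (g h : Equiv.Perm α) (a : α)
    (H : ∀ z, g z ≠ z → h z ≠ z → z = a) (ga : g a ≠ a) (ha : h a ≠ a) :
    g * h * g⁻¹ * h⁻¹ = tri a (g a) (h a) ∧ g a ≠ h a := by
  have H1 : ∀ z, z ≠ a → g z ≠ z → h z = z := fun z hz hg => by_contra fun hh => hz (H z hg hh)
  have H2 : ∀ z, z ≠ a → h z ≠ z → g z = z := fun z hz hh => by_contra fun hg => hz (H z hg hh)
  have e1 : g (g a) ≠ g a := fun e => ga (g.injective e)
  have e2 : h (h a) ≠ h a := fun e => ha (h.injective e)
  have e3 : h (g a) = g a := H1 _ ga e1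
  have e4 : g (h a) = h a := H2 _ ha e2
  have hgh : g a ≠ h a := by
    intro e
    rw [e] at e3
    exact e2 e3
  have hg' : ∀ u w, g u = w → g⁻¹ w = u := fun u w e => Equiv.Perm.inv_eq_iff_eq.mpr e.symm
  have hh' : ∀ u w, h u = w → h⁻¹ w = u := fun u w e => Equiv.Perm.inv_eq_iff_eq.mpr e.symm
  refine ⟨?_, hgh⟩
  ext z
  change g (h (g⁻¹ (h⁻¹ z))) = _
  by_cases z1 : z = a
  · rw [z1, tri_x (Ne.symm ga) (Ne.symm ha)]
    obtain ⟨b, hb⟩ := h.surjective a
    have b2 : b ≠ a := fun e => ha (by rw [← e, hb, e])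
    have b3 : g b = b := H2 b b2 (by rw [hb]; exact Ne.symm b2)
    rw [hh' _ _ hb, hg' _ _ b3, hb]
  · by_cases z2 : z = g a
    · rw [z2, tri_y (Ne.symm ha) hgh, hh' _ _ e3, hg' a _ rfl, e4]
    · by_cases z3 : z = h a
      · rw [z3, tri_z, hh' a _ rfl]
        obtain ⟨b, hb⟩ := g.surjective a
        have b2 : b ≠ a := fun e => ga (by rw [← e, hb, e])
        have b3 : h b = b := H1 b b2 (by rw [hb]; exact Ne.symm b2)
        rw [hg' _ _ hb, b3, hb]
      · rw [tri_of z1 z2 z3]
        by_cases hz : h z = z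
        · rw [hh' _ _ hz]
          by_cases gz : g z = z
          · rw [hg' _ _ gz, hz, gz]
          · obtain ⟨b, hb⟩ := g.surjective z
            have b1 : b ≠ a := fun e => z2 (by rw [← e, hb])
            have b2 : g b ≠ b := fun e => gz (by
              have h1 : z = b := hb.symm.trans e
              rw [h1]; exact e)
            have b3 : h b = b := H1 b b1 b2
            rw [hg' _ _ hb, b3, hb]
        · obtain ⟨b, hb⟩ := h.surjective z
          have b1 : b ≠ a := fun e => z3 (by rw [← e, hb])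
          have b2 : h b ≠ b := fun e => hz (by
            have h1 : z = b := hb.symm.trans e
            rw [h1]; exact e)
          have b3 : g b = b := H2 b b1 b2
          rw [hh' _ _ hb, hg' _ _ b3, hb, H2 z z1 hz]

end

section

variable {α : Type} [Fintype α] [DecidableEq α]

/-- The group `G` contains all even permutations of `Y`. -/
def AltIn (G : Subgroup (Equiv.Perm α)) (Y : Finset α) : Prop :=
  ∀ h : Equiv.Perm α, Equiv.Perm.sign h = 1 → (∀ z, z ∉ Y → h z = z) → h ∈ G

/-- The extension lemma for a permutation group. -/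
theorem AltIn.extend {G : Subgroup (Equiv.Perm α)} {P : Finset α} (hK : AltIn G P)
    (hP : 3 ≤ P.card) (x : α) (k : Equiv.Perm α) (hk : k ∈ G) (hk0 : Equiv.Perm.sign k = 1)
    (hk1 : ∀ z, z ∉ insert x P → k z = z) (hk2 : k x ≠ x) : AltIn G (insert x P) := by
  intro h hh0 hh
  exact Pool.Agent.PSX.extend (G.comap (alternatingGroup α).subtype) P hP x
    (fun g hg => hK g g.2 hg) ⟨k, hk0⟩ hk hk1 hk2 ⟨h, hh0⟩ hh

/-- An even permutation which moves at most two points is trivial. -/
theorem eq_one_of_two (h : Equiv.Perm α) (h0 : Equiv.Perm.sign h = 1) (y z : α)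
    (hh : ∀ w, w ≠ y → w ≠ z → h w = w) : h = 1 := by
  by_contra hne
  have h1 : h.support ⊆ {y, z} := by
    intro w hw
    rw [Equiv.Perm.mem_support] at hw
    by_contra hn
    rw [Finset.mem_insert, Finset.mem_singleton, not_or] at hn
    exact hw (hh w hn.1 hn.2)
  have h2 : h.support.card ≤ 2 := (Finset.card_le_card h1).trans Finset.card_le_two
  have h3 := Equiv.Perm.two_le_card_support_of_ne_one hne
  have h4 := (Equiv.Perm.card_support_eq_two.mp (le_antisymm h2 h3)).sign_eq
  rw [h0] at h4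
  exact absurd h4 (by decide)

/-- A 3-cycle generates the alternating group of its three points. -/
theorem altIn_of_tri (G : Subgroup (Equiv.Perm α)) (x y z : α) (hxy : x ≠ y) (hyz : y ≠ z)
    (hxz : x ≠ z) (hG : tri x y z ∈ G) : AltIn G {x, y, z} := by
  intro h h0 hh
  have hs := sign_tri hxy hyz
  have hh' : ∀ w, w ≠ x → w ≠ y → w ≠ z → h w = w := by
    intro w h1 h2 h3
    apply hh
    simp [h1, h2, h3]
  by_cases h1 : h x = x
  · have h2 : h = 1 := eq_one_of_two h h0 y z fun w h2 h3 => by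
      by_cases h4 : w = x
      · rw [h4, h1]
      · exact hh' w h4 h2 h3
    rw [h2]
    exact G.one_mem
  · have hin : h x = y ∨ h x = z := by
      by_contra hn
      rw [not_or] at hn
      have h2 := hh' _ h1 hn.1 hn.2
      exact h1 (h.injective h2)
    rcases hin with h2 | h2
    · have h3 : (tri x y z)⁻¹ * h = 1 := by
        refine eq_one_of_two _ ?_ y z fun w h4 h5 => ?_
        · rw [Equiv.Perm.sign_mul, Equiv.Perm.sign_inv, hs, h0]; rfl
        · rw [Equiv.Perm.mul_apply, Equiv.Perm.inv_eq_iff_eq]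
          by_cases h6 : w = x
          · rw [h6, h2, tri_x hxy hxz]
          · rw [hh' w h6 h4 h5, tri_of h6 h4 h5]
      have h4 : h = tri x y z := (inv_mul_eq_one.mp h3).symm
      rw [h4]
      exact hG
    · have h3 : tri x y z * h = 1 := by
        refine eq_one_of_two _ ?_ y z fun w h4 h5 => ?_
        · rw [Equiv.Perm.sign_mul, hs, h0]; rfl
        · rw [Equiv.Perm.mul_apply]
          by_cases h6 : w = x
          · rw [h6, h2, tri_z]
          · rw [hh' w h6 h4 h5, tri_of h6 h4 h5]
      have h4 : h = (tri x y z)⁻¹ := eq_inv_of_mul_eq_one_right h3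
      rw [h4]
      exact G.inv_mem hG

end

end Pool.Agent.PSX
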